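import Pool.Agent.Work.PolyTime.IndSet
import Pool.Agent.Work.PolyTime.More

/-!
The coefficients of a product of factors `z - 2 ^ j`, in binary.
-/

set_option autoImplicit false
set_option linter.unusedSimpArgs false

namespace Pool.Agent.Work.MP_63b90e_lc

open Pool.Agent.Work.PolyTime

/-! ### Addition in binary -/

/-- The longer length of two lists: padding of the first list. -/
def padTo {X : Type} (d : X) (a b : List X) : List X := a ++ List.replicate (b.length - a.length) d

theorem padTo_length {X : Type} (d : X) (a b : List X) :
    (padTo d a b).length = max a.length b.length := by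
  simp only [padTo, List.length_append, List.length_replicate]; omega

/-- One step of adding. -/
def addStep2 (s : Bool × List Bool) (p : Bool × Bool) : Bool × List Bool :=
  ((s.1 && p.1) || ((s.1 && p.2) || (p.1 && p.2)),
    (bif s.1 then (bif p.1 then p.2 else !p.2) else (bif p.1 then !p.2 else p.2)) :: s.2)

/-- Addition of binary numbers, least significant digit first. -/
def addB (a b : List Bool) : List Bool :=
  ((((padTo false a b).zip (padTo false b a)).foldl addStep2 (false, [])).1 ::
    (((padTo false a b).zip (padTo false b a)).foldl addStep2 (false, [])).2).reverse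

theorem valL_replicate (k : ℕ) : valL (List.replicate k false) = 0 := by
  induction k with
  | zero => rfl
  | succ k ih => rw [List.replicate_succ]; simp [valL, ih]

theorem valL_padTo (a b : List Bool) : valL (padTo false a b) = valL a := by
  have key : ∀ (a : List Bool) (k : ℕ), valL (a ++ List.replicate k false) = valL a := by
    intro a k
    induction a with
    | nil => simpa [valL] using valL_replicate k
    | cons c a ih => simp [valL, ih]
  exact key _ _

theorem foldl_addStep2 (l m : List Bool) (h : l.length = m.length) : ∀ (c : Bool)
    (out : List Bool), ∃ c' r, (l.zip m).foldl addStep2 (c, out) = (c', r ++ out) ∧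
      r.length = l.length ∧
      valL r.reverse + (if c' then 2 ^ l.length else 0) =
        valL l + valL m + (if c then 1 else 0) := by
  induction l generalizing m with
  | nil =>
    intro c out
    cases m with
    | nil => exact ⟨c, [], rfl, rfl, by simp [valL]⟩
    | cons b m => simp at h
  | cons a l ih =>
    intro c out
    cases m with
    | nil => simp at h
    | cons b m =>
      simp only [List.length_cons, Nat.add_right_cancel_iff] at h
      obtain ⟨c', r, h1, h2, h3⟩ := ih m h ((c && a) || ((c && b) || (a && b)))
        ((bif c then (bif a then b else !b) else (bif a then !b else b)) :: out)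
      refine ⟨c', r ++ [bif c then (bif a then b else !b) else (bif a then !b else b)], ?_,
        by simp [h2], ?_⟩
      · rw [List.zip_cons_cons, List.foldl_cons]
        have : addStep2 (c, out) (a, b) = ((c && a) || ((c && b) || (a && b)),
          (bif c then (bif a then b else !b) else (bif a then !b else b)) :: out) := rfl
        rw [this, h1]; simp
      · rw [List.reverse_append, List.reverse_singleton, List.singleton_append]
        simp only [valL, List.length_cons, pow_succ]
        cases c <;> cases a <;> cases b <;> cases c' <;> simp at h3 ⊢ <;> omega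

theorem addB_val (a b : List Bool) : valL (addB a b) = valL a + valL b := by
  obtain ⟨c', r, h1, h2, h3⟩ := foldl_addStep2 (padTo false a b) (padTo false b a)
    (by rw [padTo_length, padTo_length, max_comm]) false []
  rw [List.append_nil] at h1
  unfold addB
  rw [h1, List.reverse_cons, valL_append, List.length_reverse, h2]
  rw [valL_padTo, valL_padTo] at h3
  simpa using h3

theorem addB_length (a b : List Bool) : (addB a b).length = max a.length b.length + 1 := by
  obtain ⟨c', r, h1, h2, h3⟩ := foldl_addStep2 (padTo false a b) (padTo false b a)
    (by rw [padTo_length, padTo_length, max_comm]) false []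
  rw [List.append_nil] at h1
  unfold addB
  rw [h1, List.length_reverse, List.length_cons, h2, padTo_length]

/-- Multiplication by a power of two. -/
def shiftB (j : ℕ) (a : List Bool) : List Bool := List.replicate j false ++ a

theorem shiftB_val (j : ℕ) (a : List Bool) : valL (shiftB j a) = 2 ^ j * valL a := by
  induction j with
  | zero => simp [shiftB]
  | succ j ih =>
    have : shiftB (j + 1) a = false :: shiftB j a := by simp [shiftB, List.replicate_succ]
    rw [this, valL, ih, pow_succ]; simp; ring

/-! ### Polynomials -/

/-- The value of a polynomial given by its coefficients. -/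
def evP : List (List Bool) → ℕ → ℕ
  | [], _ => 0
  | a :: p, z => valL a + z * evP p z

/-- Sum of polynomials. -/
def addP (p q : List (List Bool)) : List (List Bool) :=
  ((padTo [] p q).zip (padTo [] q p)).map fun x => addB x.1 x.2

theorem evP_padTo (p q : List (List Bool)) (z : ℕ) : evP (padTo [] p q) z = evP p z := by
  have key0 : ∀ k, evP (List.replicate k []) z = 0 := by
    intro k
    induction k with
    | zero => rfl
    | succ k ih => rw [List.replicate_succ, evP, ih]; simp [valL]
  have key : ∀ (p : List (List Bool)) (k : ℕ), evP (p ++ List.replicate k []) z = evP p z := by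
    intro p k
    induction p with
    | nil => simpa [evP] using key0 k
    | cons a p ih => rw [List.cons_append, evP, evP, ih]
  exact key _ _

theorem evP_zip (p q : List (List Bool)) (h : p.length = q.length) (z : ℕ) :
    evP ((p.zip q).map fun x => addB x.1 x.2) z = evP p z + evP q z := by
  induction p generalizing q with
  | nil => cases q with
    | nil => rfl
    | cons b q => simp at h
  | cons a p ih => cases q with
    | nil => simp at h
    | cons b q =>
      simp only [List.length_cons, Nat.add_right_cancel_iff] at h
      simp only [List.zip_cons_cons, List.map_cons, evP, ih q h, addB_val]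
      ring

theorem addP_ev (p q : List (List Bool)) (z : ℕ) : evP (addP p q) z = evP p z + evP q z := by
  rw [addP, evP_zip _ _ (by rw [padTo_length, padTo_length, max_comm]), evP_padTo, evP_padTo]

theorem evP_shift (j : ℕ) (p : List (List Bool)) (z : ℕ) :
    evP (p.map (shiftB j)) z = 2 ^ j * evP p z := by
  induction p with
  | nil => simp [evP]
  | cons a p ih => rw [List.map_cons, evP, evP, ih, shiftB_val]; ring

/-- Multiplication of a difference of polynomials by `z - 2 ^ j`. -/
def coefStep (s : List (List Bool) × List (List Bool)) (j : ℕ) :
    List (List Bool) × List (List Bool) :=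
  (addP ([] :: s.1) (s.2.map (shiftB j)), addP ([] :: s.2) (s.1.map (shiftB j)))

/-- The coefficients of the product of the factors `z - 2 ^ j`, as a difference. -/
def coefs (J : List ℕ) : List (List Bool) × List (List Bool) :=
  J.foldl coefStep ([[true]], [[]])

theorem coefs_ev (J : List ℕ) (z : ℕ) :
    (evP (coefs J).1 z : ℤ) - evP (coefs J).2 z = (J.map fun j => (z : ℤ) - 2 ^ j).prod := by
  induction J using List.reverseRecOn with
  | nil => simp [coefs, evP, valL]
  | append_singleton J j ih =>
    rw [coefs, List.foldl_append, ← coefs, List.foldl_cons, List.foldl_nil, coefStep]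
    simp only [addP_ev, evP, evP_shift, List.map_append, List.prod_append, List.map_cons,
      List.map_nil, List.prod_cons, List.prod_nil, ← ih]
    push_cast
    simp only [valL]
    push_cast
    ring

/-! ### Sizes -/

/-- Bound for the number of digits. -/
def digB (J : List ℕ) : ℕ := 1 + (J.map fun j => j + 1).sum

theorem mem_padTo {X : Type} {d x : X} {a b : List X} (h : x ∈ padTo d a b) : x ∈ a ∨ x = d := by
  simp only [padTo, List.mem_append, List.mem_replicate] at h
  exact h.imp_right fun h => h.2

theorem addP_bound {p q : List (List Bool)} {B : ℕ} (hp : ∀ a ∈ p, a.length ≤ B)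
    (hq : ∀ a ∈ q, a.length ≤ B) : ∀ a ∈ addP p q, a.length ≤ B + 1 := by
  intro a ha
  simp only [addP, List.mem_map, Prod.exists] at ha
  obtain ⟨x, y, hxy, rfl⟩ := ha
  have h1 := List.of_mem_zip hxy
  rw [addB_length]
  have hx : x.length ≤ B := by
    rcases mem_padTo h1.1 with h | rfl
    · exact hp _ h
    · simp
  have hy : y.length ≤ B := by
    rcases mem_padTo h1.2 with h | rfl
    · exact hq _ h
    · simp
  omega

theorem addP_length (p q : List (List Bool)) :
    (addP p q).length = max p.length q.length := by
  simp [addP, padTo_length, max_comm]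

theorem coefs_bound (J : List ℕ) :
    ((coefs J).1.length = J.length + 1 ∧ (coefs J).2.length = J.length + 1) ∧
    (∀ a ∈ (coefs J).1, a.length ≤ digB J) ∧ (∀ a ∈ (coefs J).2, a.length ≤ digB J) := by
  induction J using List.reverseRecOn with
  | nil => simp [coefs, digB]
  | append_singleton J j ih =>
    obtain ⟨⟨h1, h2⟩, h3, h4⟩ := ih
    rw [coefs, List.foldl_append, ← coefs, List.foldl_cons, List.foldl_nil, coefStep]
    have hd : digB (J ++ [j]) = (digB J + j) + 1 := by simp [digB]; omega
    refine ⟨⟨?_, ?_⟩, ?_, ?_⟩
    · simp only [addP_length, List.length_cons, List.length_map, List.length_append,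
        List.length_nil, h1, h2]
      omega
    · simp only [addP_length, List.length_cons, List.length_map, List.length_append,
        List.length_nil, h1, h2]
      omega
    · rw [hd]
      refine addP_bound ?_ ?_
      · intro a ha
        rcases List.mem_cons.1 ha with rfl | ha
        · simp
        · have := h3 a ha; omega
      · intro a ha
        obtain ⟨b, hb, rfl⟩ := List.mem_map.1 ha
        have := h4 b hb
        simp only [shiftB, List.length_append, List.length_replicate]; omega
    · rw [hd]
      refine addP_bound ?_ ?_
      · intro a ha
        rcases List.mem_cons.1 ha with rfl | ha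
        · simp
        · have := h4 a ha; omega
      · intro a ha
        obtain ⟨b, hb, rfl⟩ := List.mem_map.1 ha
        have := h3 b hb
        simp only [shiftB, List.length_append, List.length_replicate]; omega

theorem digB_le (J : List ℕ) : digB J ≤ sz J := by
  induction J with
  | nil => simp [digB]
  | cons j J ih =>
    simp only [digB, List.map_cons, List.sum_cons, sz_cons, sz_nat] at ih ⊢
    omega

theorem length_le_sz {α : Type} [Code α] (l : List α) : l.length < sz l := by
  induction l with
  | nil => simp
  | cons a l ih =>
    have := sz_pos a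
    simp only [List.length_cons, sz_cons]; omega

section

variable {α β : Type} [Code α] [Code β]

@[fun_prop]
theorem PTime.replicate {n : α → ℕ} {a : α → β} (hn : PTime n) (ha : PTime a) :
    PTime (fun x => List.replicate (n x) (a x)) := by
  have h : PTime (fun x => (List.replicate (n x) ()).map (fun _ => a x)) :=
    PTime.map (f := fun x _ => a x) hn.replicateUnit (ha.comp PTime.fst)
  refine h.code_congr (fun x => ?_)
  simp

theorem PTime.padTo {d : β} {a b : α → List β} (ha : PTime a) (hb : PTime b) :
    PTime (fun x => MP_63b90e_lc.padTo d (a x) (b x)) := by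
  unfold MP_63b90e_lc.padTo
  fun_prop

theorem PTime.addB {a b : α → List Bool} (ha : PTime a) (hb : PTime b) :
    PTime (fun x => MP_63b90e_lc.addB (a x) (b x)) := by
  have hz : PTime (fun x => (MP_63b90e_lc.padTo false (a x) (b x)).zip
      (MP_63b90e_lc.padTo false (b x) (a x))) := PTime.zip (PTime.padTo ha hb) (PTime.padTo hb ha)
  have h : PTime (fun x => ((MP_63b90e_lc.padTo false (a x) (b x)).zip
      (MP_63b90e_lc.padTo false (b x) (a x))).foldl (fun s b =>
      (fun y : α × (Bool × List Bool) × (Bool × Bool) => addStep2 y.2.1 y.2.2) (x, s, b))
        (false, [])) := by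
    refine PTime.foldlGrow
      (f := fun y : α × (Bool × List Bool) × (Bool × Bool) => addStep2 y.2.1 y.2.2)
      hz (PTime.const _) (by unfold addStep2; fun_prop) (G := fun _ => 10) (PB.const 10) ?_
    rintro x b _ ⟨c, out⟩
    have h1 := sz_bool ((c && b.1) || ((c && b.2) || (b.1 && b.2)))
    have h2 := sz_bool (bif c then (bif b.1 then b.2 else !b.2) else (bif b.1 then !b.2 else b.2))
    have h3 := sz_pos c
    simp only [addStep2, sz_pair, sz_cons]
    omega
  unfold MP_63b90e_lc.addB
  simp only at h
  fun_prop

theorem PTime.addP {a b : α → List (List Bool)} (ha : PTime a) (hb : PTime b) :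
    PTime (fun x => MP_63b90e_lc.addP (a x) (b x)) := by
  unfold MP_63b90e_lc.addP
  exact PTime.map (f := fun _ y => MP_63b90e_lc.addB y.1 y.2)
    (PTime.zip (PTime.padTo ha hb) (PTime.padTo hb ha)) (PTime.addB (by fun_prop) (by fun_prop))

theorem PTime.shiftB {j : α → ℕ} {a : α → List Bool} (hj : PTime j) (ha : PTime a) :
    PTime (fun x => MP_63b90e_lc.shiftB (j x) (a x)) := by
  unfold MP_63b90e_lc.shiftB
  fun_prop

theorem PTime.coefs {J : α → List ℕ} (hJ : PTime J) :
    PTime (fun x => MP_63b90e_lc.coefs (J x)) := by
  have hstep : PTime (fun y : α × (List (List Bool) × List (List Bool)) × ℕ =>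
      coefStep y.2.1 y.2.2) := by
    unfold coefStep
    have hs (p : (α × (List (List Bool) × List (List Bool)) × ℕ) → List (List Bool))
        (hp : PTime p) : PTime (fun y : α × (List (List Bool) × List (List Bool)) × ℕ =>
          (p y).map (MP_63b90e_lc.shiftB y.2.2)) :=
      PTime.map (f := fun y b => MP_63b90e_lc.shiftB y.2.2 b) hp
        (PTime.shiftB (by fun_prop) (by fun_prop))
    exact PTime.prodMk (PTime.addP (by fun_prop) (hs _ (by fun_prop)))
      (PTime.addP (by fun_prop) (hs _ (by fun_prop)))
  refine PTime.foldl (l := J) (s := fun _ => ([[true]], [[]]))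
    (f := fun y : α × (List (List Bool) × List (List Bool)) × ℕ => coefStep y.2.1 y.2.2)
    hJ (PTime.const _) hstep
    (B := fun x => 1 + (1 + sz (J x) * (1 + (1 + sz (J x) * 4))) * 2) ?_ ?_
  · exact (PB.const 1).add (((PB.const 1).add (hJ.sz_le.mul ((PB.const 1).add ((PB.const 1).add
      (hJ.sz_le.mul (PB.const 4)))))).mul (PB.const 2))
  · intro x l' hl'
    have hb := coefs_bound l'
    have hf : (l'.foldl (fun s b => (fun y : α × (List (List Bool) × List (List Bool)) × ℕ =>
        coefStep y.2.1 y.2.2) (x, s, b)) ([[true]], [[]])) = MP_63b90e_lc.coefs l' := rfl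
    rw [hf]
    obtain ⟨⟨h1, h2⟩, h3, h4⟩ := hb
    have h5 : digB l' ≤ sz (J x) := (digB_le l').trans (sz_prefix hl')
    have h6 : l'.length + 1 ≤ sz (J x) := by
      have := length_le_sz l'
      have := sz_prefix hl'
      omega
    have hin : ∀ a : List Bool, a.length ≤ digB l' → sz a ≤ 1 + sz (J x) * 4 := by
      intro a ha
      have h7 := sz_list_le a 3 (fun b _ => sz_bool b)
      have h8 : a.length * (1 + 3) ≤ sz (J x) * 4 := by omega
      omega
    have hl : ∀ p : List (List Bool), p.length = l'.length + 1 →
        (∀ a ∈ p, a.length ≤ digB l') → sz p ≤ 1 + sz (J x) * (1 + (1 + sz (J x) * 4)) := by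
      intro p hp hp'
      have h7 := sz_list_le p (1 + sz (J x) * 4) (fun a ha => hin a (hp' a ha))
      have h8 : p.length * (1 + (1 + sz (J x) * 4)) ≤ sz (J x) * (1 + (1 + sz (J x) * 4)) :=
        Nat.mul_le_mul_right _ (by omega)
      omega
    have h9 := hl _ h1 h3
    have h10 := hl _ h2 h4
    rw [show MP_63b90e_lc.coefs l' = ((MP_63b90e_lc.coefs l').1, (MP_63b90e_lc.coefs l').2) from
      rfl, sz_pair]
    omega

end

end Pool.Agent.Work.MP_63b90e_lc
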