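import Pool.Agent.Work.MP_63b90e_lc.PP

/-!
Validity and stability are checked in polynomial time.
-/

set_option autoImplicit false
set_option linter.unusedSimpArgs false

namespace Pool.Agent.Work.MP_63b90e_lc

open Pool.Agent.Work.PolyTime

/-- The list is a permutation of `0, ..., n - 1`. -/
def permB (n : ℕ) (l : List ℕ) : Bool :=
  decide (l.length = n) && (List.range n).all fun i => memB i l

theorem permB_iff {n : ℕ} {l : List ℕ} : permB n l = true ↔ l.Perm (List.range n) := by
  simp only [permB, Bool.and_eq_true, decide_eq_true_eq, List.all_eq_true, List.mem_range,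
    memB_iff]
  constructor
  · rintro ⟨h1, h2⟩
    have h3 : (List.range n).Subperm l :=
      List.nodup_range.subperm fun i hi => h2 i (List.mem_range.1 hi)
    exact (h3.perm_of_length_le (by simp [h1])).symm
  · intro h
    exact ⟨by rw [h.length_eq, List.length_range], fun i hi => h.mem_iff.2 (List.mem_range.2 hi)⟩

/-- Validity. -/
def validB (a : List (List ℕ) × List (List ℕ)) : Bool :=
  decide (a.2.length = a.1.length) &&
    (a.1.all (fun l => permB a.1.length l) && a.2.all (fun l => permB a.1.length l))

theorem validB_iff {a : List (List ℕ) × List (List ℕ)} :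
    validB a = true ↔ (smOf a).Valid := by
  simp only [validB, Bool.and_eq_true, decide_eq_true_eq, List.all_eq_true, permB_iff]
  rfl

/-- Comparison in a preference list. -/
def befB (l : List ℕ) (x y : ℕ) : Bool := decide (posF l x < posF l y)

theorem befB_iff {l : List ℕ} {x y : ℕ} : befB l x y = true ↔ Before l x y := by
  simp only [befB, decide_eq_true_eq, posF_eq]; rfl

/-- The pair does not block. -/
def okB (a : List (List ℕ) × List (List ℕ)) (M : List ℕ) (m w : ℕ) : Bool :=
  decide (M.getD m 0 = w) || (!(befB (a.1.getD m []) w (M.getD m 0)) ||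
    !(befB (a.2.getD w []) m (posF M w)))

/-- Stability. -/
def stabB (a : List (List ℕ) × List (List ℕ)) (M : List ℕ) : Bool :=
  permB a.1.length M && (List.range a.1.length).all fun m =>
    (List.range a.1.length).all fun w => okB a M m w

theorem stabB_iff {a : List (List ℕ) × List (List ℕ)} {M : List ℕ} :
    stabB a M = true ↔ (smOf a).Stable M := by
  simp only [stabB, Bool.and_eq_true, List.all_eq_true, permB_iff, List.mem_range, SM.Stable]
  refine and_congr_right fun _ => ?_
  constructor
  · rintro h m w ⟨h1, h2, h3, h4, h5⟩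
    have h6 := h m h1 w h2
    simp only [okB, Bool.or_eq_true, decide_eq_true_eq, Bool.not_eq_true', ← Bool.not_eq_true,
      befB_iff, posF_eq] at h6
    rcases h6 with h6 | h6 | h6
    · exact h3 h6
    · exact h6 h4
    · exact h6 h5
  · intro h m hm w hw
    simp only [okB, Bool.or_eq_true, decide_eq_true_eq, Bool.not_eq_true', ← Bool.not_eq_true,
      befB_iff, posF_eq]
    by_contra hcon
    push Not at hcon
    exact h m w ⟨hm, hw, hcon.1, hcon.2.1, hcon.2.2⟩

section

variable {α : Type} [Code α]

theorem PTime.permB {n : α → ℕ} {l : α → List ℕ} (hn : PTime n) (hl : PTime l) :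
    PTime (fun x => MP_63b90e_lc.permB (n x) (l x)) := by
  unfold MP_63b90e_lc.permB
  refine PTime.and (PTime.eq (PTime.length hl) hn) (PTime.all (p := fun x i => memB i (l x))
    (PTime.range hn) (PTime.memB PTime.snd (hl.comp PTime.fst)))

theorem PTime.validB {a : α → List (List ℕ) × List (List ℕ)} (ha : PTime a) :
    PTime (fun x => MP_63b90e_lc.validB (a x)) := by
  unfold MP_63b90e_lc.validB
  have h1 : PTime (fun x => (a x).1) := PTime.fst.comp ha
  have h2 : PTime (fun x => (a x).2) := PTime.snd.comp ha
  have h3 : PTime (fun y : α × List ℕ => (a y.1).1.length) := PTime.length (h1.comp PTime.fst)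
  exact PTime.and (PTime.eq (PTime.length h2) (PTime.length h1)) (PTime.and
    (PTime.all (p := fun x l => MP_63b90e_lc.permB (a x).1.length l) h1
      (PTime.permB h3 PTime.snd))
    (PTime.all (p := fun x l => MP_63b90e_lc.permB (a x).1.length l) h2
      (PTime.permB h3 PTime.snd)))

theorem PTime.befB {l : α → List ℕ} {x y : α → ℕ} (hl : PTime l) (hx : PTime x) (hy : PTime y) :
    PTime (fun z => MP_63b90e_lc.befB (l z) (x z) (y z)) := by
  unfold MP_63b90e_lc.befB
  exact PTime.natLt (PTime.posF hl hx) (PTime.posF hl hy)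

theorem PTime.okB {a : α → List (List ℕ) × List (List ℕ)} {M : α → List ℕ} {m w : α → ℕ}
    (ha : PTime a) (hM : PTime M) (hm : PTime m) (hw : PTime w) :
    PTime (fun z => MP_63b90e_lc.okB (a z) (M z) (m z) (w z)) := by
  unfold MP_63b90e_lc.okB
  have h1 : PTime (fun x => (a x).1) := PTime.fst.comp ha
  have h2 : PTime (fun x => (a x).2) := PTime.snd.comp ha
  have h3 : PTime (fun x => (M x).getD (m x) 0) := PTime.nth hM hm (PTime.const 0)
  exact PTime.or (PTime.eq h3 hw) (PTime.or
    (PTime.not (PTime.befB (PTime.nth h1 hm (PTime.const [])) hw h3))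
    (PTime.not (PTime.befB (PTime.nth h2 hw (PTime.const [])) hm (PTime.posF hM hw))))

theorem PTime.stabB {a : α → List (List ℕ) × List (List ℕ)} {M : α → List ℕ}
    (ha : PTime a) (hM : PTime M) :
    PTime (fun z => MP_63b90e_lc.stabB (a z) (M z)) := by
  unfold MP_63b90e_lc.stabB
  have h1 : PTime (fun x => (a x).1.length) := PTime.length (PTime.fst.comp ha)
  refine PTime.and (PTime.permB h1 hM) (PTime.all (p := fun x m =>
    (List.range (a x).1.length).all fun w => MP_63b90e_lc.okB (a x) (M x) m w)
    (PTime.range h1) ?_)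
  refine PTime.all (p := fun (y : α × ℕ) w => MP_63b90e_lc.okB (a y.1) (M y.1) y.2 w)
    (PTime.range (h1.comp PTime.fst)) ?_
  exact PTime.okB (ha.comp (PTime.fst.comp PTime.fst)) (hM.comp (PTime.fst.comp PTime.fst))
    (PTime.snd.comp PTime.fst) PTime.snd

end

end Pool.Agent.Work.MP_63b90e_lc
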