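import Mathlib

/-!
Directed graphs and the number of their closed sets of vertices.
-/

set_option autoImplicit false

namespace Pool.Agent.Work.MP_63b90e_lc

open Finset

/-- A directed graph with vertices `0, ..., n - 1`; the pair `(p, q)` means that `q` requires
`p`. -/
abbrev CG : Type := ℕ × List (ℕ × ℕ)

/-- Closed sets of vertices. -/
def Closed (E : List (ℕ × ℕ)) (D : Finset ℕ) : Prop := ∀ e ∈ E, e.2 ∈ D → e.1 ∈ D

instance (E : List (ℕ × ℕ)) (D : Finset ℕ) : Decidable (Closed E D) :=
  inferInstanceAs (Decidable (∀ e ∈ E, e.2 ∈ D → e.1 ∈ D))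

/-- The closed sets. -/
def closedSets (G : CG) : Finset (Finset ℕ) := (range G.1).powerset.filter (Closed G.2)

/-- The number of closed sets. -/
def cnt (G : CG) : ℕ := (closedSets G).card

/-- Edges are increasing and join vertices. -/
def Good (G : CG) : Prop := ∀ e ∈ G.2, e.1 < e.2 ∧ e.2 < G.1

theorem mem_closedSets {G : CG} {D : Finset ℕ} :
    D ∈ closedSets G ↔ (∀ v ∈ D, v < G.1) ∧ Closed G.2 D := by
  simp only [closedSets, mem_filter, mem_powerset]
  refine and_congr_left fun _ => ?_
  constructor
  · intro h v hv; exact mem_range.1 (h hv)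
  · intro h v hv; exact mem_range.2 (h v hv)

theorem empty_mem_closedSets (G : CG) : ∅ ∈ closedSets G :=
  mem_closedSets.2 ⟨by simp, by intro e _ h; simp at h⟩

theorem cnt_pos (G : CG) : 0 < cnt G := card_pos.2 ⟨_, empty_mem_closedSets G⟩

/-- Translation of edges. -/
def shiftE (k : ℕ) (E : List (ℕ × ℕ)) : List (ℕ × ℕ) := E.map fun e => (e.1 + k, e.2 + k)

/-- Translation of sets. -/
def shiftS (k : ℕ) (D : Finset ℕ) : Finset ℕ := D.image (· + k)

theorem mem_shiftS {k : ℕ} {D : Finset ℕ} {v : ℕ} : v ∈ shiftS k D ↔ k ≤ v ∧ v - k ∈ D := by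
  simp only [shiftS, mem_image]
  constructor
  · rintro ⟨a, ha, rfl⟩
    exact ⟨by omega, by simpa using ha⟩
  · rintro ⟨h1, h2⟩
    exact ⟨_, h2, by omega⟩

theorem add_mem_shiftS {k : ℕ} {D : Finset ℕ} {v : ℕ} : v + k ∈ shiftS k D ↔ v ∈ D := by
  rw [mem_shiftS]; simp

/-- The part of a set above `k`, translated back. -/
def upS (k : ℕ) (D : Finset ℕ) : Finset ℕ := (D.filter (k ≤ ·)).image (· - k)

theorem mem_upS {k : ℕ} {D : Finset ℕ} {v : ℕ} : v ∈ upS k D ↔ v + k ∈ D := by
  simp only [upS, mem_image, mem_filter]
  constructor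
  · rintro ⟨a, ⟨ha, h2⟩, rfl⟩
    rwa [Nat.sub_add_cancel h2]
  · intro h
    exact ⟨_, ⟨h, by omega⟩, by omega⟩

/-! ### Disjoint unions -/

/-- Disjoint union. -/
def unionG (G H : CG) : CG := (G.1 + H.1, G.2 ++ shiftE G.1 H.2)

theorem good_union {G H : CG} (hG : Good G) (hH : Good H) : Good (unionG G H) := by
  intro e he
  simp only [unionG, shiftE, List.mem_append, List.mem_map] at he ⊢
  rcases he with he | ⟨f, hf, rfl⟩
  · have := hG e he; omega
  · have := hH f hf; simp only; omega

theorem cnt_union {G H : CG} (hG : Good G) : cnt (unionG G H) = cnt G * cnt H := by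
  rw [cnt, cnt, cnt, ← card_product]
  refine card_nbij' (fun D => (D.filter (· < G.1), upS G.1 D)) (fun x => x.1 ∪ shiftS G.1 x.2)
    ?_ ?_ ?_ ?_
  · intro D hD
    simp only [mem_coe, mem_product, mem_closedSets] at hD ⊢
    obtain ⟨h1, h2⟩ := hD
    refine ⟨⟨?_, ?_⟩, ?_, ?_⟩
    · intro v hv; exact (mem_filter.1 hv).2
    · intro e he hv
      rw [mem_filter] at hv ⊢
      refine ⟨h2 e ?_ hv.1, by have := hG e he; omega⟩
      simp [unionG, he]
    · intro v hv
      have := h1 _ (mem_upS.1 hv)
      simp only [unionG] at this; omega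
    · intro e he hv
      rw [mem_upS] at hv ⊢
      refine h2 (e.1 + G.1, e.2 + G.1) ?_ hv
      simp only [unionG, shiftE, List.mem_append, List.mem_map]
      exact Or.inr ⟨e, he, rfl⟩
  · rintro ⟨A, B⟩ hAB
    simp only [mem_coe, mem_product, mem_closedSets] at hAB ⊢
    obtain ⟨⟨h1, h2⟩, h3, h4⟩ := hAB
    refine ⟨?_, ?_⟩
    · intro v hv
      simp only [unionG]
      rcases mem_union.1 hv with hv | hv
      · have := h1 v hv; omega
      · rw [mem_shiftS] at hv
        have := h3 _ hv.2; omega
    · intro e he hv
      simp only [unionG, shiftE, List.mem_append, List.mem_map] at he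
      rcases he with he | ⟨f, hf, rfl⟩
      · rcases mem_union.1 hv with hv | hv
        · exact mem_union_left _ (h2 e he hv)
        · rw [mem_shiftS] at hv
          have := hG e he; omega
      · rcases mem_union.1 hv with hv | hv
        · have := h1 _ hv; simp only at this; omega
        · rw [add_mem_shiftS] at hv
          exact mem_union_right _ (add_mem_shiftS.2 (h4 f hf hv))
  · intro D hD
    ext v
    simp only [mem_union, mem_filter, mem_shiftS, mem_upS]
    constructor
    · rintro (h | ⟨h, h'⟩)
      · exact h.1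
      · rwa [Nat.sub_add_cancel h] at h'
    · intro h
      by_cases hv : v < G.1
      · exact Or.inl ⟨h, hv⟩
      · refine Or.inr ⟨by omega, ?_⟩
        rwa [Nat.sub_add_cancel (by omega)]
  · rintro ⟨A, B⟩ hAB
    simp only [mem_coe, mem_product, mem_closedSets] at hAB
    obtain ⟨⟨h1, h2⟩, h3, h4⟩ := hAB
    refine Prod.ext ?_ ?_
    · ext v
      simp only [mem_filter, mem_union, mem_shiftS]
      constructor
      · rintro ⟨h | h, h'⟩
        · exact h
        · omega
      · intro h; exact ⟨Or.inl h, h1 v h⟩
    · ext v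
      simp only [mem_upS, mem_union, add_mem_shiftS]
      constructor
      · rintro (h | h)
        · have := h1 _ h; omega
        · exact h
      · exact Or.inr

/-! ### Sums -/

/-- `G`, above it a new vertex, above it `H`. -/
def sumG (G H : CG) : CG :=
  (G.1 + 1 + H.1, G.2 ++ ((List.range G.1).map (fun v => (v, G.1)) ++
    ((List.range H.1).map (fun w => (G.1, w + (G.1 + 1))) ++ shiftE (G.1 + 1) H.2)))

theorem mem_sumG {G H : CG} {e : ℕ × ℕ} : e ∈ (sumG G H).2 ↔ e ∈ G.2 ∨
    (∃ v < G.1, e = (v, G.1)) ∨ (∃ w < H.1, e = (G.1, w + (G.1 + 1))) ∨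
    ∃ f ∈ H.2, e = (f.1 + (G.1 + 1), f.2 + (G.1 + 1)) := by
  simp only [sumG, shiftE, List.mem_append, List.mem_map, List.mem_range, eq_comm (a := e)]

theorem good_sum {G H : CG} (hG : Good G) (hH : Good H) : Good (sumG G H) := by
  intro e he
  rw [mem_sumG] at he
  simp only [sumG]
  rcases he with he | ⟨v, hv, rfl⟩ | ⟨w, hw, rfl⟩ | ⟨f, hf, rfl⟩
  · have := hG e he; omega
  · simp only; omega
  · simp only; omega
  · have := hH f hf; simp only; omega

theorem closedSets_sum {G H : CG} (hG : Good G) : closedSets (sumG G H) =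
    closedSets G ∪ (closedSets H).image (fun B => range (G.1 + 1) ∪ shiftS (G.1 + 1) B) := by
  ext D
  simp only [mem_union, mem_image]
  constructor
  · intro hD
    rw [mem_closedSets] at hD
    obtain ⟨h1, h2⟩ := hD
    by_cases hs : G.1 ∈ D
    · right
      have hlow : ∀ v < G.1 + 1, v ∈ D := by
        intro v hv
        rcases Nat.lt_succ_iff_lt_or_eq.1 hv with h | h
        · exact h2 (v, G.1) (mem_sumG.2 (Or.inr (Or.inl ⟨v, h, rfl⟩))) hs
        · rw [h]; exact hs
      refine ⟨upS (G.1 + 1) D, mem_closedSets.2 ⟨?_, ?_⟩, ?_⟩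
      · intro v hv
        have := h1 _ (mem_upS.1 hv)
        simp only [sumG] at this; omega
      · intro e he hv
        rw [mem_upS] at hv ⊢
        exact h2 (e.1 + (G.1 + 1), e.2 + (G.1 + 1))
          (mem_sumG.2 (Or.inr (Or.inr (Or.inr ⟨e, he, rfl⟩)))) hv
      · ext v
        simp only [mem_union, mem_range, mem_shiftS, mem_upS]
        constructor
        · rintro (h | ⟨h, h'⟩)
          · exact hlow v h
          · rwa [Nat.sub_add_cancel h] at h'
        · intro h
          by_cases hv : v < G.1 + 1
          · exact Or.inl hv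
          · refine Or.inr ⟨by omega, ?_⟩
            rwa [Nat.sub_add_cancel (by omega)]
    · left
      have hup : ∀ v ∈ D, v < G.1 := by
        intro v hv
        have h3 := h1 v hv
        simp only [sumG] at h3
        by_contra hlt
        rcases Nat.lt_or_ge v (G.1 + 1) with h | h
        · have : v = G.1 := by omega
          rw [this] at hv; exact hs hv
        · refine hs (h2 (G.1, (v - (G.1 + 1)) + (G.1 + 1)) (mem_sumG.2 (Or.inr (Or.inr (Or.inl
            ⟨v - (G.1 + 1), by omega, rfl⟩)))) ?_)
          simp only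
          rwa [Nat.sub_add_cancel h]
      refine mem_closedSets.2 ⟨hup, ?_⟩
      intro e he hv
      exact h2 e (mem_sumG.2 (Or.inl he)) hv
  · rintro (hD | ⟨B, hB, rfl⟩)
    · rw [mem_closedSets] at hD ⊢
      obtain ⟨h1, h2⟩ := hD
      refine ⟨?_, ?_⟩
      · intro v hv
        have := h1 v hv
        simp only [sumG]; omega
      · intro e he hv
        rw [mem_sumG] at he
        rcases he with he | ⟨v, hv', rfl⟩ | ⟨w, hw, rfl⟩ | ⟨f, hf, rfl⟩
        · exact h2 e he hv
        · have := h1 _ hv; simp only at this; omega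
        · have := h1 _ hv; simp only at this; omega
        · have := h1 _ hv; simp only at this; omega
    · rw [mem_closedSets] at hB ⊢
      obtain ⟨h1, h2⟩ := hB
      refine ⟨?_, ?_⟩
      · intro v hv
        simp only [sumG]
        rcases mem_union.1 hv with hv | hv
        · rw [mem_range] at hv; omega
        · rw [mem_shiftS] at hv
          have := h1 _ hv.2; omega
      · intro e he hv
        rw [mem_sumG] at he
        rcases he with he | ⟨v, hv', rfl⟩ | ⟨w, hw, rfl⟩ | ⟨f, hf, rfl⟩
        · have := hG e he
          exact mem_union_left _ (mem_range.2 (by omega))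
        · exact mem_union_left _ (mem_range.2 (by simp only; omega))
        · exact mem_union_left _ (mem_range.2 (by simp only; omega))
        · rcases mem_union.1 hv with hv | hv
          · rw [mem_range] at hv; simp only at hv; omega
          · rw [add_mem_shiftS] at hv
            exact mem_union_right _ (add_mem_shiftS.2 (h2 f hf hv))

theorem cnt_sum {G H : CG} (hG : Good G) : cnt (sumG G H) = cnt G + cnt H := by
  rw [cnt, closedSets_sum hG, card_union_of_disjoint, card_image_of_injOn]
  · rfl
  · intro A hA B hB hAB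
    have hA := (mem_closedSets.1 hA)
    simp only at hAB
    ext v
    have h1 : v + (G.1 + 1) ∈ range (G.1 + 1) ∪ shiftS (G.1 + 1) A ↔
        v + (G.1 + 1) ∈ range (G.1 + 1) ∪ shiftS (G.1 + 1) B := by rw [hAB]
    simpa only [mem_union, mem_range, add_mem_shiftS, show ¬ (v + (G.1 + 1) < G.1 + 1) by omega,
      false_or] using h1
  · rw [disjoint_left]
    intro D hD hD'
    obtain ⟨B, -, rfl⟩ := mem_image.1 hD'
    have := (mem_closedSets.1 hD).1 G.1 (mem_union_left _ (mem_range.2 (by omega)))
    omega

/-! ### Sums of lists -/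

/-- The sum of a list of graphs. -/
def sumL (Gs : List CG) : CG :=
  ((Gs.map fun G => G.1 + 1).sum,
    Gs.zipIdx.flatMap fun Gi =>
      (List.range (((Gs.take Gi.2).map fun G => G.1 + 1).sum)).map
        (fun v => (v, ((Gs.take Gi.2).map fun G => G.1 + 1).sum)) ++
      ((List.range Gi.1.1).map (fun w => (((Gs.take Gi.2).map fun G => G.1 + 1).sum,
        w + (((Gs.take Gi.2).map fun G => G.1 + 1).sum + 1))) ++
      shiftE (((Gs.take Gi.2).map fun G => G.1 + 1).sum + 1) Gi.1.2))

theorem sumL_append (Gs : List CG) (G : CG) : sumL (Gs ++ [G]) = sumG (sumL Gs) G := by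
  refine Prod.ext ?_ ?_
  · simp [sumL, sumG]; omega
  · simp only [sumL, sumG]
    rw [List.zipIdx_append, List.flatMap_append]
    congr 1
    · refine List.flatMap_congr ?_
      rintro ⟨H, i⟩ hi
      have hlt : i < Gs.length := by
        rw [List.mem_zipIdx_iff_getElem?] at hi
        exact (List.getElem?_eq_some_iff.1 hi).1
      have : (Gs ++ [G]).take i = Gs.take i := by
        rw [List.take_append_of_le_length (by omega)]
      simp only [this]
    · simp [List.zipIdx]

theorem good_sumL (Gs : List CG) (h : ∀ G ∈ Gs, Good G) : Good (sumL Gs) := by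
  induction Gs using List.reverseRecOn with
  | nil => intro e he; simp [sumL] at he
  | append_singleton Gs G ih =>
    rw [sumL_append]
    exact good_sum (ih fun H hH => h H (by simp [hH])) (h G (by simp))

theorem cnt_sumL (Gs : List CG) (h : ∀ G ∈ Gs, Good G) :
    cnt (sumL Gs) = 1 + (Gs.map cnt).sum := by
  induction Gs using List.reverseRecOn with
  | nil => simp [sumL, cnt, closedSets, Closed]
  | append_singleton Gs G ih =>
    rw [sumL_append, cnt_sum (good_sumL Gs fun H hH => h H (by simp [hH])),
      ih fun H hH => h H (by simp [hH])]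
    simp [add_assoc]

/-! ### Two levels -/

/-- Vertices `0, ..., α - 1`, and one vertex for each set of the list, which requires its
elements. -/
def twoG (α : ℕ) (L : List (List ℕ)) : CG :=
  (α + L.length, L.zipIdx.flatMap fun s => s.1.map fun a => (a, α + s.2))

theorem mem_twoG {α : ℕ} {L : List (List ℕ)} {e : ℕ × ℕ} : e ∈ (twoG α L).2 ↔
    ∃ S i, L[i]? = some S ∧ ∃ a ∈ S, e = (a, α + i) := by
  simp only [twoG, List.mem_flatMap, List.mem_map, Prod.exists, List.mem_zipIdx_iff_getElem?,
    eq_comm (a := e)]

theorem good_two {α : ℕ} {L : List (List ℕ)} (h : ∀ S ∈ L, ∀ a ∈ S, a < α) :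
    Good (twoG α L) := by
  intro e he
  obtain ⟨S, i, h1, a, ha, rfl⟩ := mem_twoG.1 he
  have h2 := h S (List.mem_of_getElem? h1) a ha
  have h3 := (List.getElem?_eq_some_iff.1 h1).1
  simp only [twoG]; omega

/-- The sets of the list contained in `T`. -/
def hits (L : List (List ℕ)) (T : Finset ℕ) : ℕ := L.countP fun S => decide (∀ a ∈ S, a ∈ T)

theorem hits_eq_card (L : List (List ℕ)) (T : Finset ℕ) : hits L T =
    ((range L.length).filter fun i => ∀ a ∈ L.getD i [], a ∈ T).card := by
  induction L using List.reverseRecOn with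
  | nil => simp [hits]
  | append_singleton L S ih =>
    rw [hits, List.countP_append, ← hits, ih, List.length_append, List.length_singleton,
      range_add_one, filter_insert]
    have h1 : ((range L.length).filter fun i => ∀ a ∈ (L ++ [S]).getD i [], a ∈ T) =
        ((range L.length).filter fun i => ∀ a ∈ L.getD i [], a ∈ T) := by
      refine filter_congr fun i hi => ?_
      rw [mem_range] at hi
      have : (L ++ [S]).getD i [] = L.getD i [] := by
        rw [List.getD_eq_getElem?_getD, List.getD_eq_getElem?_getD, List.getElem?_append_left hi]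
      rw [this]
    have h2 : (L ++ [S]).getD L.length [] = S := by
      rw [List.getD_eq_getElem?_getD]; simp
    rw [h1, h2]
    by_cases hS : ∀ a ∈ S, a ∈ T
    · rw [if_pos hS, card_insert_of_notMem]
      · simp [hS]
        exact hS
      · simp
    · rw [if_neg hS]
      simp [hS]

theorem cnt_two {α : ℕ} {L : List (List ℕ)} (h : ∀ S ∈ L, ∀ a ∈ S, a < α) :
    cnt (twoG α L) = ∑ T ∈ (range α).powerset, 2 ^ hits L T := by
  rw [cnt, card_eq_sum_card_fiberwise (f := fun D => D.filter (· < α))
    (t := (range α).powerset)]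
  · refine sum_congr rfl fun T hT => ?_
    rw [hits_eq_card, ← card_powerset]
    symm
    rw [mem_powerset] at hT
    refine card_nbij' (fun I => T ∪ shiftS α I) (fun D => upS α D) ?_ ?_ ?_ ?_
    · intro I hI
      simp only [mem_coe, mem_powerset] at hI
      simp only [mem_coe, mem_filter, mem_closedSets]
      refine ⟨⟨?_, ?_⟩, ?_⟩
      · intro v hv
        simp only [twoG]
        rcases mem_union.1 hv with hv | hv
        · have := mem_range.1 (hT hv); omega
        · rw [mem_shiftS] at hv
          have := mem_range.1 (mem_filter.1 (hI hv.2)).1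
          omega
      · intro e he hv
        obtain ⟨S, i, h1, a, ha, rfl⟩ := mem_twoG.1 he
        simp only at hv ⊢
        rcases mem_union.1 hv with hv | hv
        · have := mem_range.1 (hT hv); omega
        · rw [add_comm, add_mem_shiftS] at hv
          have := (mem_filter.1 (hI hv)).2
          rw [List.getD_eq_getElem?_getD, h1] at this
          exact mem_union_left _ (this a ha)
      · ext v
        simp only [mem_filter, mem_union, mem_shiftS]
        constructor
        · rintro ⟨h1 | h1, h2⟩
          · exact h1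
          · omega
        · intro hv
          exact ⟨Or.inl hv, mem_range.1 (hT hv)⟩
    · intro D hD
      simp only [mem_coe, mem_filter, mem_closedSets] at hD
      obtain ⟨⟨h1, h2⟩, h3⟩ := hD
      simp only [mem_coe, mem_powerset]
      intro i hi
      rw [mem_upS] at hi
      have hlt := h1 _ hi
      simp only [twoG] at hlt
      have hlt' : i < L.length := by omega
      rw [mem_filter, mem_range]
      refine ⟨hlt', ?_⟩
      intro a ha
      rw [List.getD_eq_getElem?_getD, List.getElem?_eq_getElem hlt'] at ha
      have h4 := h2 (a, α + i) (mem_twoG.2 ⟨L[i], i, List.getElem?_eq_getElem hlt', a, ha, rfl⟩)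
        (by simp only; rwa [add_comm])
      have h5 : a ∈ D.filter (· < α) := by
        rw [mem_filter]
        exact ⟨h4, h _ (List.getElem_mem hlt') a ha⟩
      rwa [h3] at h5
    · intro I hI
      simp only [mem_coe, mem_powerset] at hI
      ext i
      simp only [mem_upS, mem_union, add_mem_shiftS]
      constructor
      · rintro (h1 | h1)
        · have := mem_range.1 (hT h1); omega
        · exact h1
      · exact Or.inr
    · intro D hD
      simp only [mem_coe, mem_filter] at hD
      obtain ⟨hD, h3⟩ := hD
      ext v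
      simp only [mem_union, mem_shiftS, mem_upS]
      constructor
      · rintro (h1 | ⟨h1, h2⟩)
        · rw [← h3, mem_filter] at h1; exact h1.1
        · rwa [Nat.sub_add_cancel h1] at h2
      · intro hv
        by_cases hlt : v < α
        · left; rw [← h3, mem_filter]; exact ⟨hv, hlt⟩
        · right
          refine ⟨by omega, ?_⟩
          rwa [Nat.sub_add_cancel (by omega)]
  · intro D _
    simp only [mem_coe, mem_powerset]
    intro v hv
    exact mem_range.2 (mem_filter.1 hv).2

end Pool.Agent.Work.MP_63b90e_lc
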