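import Pool.Agent.Work.MP_63b90e_lc.Count
import Pool.Agent.Work.MP_63b90e_lc.Coef

/-!
Two graphs whose numbers of closed sets compare the number of satisfying assignments with a power
of two.
-/

set_option autoImplicit false
set_option linter.unusedSimpArgs false

namespace Pool.Agent.Work.MP_63b90e_lc

open Finset
open Pool.Agent.Work.PolyTime

/-! ### Blocks -/

/-- Graphs for the digits of a number. -/
def digits (a : List Bool) (f : ℕ → CG) : List CG :=
  a.zipIdx.flatMap fun bi => bif bi.1 then [f bi.2] else []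

theorem sum_digits (a : List Bool) (f : ℕ → CG) (X : ℕ) (hf : ∀ i, cnt (f i) = 2 ^ i * X) :
    ((digits a f).map cnt).sum = valL a * X := by
  have key : ∀ (a : List Bool) (k : ℕ), (((a.zipIdx k).flatMap fun bi =>
      bif bi.1 then [f bi.2] else []).map cnt).sum = 2 ^ k * valL a * X := by
    intro a
    induction a with
    | nil => intro k; simp [valL]
    | cons b a ih =>
      intro k
      rw [List.zipIdx_cons, List.flatMap_cons, List.map_append, List.sum_append, ih]
      cases b
      · simp only [cond_false, List.map_nil, List.sum_nil, valL, pow_succ,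
          Bool.false_eq_true, if_false]
        ring
      · simp only [cond_true, List.map_cons, List.map_nil, List.sum_cons, List.sum_nil, valL,
          pow_succ, hf, if_true]
        ring
  rw [digits, key a 0]; simp

theorem mem_digits {a : List Bool} {f : ℕ → CG} {G : CG} (h : G ∈ digits a f) :
    ∃ i, G = f i := by
  simp only [digits, List.mem_flatMap] at h
  obtain ⟨⟨b, i⟩, -, h⟩ := h
  cases b
  · simp at h
  · simp at h; exact ⟨i, h⟩

/-- The block graph. -/
def blk (α : ℕ) (Γ : List (List ℕ)) (t i : ℕ) : CG :=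
  twoG α (List.replicate i [] ++ Γ.flatMap fun S => List.replicate t S)

theorem hits_replicate (t : ℕ) (S : List ℕ) (T : Finset ℕ) :
    hits (List.replicate t S) T = if ∀ a ∈ S, a ∈ T then t else 0 := by
  simp [hits, List.countP_replicate]

theorem hits_flatMap (Γ : List (List ℕ)) (t : ℕ) (T : Finset ℕ) :
    hits (Γ.flatMap fun S => List.replicate t S) T = t * hits Γ T := by
  induction Γ with
  | nil => simp [hits]
  | cons S Γ ih =>
    rw [List.flatMap_cons, hits_append, ih, hits_replicate]
    simp only [hits, List.countP_cons]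
    by_cases h : ∀ a ∈ S, a ∈ T
    · rw [if_pos h]
      have : decide (∀ a ∈ S, a ∈ T) = true := by simpa using h
      rw [this]; simp; ring
    · rw [if_neg h]
      have : decide (∀ a ∈ S, a ∈ T) = false := by simpa using h
      rw [this]; simp

theorem good_blk {α : ℕ} {Γ : List (List ℕ)} (h : ∀ S ∈ Γ, ∀ a ∈ S, a < α) (t i : ℕ) :
    Good (blk α Γ t i) := by
  refine good_two ?_
  intro S hS a ha
  simp only [List.mem_append, List.mem_replicate, List.mem_flatMap] at hS
  rcases hS with ⟨-, rfl⟩ | ⟨S', hS', -, rfl⟩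
  · simp at ha
  · exact h _ hS' a ha

theorem cnt_blk {α : ℕ} {Γ : List (List ℕ)} (h : ∀ S ∈ Γ, ∀ a ∈ S, a < α) (t i : ℕ) :
    cnt (blk α Γ t i) = 2 ^ i * ∑ T ∈ (range α).powerset, (2 ^ hits Γ T) ^ t := by
  rw [blk, cnt_two, mul_sum]
  · refine sum_congr rfl fun T _ => ?_
    rw [hits_append, hits_replicate, if_pos (by simp), hits_flatMap, pow_add, ← pow_mul,
      mul_comm t]
  · intro S hS a ha
    simp only [List.mem_append, List.mem_replicate, List.mem_flatMap] at hS
    rcases hS with ⟨-, rfl⟩ | ⟨S', hS', -, rfl⟩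
    · simp at ha
    · exact h _ hS' a ha

/-- The blocks of a polynomial. -/
def blocks (p : List (List Bool)) (α : ℕ) (Γ : List (List ℕ)) : List CG :=
  p.zipIdx.flatMap fun at' => digits at'.1 (blk α Γ at'.2)

theorem sum_blocks {α : ℕ} {Γ : List (List ℕ)} (h : ∀ S ∈ Γ, ∀ a ∈ S, a < α)
    (p : List (List Bool)) :
    ((blocks p α Γ).map cnt).sum = ∑ T ∈ (range α).powerset, evP p (2 ^ hits Γ T) := by
  have key : ∀ (p : List (List Bool)) (k : ℕ), (((p.zipIdx k).flatMap fun at' =>
      digits at'.1 (blk α Γ at'.2)).map cnt).sum =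
      ∑ T ∈ (range α).powerset, (2 ^ hits Γ T) ^ k * evP p (2 ^ hits Γ T) := by
    intro p
    induction p with
    | nil => intro k; simp [evP]
    | cons a p ih =>
      intro k
      rw [List.zipIdx_cons, List.flatMap_cons, List.map_append, List.sum_append, ih,
        sum_digits a _ _ (fun i => cnt_blk h k i), mul_sum, ← sum_add_distrib]
      refine sum_congr rfl fun T _ => ?_
      rw [evP, pow_succ]; ring
  rw [blocks, key p 0]
  refine sum_congr rfl fun T _ => ?_
  simp

theorem cnt_isolated (m : ℕ) : cnt (m, []) = 2 ^ m := by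
  simp [cnt, closedSets, Closed]

/-- The blocks of the value of a polynomial at a power of two, times a power of two. -/
def tblocks (p : List (List Bool)) (j k : ℕ) : List CG :=
  p.zipIdx.flatMap fun at' => digits at'.1 fun i => (j * at'.2 + k + i, [])

theorem sum_tblocks (p : List (List Bool)) (j k : ℕ) :
    ((tblocks p j k).map cnt).sum = 2 ^ k * evP p (2 ^ j) := by
  have key : ∀ (p : List (List Bool)) (m : ℕ), (((p.zipIdx m).flatMap fun at' =>
      digits at'.1 fun i => ((j * at'.2 + k + i, []) : CG)).map cnt).sum =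
      2 ^ k * ((2 ^ j) ^ m * evP p (2 ^ j)) := by
    intro p
    induction p with
    | nil => intro m; simp [evP]
    | cons a p ih =>
      intro m
      rw [List.zipIdx_cons, List.flatMap_cons, List.map_append, List.sum_append, ih,
        sum_digits a _ (2 ^ k * (2 ^ j) ^ m)]
      · rw [evP, pow_succ]; ring
      · intro i
        rw [cnt_isolated, pow_add, pow_add, pow_mul]; ring
  rw [tblocks, key p 0]; simp

theorem good_isolated (m : ℕ) : Good (m, []) := by intro e he; simp at he

/-- The sum of all blocks. -/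
def side (p q : List (List Bool)) (n : ℕ) (C : List NClause) (k : ℕ) : CG :=
  sumL (blocks p (2 * n) (gam n C) ++ tblocks q (wgt n C * n) k)

/-- The roots. -/
def roots (n : ℕ) (C : List NClause) : List ℕ :=
  (List.range ((gam n C).length + 1)).filter fun j => !decide (j = wgt n C * n)

def gQ (n : ℕ) (C : List NClause) (k : ℕ) : CG :=
  side (coefs (roots n C ++ roots n C)).1 (coefs (roots n C ++ roots n C)).2 n C k

def gR (n : ℕ) (C : List NClause) (k : ℕ) : CG :=
  side (coefs (roots n C ++ roots n C)).2 (coefs (roots n C ++ roots n C)).1 n C k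

theorem good_side {p q : List (List Bool)} {n : ℕ} {C : List NClause} {k : ℕ}
    (hC : ∀ c ∈ C, ∀ l ∈ c, l.2 < n) : ∀ G ∈ blocks p (2 * n) (gam n C) ++
      tblocks q (wgt n C * n) k, Good G := by
  intro G hG
  simp only [List.mem_append, blocks, tblocks, List.mem_flatMap] at hG
  rcases hG with ⟨⟨a, t⟩, -, h⟩ | ⟨⟨a, t⟩, -, h⟩
  · obtain ⟨i, rfl⟩ := mem_digits h
    exact good_blk (gam_lt hC) _ _
  · obtain ⟨i, rfl⟩ := mem_digits h
    exact good_isolated _

theorem cnt_side {p q : List (List Bool)} {n : ℕ} {C : List NClause} {k : ℕ}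
    (hC : ∀ c ∈ C, ∀ l ∈ c, l.2 < n) : cnt (side p q n C k) =
      1 + (∑ T ∈ (range (2 * n)).powerset, evP p (2 ^ hits (gam n C) T) +
        2 ^ k * evP q (2 ^ (wgt n C * n))) := by
  rw [side, cnt_sumL _ (good_side hC), List.map_append, List.sum_append,
    sum_blocks (gam_lt hC), sum_tblocks]

/-- The value at the critical point is positive. -/
theorem prod_pos (n : ℕ) (C : List NClause) : 0 < ((roots n C ++ roots n C).map fun j =>
    (((2 ^ (wgt n C * n) : ℕ) : ℤ)) - 2 ^ j).prod := by
  rw [List.map_append, List.prod_append]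
  refine mul_self_pos.2 ?_
  rw [Ne, List.prod_eq_zero_iff]
  intro h
  obtain ⟨j, hj, hj'⟩ := List.mem_map.1 h
  simp only [roots, List.mem_filter, Bool.not_eq_true', decide_eq_false_iff_not] at hj
  apply hj.2
  have h1 : ((2 ^ (wgt n C * n) : ℕ) : ℤ) = ((2 ^ j : ℕ) : ℤ) := by
    push_cast at hj' ⊢; linarith
  exact (Nat.pow_right_injective le_rfl (by exact_mod_cast h1)).symm

theorem prod_zero {n : ℕ} {C : List NClause} {T : Finset ℕ}
    (h : hits (gam n C) T ≠ wgt n C * n) : ((roots n C ++ roots n C).map fun j =>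
    (((2 ^ hits (gam n C) T : ℕ) : ℤ)) - 2 ^ j).prod = 0 := by
  rw [List.map_append, List.prod_append]
  have : ((roots n C).map fun j => (((2 ^ hits (gam n C) T : ℕ) : ℤ)) - 2 ^ j).prod = 0 := by
    rw [List.prod_eq_zero_iff, List.mem_map]
    refine ⟨hits (gam n C) T, ?_, by push_cast; ring⟩
    simp only [roots, List.mem_filter, List.mem_range, Bool.not_eq_true',
      decide_eq_false_iff_not]
    exact ⟨Nat.lt_succ_of_le (hits_le _ _), h⟩
  rw [this, zero_mul]

/-- The comparison of the numbers of closed sets. -/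
theorem compare {n : ℕ} {C : List NClause} (k : ℕ) (hC : ∀ c ∈ C, ∀ l ∈ c, l.2 < n) :
    cnt (gR n C k) < cnt (gQ n C k) ↔ 2 ^ k < satCount n C := by
  set J := roots n C ++ roots n C with hJ
  set A : ℤ := (J.map fun j => (((2 ^ (wgt n C * n) : ℕ) : ℤ)) - 2 ^ j).prod with hA
  have hApos : 0 < A := prod_pos n C
  have hdiff : (cnt (gQ n C k) : ℤ) - cnt (gR n C k) = ((satCount n C : ℤ) - 2 ^ k) * A := by
    rw [gQ, gR, cnt_side hC, cnt_side hC]
    have h1 : ∀ T ∈ (range (2 * n)).powerset,
        (evP (coefs J).1 (2 ^ hits (gam n C) T) : ℤ) - evP (coefs J).2 (2 ^ hits (gam n C) T) =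
          if hits (gam n C) T = wgt n C * n then A else 0 := by
      intro T _
      rw [coefs_ev]
      split_ifs with h
      · rw [h]
      · exact prod_zero h
    have h2 := coefs_ev J (2 ^ (wgt n C * n))
    rw [← hA] at h2
    push_cast at h1 h2 ⊢
    have h3 : (∑ T ∈ (range (2 * n)).powerset, (evP (coefs J).1 (2 ^ hits (gam n C) T) : ℤ)) -
        ∑ T ∈ (range (2 * n)).powerset, (evP (coefs J).2 (2 ^ hits (gam n C) T) : ℤ) =
        satCount n C * A := by
      rw [← sum_sub_distrib, sum_congr rfl h1, sum_ite, sum_const_zero, add_zero, sum_const,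
        card_crit hC, nsmul_eq_mul]
    linear_combination h3 - 2 ^ k * h2
  constructor
  · intro h
    have h1 : 0 < ((satCount n C : ℤ) - 2 ^ k) * A := by
      rw [← hdiff]; have : (cnt (gR n C k) : ℤ) < cnt (gQ n C k) := by exact_mod_cast h
      linarith
    have h2 := (pos_iff_pos_of_mul_pos h1).2 hApos
    have h3 : ((2 ^ k : ℕ) : ℤ) < satCount n C := by push_cast; linarith
    exact_mod_cast h3
  · intro h
    have h1 : ((2 ^ k : ℕ) : ℤ) < satCount n C := by exact_mod_cast h
    have h2 : 0 < ((satCount n C : ℤ) - 2 ^ k) * A := mul_pos (by push_cast at h1; linarith) hApos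
    rw [← hdiff] at h2
    have : (cnt (gR n C k) : ℤ) < cnt (gQ n C k) := by linarith
    exact_mod_cast this

end Pool.Agent.Work.MP_63b90e_lc
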