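import Pool.Agent.Work.MP_63b90e_lc.Stable

/-!
Every stable matching comes from a closed set.
-/

set_option autoImplicit false
set_option linter.unusedSimpArgs false

namespace Pool.Agent.Work.MP_63b90e_lc

open Finset

section

variable {E : List (ℕ × ℕ)}

/-- The incidence was moved. -/
def Mv (M : List ℕ) (x : ℕ × Bool) : Prop := M.getD (ix x) 0 ≠ ix x

theorem swA_or {m i : ℕ} : m ∈ swA i ↔ m = 3 * i + 1 ∨ m = 3 * i := by simp [swA]

theorem swX_or {m : ℕ} {x : ℕ × Bool} : m ∈ swX E x ↔ m = ix x ∨ m = 3 * (pv E x).1 ∨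
    ((pv E x).2 = false ∧ m = 3 * (pv E x).1 + 2) := by
  unfold swX
  cases (pv E x).2
  · simp; tauto
  · simp; tauto

/-- The facts about a stable matching. -/
theorem stable_facts (hE : Incr E) {M : List ℕ} (hM : (mkSM E).Stable M) :
    (∀ i < E.length, (M.idxOf (3 * i) = 3 * i + 1 ∨ M.idxOf (3 * i) = 3 * i)) ∧
    (∀ x : ℕ × Bool, x.1 < E.length → M.idxOf (ix x) ∈ swX E x) ∧
    (∀ i < E.length, ¬ (M.getD (3 * i) 0 = ix (nx E (i, true)) ∧
      M.idxOf (ix (nx E (i, false))) = ix (nx E (i, false)))) := by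
  obtain ⟨hperm, hst⟩ := hM
  rw [size_mkSM] at hperm
  obtain ⟨hf, hg⟩ := perm_facts hperm
  refine ⟨?_, ?_, ?_⟩
  · intro i hi
    rw [← swA_or]
    by_contra hcon
    apply hst (3 * i) (3 * i)
    refine ⟨by rw [size_mkSM]; omega, by rw [size_mkSM]; omega, ?_, ?_, ?_⟩
    · intro h
      have := (hf (3 * i) (by omega)).2
      rw [h] at this
      rw [this] at hcon
      simp [swA] at hcon
    · have h1 : M.getD (3 * i) 0 ≠ 3 * i := by
        intro h
        have := (hf (3 * i) (by omega)).2
        rw [h] at this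
        rw [this] at hcon
        simp [swA] at hcon
      unfold Before
      rw [(men_get hi).1]
      have h2 : (full (3 * E.length) (smA E i)).idxOf (3 * i) = 0 := by simp [full, smA]
      have h3 : (full (3 * E.length) (smA E i)).idxOf (M.getD (3 * i) 0) ≠ 0 := by
        simp only [full, smA, List.cons_append]
        rw [List.idxOf_cons_ne _ (fun h => h1 h.symm)]
        omega
      omega
    · unfold Before
      rw [women_get hi]
      exact full_lt (by simp [swA]) hcon
  · intro x hx
    by_contra hcon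
    have hlt := ix_lt hx
    have h1 : M.getD (ix x) 0 ≠ ix x := by
      intro h
      have := (hf (ix x) hlt).2
      rw [h] at this
      rw [this] at hcon
      exact hcon (ix_mem_swX x)
    apply hst (ix x) (ix x)
    refine ⟨by rw [size_mkSM]; omega, by rw [size_mkSM]; omega, h1, ?_, ?_⟩
    · unfold Before
      obtain ⟨i, b⟩ := x
      have hi : i < E.length := hx
      cases b
      · rw [ix_false] at h1 ⊢
        rw [(men_get hi).2.1]
        have h2 : (full (3 * E.length) (smB i)).idxOf (3 * i + 1) = 0 := by simp [full, smB]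
        have h3 : (full (3 * E.length) (smB i)).idxOf (M.getD (3 * i + 1) 0) ≠ 0 := by
          simp only [full, smB, List.cons_append]
          rw [List.idxOf_cons_ne _ (fun h => h1 h.symm)]
          omega
        omega
      · rw [ix_true] at h1 ⊢
        rw [(men_get hi).2.2]
        have h2 : (full (3 * E.length) (smC E i)).idxOf (3 * i + 2) = 0 := by simp [full, smC]
        have h3 : (full (3 * E.length) (smC E i)).idxOf (M.getD (3 * i + 2) 0) ≠ 0 := by
          simp only [full, smC, List.cons_append]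
          rw [List.idxOf_cons_ne _ (fun h => h1 h.symm)]
          omega
        omega
    · unfold Before
      rw [women_ix hx]
      exact full_lt (ix_mem_swX x) hcon
  · rintro i hi ⟨h1, h2⟩
    have hx := (nx_mem (E := E) (x := (i, false)) hi)
    have hne := nx_ne hE hi
    have h5 : ix (nx E (i, false)) ≠ ix (nx E (i, true)) := fun h => hne (ix_inj h)
    apply hst (3 * i) (ix (nx E (i, false)))
    refine ⟨by rw [size_mkSM]; omega, by rw [size_mkSM]; exact ix_lt hx.1, ?_, ?_, ?_⟩
    · rw [h1]; exact h5.symm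
    · unfold Before
      rw [(men_get hi).1, h1, full_idx_mem (by simp [smA]), full_idx_mem (by simp [smA])]
      simp only [smA]
      rw [List.idxOf_cons_ne _ (ix_ne _ _).symm, List.idxOf_cons_self,
        List.idxOf_cons_ne _ (ix_ne _ _).symm, List.idxOf_cons_ne _ h5, List.idxOf_cons_self]
      omega
    · unfold Before
      rw [women_ix hx.1, h2]
      have hs : swX E (nx E (i, false)) = [3 * i + 2, 3 * i, ix (nx E (i, false))] := by
        simp [swX, pv_nx (x := (i, false)) hi]
      have h6 : 3 * i + 2 ≠ ix (nx E (i, false)) := by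
        rw [← ix_true]; intro h; exact nx_ne' hE hi (ix_inj h).symm
      rw [hs, full_idx_mem (by simp), full_idx_mem (by simp), List.idxOf_cons_ne _ (by omega),
        List.idxOf_cons_self, List.idxOf_cons_ne _ h6, List.idxOf_cons_ne _ (ix_ne _ _).symm,
        List.idxOf_cons_self]
      omega

/-- The partners of the men. -/
theorem stable_men (hE : Incr E) {M : List ℕ} (hM : (mkSM E).Stable M) {i : ℕ}
    (hi : i < E.length) :
    (M.getD (3 * i) 0 = 3 * i ∨ M.getD (3 * i) 0 = ix (nx E (i, false)) ∨
      M.getD (3 * i) 0 = ix (nx E (i, true))) ∧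
    (M.getD (3 * i + 1) 0 = 3 * i + 1 ∨ M.getD (3 * i + 1) 0 = 3 * i) ∧
    (M.getD (3 * i + 2) 0 = 3 * i + 2 ∨ M.getD (3 * i + 2) 0 = ix (nx E (i, false))) := by
  obtain ⟨h1, h2, -⟩ := stable_facts hE hM
  have hperm := hM.1
  rw [size_mkSM] at hperm
  obtain ⟨hf, hg⟩ := perm_facts hperm
  refine ⟨?_, ?_, ?_⟩
  · obtain ⟨h3, h4⟩ := hf (3 * i) (by omega)
    rcases exists_ix (M.getD (3 * i) 0) with ⟨j, hj⟩ | ⟨x, hx⟩
    · rw [hj] at h3 h4 ⊢
      have := h1 j (by omega)
      rw [h4] at this
      left; omega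
    · rw [hx] at h3 h4 ⊢
      have hxl := ix_lt' h3
      have := h2 x hxl
      rw [h4, swX_or] at this
      have h5 := nx_pv (E := E) hxl
      rcases this with h6 | h6 | h6
      · exact absurd h6.symm (ix_ne _ _)
      · right
        cases hp : pv E x with
        | mk k c =>
          rw [hp] at h5 h6
          simp only at h6
          have : k = i := by omega
          subst this
          cases c
          · left; rw [h5]
          · right; rw [h5]
      · omega
  · obtain ⟨h3, h4⟩ := hf (3 * i + 1) (by omega)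
    rcases exists_ix (M.getD (3 * i + 1) 0) with ⟨j, hj⟩ | ⟨x, hx⟩
    · rw [hj] at h3 h4 ⊢
      have := h1 j (by omega)
      rw [h4] at this
      right; omega
    · rw [hx] at h3 h4 ⊢
      have hxl := ix_lt' h3
      have := h2 x hxl
      rw [h4, swX_or] at this
      rcases this with h6 | h6 | h6
      · left; exact h6.symm
      · omega
      · omega
  · obtain ⟨h3, h4⟩ := hf (3 * i + 2) (by omega)
    rcases exists_ix (M.getD (3 * i + 2) 0) with ⟨j, hj⟩ | ⟨x, hx⟩
    · rw [hj] at h3 h4 ⊢
      have := h1 j (by omega)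
      rw [h4] at this
      omega
    · rw [hx] at h3 h4 ⊢
      have hxl := ix_lt' h3
      have := h2 x hxl
      rw [h4, swX_or] at this
      have h5 := nx_pv (E := E) hxl
      rcases this with h6 | h6 | h6
      · left; exact h6.symm
      · omega
      · right
        cases hp : pv E x with
        | mk k c =>
          rw [hp] at h5 h6
          simp only at h6
          have : k = i := by omega
          subst this
          rw [h6.1] at h5
          rw [h5]

/-- The possible situations at an edge. -/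
theorem stable_cases (hE : Incr E) {M : List ℕ} (hM : (mkSM E).Stable M) {i : ℕ}
    (hi : i < E.length) :
    (M.getD (3 * i) 0 = 3 * i ∧ ¬ Mv M (i, false) ∧ ¬ Mv M (nx E (i, true)) ∧
      (Mv M (nx E (i, false)) ↔ Mv M (i, true))) ∨
    (M.getD (3 * i) 0 = ix (nx E (i, false)) ∧ Mv M (i, false) ∧ Mv M (nx E (i, false)) ∧
      ¬ Mv M (i, true) ∧ ¬ Mv M (nx E (i, true))) ∨
    (M.getD (3 * i) 0 = ix (nx E (i, true)) ∧ Mv M (i, false) ∧ Mv M (nx E (i, false)) ∧
      Mv M (i, true) ∧ Mv M (nx E (i, true))) := by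
  obtain ⟨h1, h2, h3⟩ := stable_facts hE hM
  obtain ⟨hA, hB, hC⟩ := stable_men hE hM hi
  have hperm := hM.1
  rw [size_mkSM] at hperm
  obtain ⟨hf, hg⟩ := perm_facts hperm
  have hx0 := (nx_mem (E := E) (x := (i, false)) hi)
  have hx1 := (nx_mem (E := E) (x := (i, true)) hi)
  have hne := nx_ne hE hi
  have hne1 : ix (nx E (i, false)) ≠ ix (nx E (i, true)) := fun h => hne (ix_inj h)
  have hne2 : 3 * i + 2 ≠ ix (nx E (i, false)) := by
    rw [← ix_true]; intro h; exact nx_ne' hE hi (ix_inj h).symm
  -- equivalences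
  have fg : ∀ m w, m < 3 * E.length → w < 3 * E.length → (M.getD m 0 = w ↔ M.idxOf w = m) := by
    intro m w hm hw
    constructor
    · rintro rfl; exact (hf m hm).2
    · rintro rfl; exact (hg w hw).2
  have l0 : 3 * i < 3 * E.length := by omega
  have l1 : 3 * i + 1 < 3 * E.length := by omega
  have l2 : 3 * i + 2 < 3 * E.length := by omega
  have ln0 := ix_lt hx0.1
  have ln1 := ix_lt hx1.1
  have F1 : Mv M (i, false) ↔ M.getD (3 * i) 0 ≠ 3 * i := by
    unfold Mv
    rw [ix_false]
    constructor
    · intro h h'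
      have h4 : M.getD (3 * i + 1) 0 = 3 * i := hB.resolve_left h
      rw [fg _ _ l1 l0] at h4
      rw [fg _ _ l0 l0] at h'
      omega
    · intro h h'
      rw [Ne, fg _ _ l0 l0] at h
      have h4 : M.idxOf (3 * i) = 3 * i + 1 := (h1 i hi).resolve_right h
      rw [← fg _ _ l1 l0] at h4
      omega
  have F2 : Mv M (nx E (i, true)) ↔ M.getD (3 * i) 0 = ix (nx E (i, true)) := by
    have h4 := h2 _ hx1.1
    rw [swX_or, pv_nx (x := (i, true)) hi] at h4
    simp only [Bool.true_eq_false, false_and, or_false] at h4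
    unfold Mv
    rw [fg _ _ l0 ln1, Ne, fg _ _ ln1 ln1]
    constructor
    · intro h; exact h4.resolve_left h
    · intro h h'; rw [h] at h'; exact ix_ne _ _ h'.symm
  have h4 := h2 _ hx0.1
  rw [swX_or, pv_nx (x := (i, false)) hi] at h4
  simp only [true_and] at h4
  have F4 : Mv M (i, true) ↔ M.idxOf (ix (nx E (i, false))) = 3 * i + 2 := by
    unfold Mv
    rw [ix_true, ← fg _ _ l2 ln0]
    constructor
    · intro h; exact hC.resolve_left h
    · intro h h'; rw [h] at h'; exact hne2 h'.symm
  have F3 : Mv M (nx E (i, false)) ↔ M.idxOf (ix (nx E (i, false))) ≠ ix (nx E (i, false)) := by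
    unfold Mv
    rw [Ne, fg _ _ ln0 ln0]
  rcases hA with hA | hA | hA
  · left
    refine ⟨hA, ?_, ?_, ?_⟩
    · rw [F1]; exact fun h => h hA
    · rw [F2, hA]; exact fun h => ix_ne _ _ h.symm
    · rw [F3, F4]
      have h5 : M.idxOf (ix (nx E (i, false))) ≠ 3 * i := by
        rw [Ne, ← fg _ _ l0 ln0, hA]
        exact fun h => ix_ne _ _ h.symm
      constructor
      · intro h
        rcases h4 with h6 | h6 | h6
        · exact absurd h6 h
        · exact absurd h6 h5
        · exact h6
      · intro h h'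
        rw [h] at h'
        exact hne2 h'
  · right; left
    have h5 := hA
    rw [fg _ _ l0 ln0] at h5
    refine ⟨hA, ?_, ?_, ?_, ?_⟩
    · rw [F1, hA]; exact ix_ne _ _
    · rw [F3, h5]; exact fun h => ix_ne _ _ h.symm
    · rw [F4, h5]; omega
    · rw [F2, hA]; exact hne1
  · right; right
    have h5 := h3 i hi
    have h6 : M.idxOf (ix (nx E (i, false))) ≠ ix (nx E (i, false)) := fun h => h5 ⟨hA, h⟩
    have h7 : M.idxOf (ix (nx E (i, false))) ≠ 3 * i := by
      rw [Ne, ← fg _ _ l0 ln0, hA]
      exact hne1.symm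
    refine ⟨hA, ?_, ?_, ?_, ?_⟩
    · rw [F1, hA]; exact ix_ne _ _
    · rw [F3]; exact h6
    · rw [F4]
      rcases h4 with h8 | h8 | h8
      · exact absurd h8 h6
      · exact absurd h8 h7
      · exact h8
    · rw [F2]; exact hA

/-- Being moved is invariant under the cyclic successor. -/
theorem mv_nx (hE : Incr E) {M : List ℕ} (hM : (mkSM E).Stable M) :
    ∀ x : ℕ × Bool, x.1 < E.length → (Mv M (nx E x) ↔ Mv M x) := by
  classical
  -- indicator
  let g : ℕ × Bool → ℤ := fun x => if Mv M x then 1 else 0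
  let K : Finset (ℕ × Bool) := (range E.length) ×ˢ (univ : Finset Bool)
  have hK : ∀ x, x ∈ K ↔ x.1 < E.length := by intro x; simp [K]
  have hmap : ∀ x ∈ K, nx E x ∈ K := fun x hx => (hK _).2 (nx_mem ((hK x).1 hx)).1
  have hinj : Set.InjOn (nx E) (K : Set (ℕ × Bool)) := by
    intro x hx y hy h
    exact nx_inj ((hK x).1 hx) ((hK y).1 hy) h
  have hsum : ∑ x ∈ K, (vt E x : ℤ) * (g (nx E x) - g x) = 0 := by
    have h1 : ∑ x ∈ K, (vt E x : ℤ) * g (nx E x) = ∑ x ∈ K, (vt E x : ℤ) * g x := by
      have h2 : ∑ x ∈ K, (vt E x : ℤ) * g (nx E x) = ∑ x ∈ K, (vt E (nx E x) : ℤ) * g (nx E x) :=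
        sum_congr rfl fun x hx => by rw [(nx_mem ((hK x).1 hx)).2]
      rw [h2]
      refine sum_nbij (nx E) hmap hinj ?_ (fun x _ => rfl)
      exact surjOn_of_injOn_of_card_le _ hmap hinj le_rfl
    simp only [mul_sub, sum_sub_distrib, h1, sub_self]
  have hprod : ∑ x ∈ K, (vt E x : ℤ) * (g (nx E x) - g x) =
      ∑ i ∈ range E.length, ((vt E (i, true) : ℤ) * (g (nx E (i, true)) - g (i, true)) +
        (vt E (i, false) : ℤ) * (g (nx E (i, false)) - g (i, false))) := by
    simp only [K]
    rw [sum_product]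
    refine sum_congr rfl fun i _ => ?_
    rw [Fintype.sum_bool]
  rw [hprod] at hsum
  -- each term
  have hterm : ∀ i, i < E.length → g (nx E (i, true)) - g (i, true) =
      -(g (nx E (i, false)) - g (i, false)) ∧ 0 ≤ g (nx E (i, false)) - g (i, false) := by
    intro i hi
    rcases stable_cases hE hM hi with ⟨-, h1, h2, h3⟩ | ⟨-, h1, h2, h3, h4⟩ | ⟨-, h1, h2, h3, h4⟩
    · simp only [g]
      rw [if_neg h1, if_neg h2]
      by_cases h : Mv M (i, true)
      · rw [if_pos h, if_pos (h3.2 h)]; simp
      · rw [if_neg h, if_neg (fun h' => h (h3.1 h'))]; simp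
    · simp only [g]
      rw [if_pos h1, if_pos h2, if_neg h3, if_neg h4]; simp
    · simp only [g]
      rw [if_pos h1, if_pos h2, if_pos h3, if_pos h4]; simp
  have hzero : ∀ i ∈ range E.length,
      ((vt E (i, true) : ℤ) - vt E (i, false)) * (g (nx E (i, false)) - g (i, false)) = 0 := by
    have h1 : ∑ i ∈ range E.length,
        ((vt E (i, true) : ℤ) - vt E (i, false)) * (g (nx E (i, false)) - g (i, false)) = 0 := by
      have h2 : ∑ i ∈ range E.length,
          ((vt E (i, true) : ℤ) - vt E (i, false)) * (g (nx E (i, false)) - g (i, false)) =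
          -∑ i ∈ range E.length, ((vt E (i, true) : ℤ) * (g (nx E (i, true)) - g (i, true)) +
            (vt E (i, false) : ℤ) * (g (nx E (i, false)) - g (i, false))) := by
        rw [← sum_neg_distrib]
        refine sum_congr rfl fun i hi => ?_
        rw [(hterm i (mem_range.1 hi)).1]; ring
      rw [h2, hsum, neg_zero]
    refine (sum_eq_zero_iff_of_nonneg ?_).1 h1
    intro i hi
    have hi := mem_range.1 hi
    have h3 : (vt E (i, false) : ℤ) < vt E (i, true) := by exact_mod_cast vt_lt hE hi
    exact mul_nonneg (by linarith) (hterm i hi).2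
  have hg0 : ∀ i, i < E.length → g (nx E (i, false)) = g (i, false) ∧
      g (nx E (i, true)) = g (i, true) := by
    intro i hi
    have h1 := hzero i (mem_range.2 hi)
    have h3 : (vt E (i, false) : ℤ) < vt E (i, true) := by exact_mod_cast vt_lt hE hi
    have h4 : g (nx E (i, false)) - g (i, false) = 0 := by
      rcases mul_eq_zero.1 h1 with h | h
      · linarith
      · exact h
    have h5 := (hterm i hi).1
    constructor <;> linarith
  rintro ⟨i, b⟩ hx
  have hgx : g (nx E (i, b)) = g (i, b) := by
    cases b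
    · exact (hg0 i hx).1
    · exact (hg0 i hx).2
  simp only [g] at hgx
  by_cases h1 : Mv M (i, b)
  · rw [if_pos h1] at hgx
    by_cases h2 : Mv M (nx E (i, b))
    · exact ⟨fun _ => h1, fun _ => h2⟩
    · rw [if_neg h2] at hgx; simp at hgx
  · rw [if_neg h1] at hgx
    by_cases h2 : Mv M (nx E (i, b))
    · rw [if_pos h2] at hgx; simp at hgx
    · exact ⟨fun h => absurd h h2, fun h => absurd h h1⟩

/-- Being moved depends on the vertex only. -/
theorem mv_const (hE : Incr E) {M : List ℕ} (hM : (mkSM E).Stable M) {x y : ℕ × Bool}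
    (hx : x.1 < E.length) (hy : y.1 < E.length) (h : vt E x = vt E y) : Mv M x ↔ Mv M y := by
  have h1 := nxt_const (nodup_inc E (vt E x)) (fun x => Mv M x) ?_ (a := x) (b := y)
    (mem_inc.2 ⟨hx, rfl⟩) (mem_inc.2 ⟨hy, h.symm⟩)
  · exact iff_of_eq h1
  · intro k hk
    obtain ⟨h2, h3⟩ := mem_inc.1 hk
    have := mv_nx hE hM k h2
    rw [nx, h3] at this
    exact propext this

/-- The vertices of an instance. -/
theorem stable_eq (hE : Incr E) {N : ℕ} (hN : ∀ x : ℕ × Bool, x.1 < E.length → vt E x < N)
    {M : List ℕ} (hM : (mkSM E).Stable M) :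
    ∃ D ⊆ range N, Closed E D ∧ M = matD E D := by
  classical
  refine ⟨(range N).filter fun p => ∃ x : ℕ × Bool, x.1 < E.length ∧ vt E x = p ∧ Mv M x,
    filter_subset _ _, ?_⟩
  set D := (range N).filter fun p => ∃ x : ℕ × Bool, x.1 < E.length ∧ vt E x = p ∧ Mv M x
    with hD
  have hmem : ∀ x : ℕ × Bool, x.1 < E.length → (vt E x ∈ D ↔ Mv M x) := by
    intro x hx
    simp only [hD, mem_filter, mem_range]
    constructor
    · rintro ⟨-, y, hy, h1, h2⟩
      exact (mv_const hE hM hy hx h1).1 h2
    · intro h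
      exact ⟨hN x hx, x, hx, rfl, h⟩
  have hnx := mv_nx hE hM
  refine ⟨?_, ?_⟩
  · rw [closed_iff]
    intro i hi h
    rw [hmem _ hi] at h
    rw [hmem _ hi]
    rcases stable_cases hE hM hi with ⟨-, h1, h2, h3⟩ | ⟨-, h1, h2, h3, h4⟩ | ⟨-, h1, h2, h3, h4⟩
    · exfalso
      exact h2 ((hnx (i, true) hi).2 h)
    · exact h1
    · exact h1
  · have hperm := hM.1
    rw [size_mkSM] at hperm
    have hl : M.length = 3 * E.length := by rw [hperm.length_eq, List.length_range]
    refine List.ext_getElem (by rw [hl, matD_length]) ?_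
    intro m hm hm'
    have e1 : M[m] = M.getD m 0 := by
      rw [List.getD_eq_getElem?_getD, List.getElem?_eq_getElem hm, Option.getD_some]
    have e2 : (matD E D)[m] = (matD E D).getD m 0 := by
      rw [List.getD_eq_getElem?_getD, List.getElem?_eq_getElem hm', Option.getD_some]
    rw [e1, e2]
    rcases exists_ix m with ⟨i, rfl⟩ | ⟨x, rfl⟩
    · have hi : i < E.length := by omega
      rw [matD_A D hi]
      rcases stable_cases hE hM hi with ⟨h0, h1, h2, h3⟩ | ⟨h0, h1, h2, h3, h4⟩ |
        ⟨h0, h1, h2, h3, h4⟩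
      · have h5 : ¬ Mv M (i, true) := fun h => h2 ((hnx (i, true) hi).2 h)
        rw [if_neg (fun h => h5 ((hmem (i, true) hi).1 h)),
          if_neg (fun h => h1 ((hmem (i, false) hi).1 h)), h0]
      · rw [if_neg (fun h => h3 ((hmem (i, true) hi).1 h)), if_pos ((hmem (i, false) hi).2 h1), h0]
      · rw [if_pos ((hmem (i, true) hi).2 h3), h0]
    · obtain ⟨i, b⟩ := x
      have hi : i < E.length := ix_lt' (by omega : ix (i, b) < 3 * E.length)
      obtain ⟨-, hB, hC⟩ := stable_men hE hM hi
      cases b
      · rw [ix_false, matD_B D hi]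
        by_cases h : Mv M (i, false)
        · rw [if_pos ((hmem (i, false) hi).2 h)]
          exact hB.resolve_left h
        · rw [if_neg (fun h' => h ((hmem (i, false) hi).1 h'))]
          unfold Mv at h
          rw [ix_false] at h
          exact not_not.1 h
      · rw [ix_true, matD_C D hi]
        by_cases h : Mv M (i, true)
        · rw [if_pos ((hmem (i, true) hi).2 h)]
          exact hC.resolve_left h
        · rw [if_neg (fun h' => h ((hmem (i, true) hi).1 h'))]
          unfold Mv at h
          rw [ix_true] at h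
          exact not_not.1 h

end

end Pool.Agent.Work.MP_63b90e_lc
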