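import Pool.Agent.Work.MP_63b90e_lc.Closure
import Pool.Agent.Work.PolyTime.NPHard

/-!
Satisfying assignments and sets of a prescribed weight.
-/

set_option autoImplicit false

namespace Pool.Agent.Work.MP_63b90e_lc

open Finset
open Pool.Agent.Work.PolyTime (NClause)

/-- The set `A` of true variables satisfies the clauses. -/
def Sat (C : List NClause) (A : Finset ℕ) : Prop :=
  ∀ c ∈ C, ∃ l ∈ c, decide (l.2 ∈ A) = l.1

instance (C : List NClause) (A : Finset ℕ) : Decidable (Sat C A) :=
  inferInstanceAs (Decidable (∀ c ∈ C, ∃ l ∈ c, decide (l.2 ∈ A) = l.1))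

/-- The number of satisfying assignments of the variables `0, ..., n - 1`. -/
def satCount (n : ℕ) (C : List NClause) : ℕ := ((range n).powerset.filter (Sat C)).card

/-- The vertex for `x_i = b`. -/
def vtx (b : Bool) (i : ℕ) : ℕ := 2 * i + (if b then 1 else 0)

theorem vtx_inj {b b' : Bool} {i i' : ℕ} (h : vtx b i = vtx b' i') : b = b' ∧ i = i' := by
  simp only [vtx] at h
  cases b <;> cases b' <;> simp at h ⊢ <;> omega

/-- The weight of one vertex. -/
def wgt (n : ℕ) (C : List NClause) : ℕ := n + C.length + 1

/-- The sets. -/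
def gam (n : ℕ) (C : List NClause) : List (List ℕ) :=
  (List.range (2 * n)).flatMap (fun a => List.replicate (wgt n C) [a]) ++
  ((List.range n).map (fun i => [vtx false i, vtx true i]) ++
   C.map (fun c => c.map fun l => vtx (!l.1) l.2))

theorem hits_append (L M : List (List ℕ)) (T : Finset ℕ) :
    hits (L ++ M) T = hits L T + hits M T := by
  simp [hits, List.countP_append]

theorem hits_le (L : List (List ℕ)) (T : Finset ℕ) : hits L T ≤ L.length := List.countP_le_length

theorem hits_singles (K m : ℕ) (T : Finset ℕ) (hT : T ⊆ range m) :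
    hits ((List.range m).flatMap fun a => List.replicate K [a]) T = K * T.card := by
  have key : ∀ m, hits ((List.range m).flatMap fun a => List.replicate K [a]) T =
      K * ((range m).filter (· ∈ T)).card := by
    intro m
    induction m with
    | zero => simp [hits]
    | succ m ih =>
      rw [List.range_succ, List.flatMap_append, hits_append, ih, range_add_one, filter_insert]
      simp only [List.flatMap_cons, List.flatMap_nil, List.append_nil, hits, List.countP_replicate]
      by_cases hm : m ∈ T
      · rw [if_pos hm, card_insert_of_notMem (by simp)]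
        simp [hm]; ring
      · rw [if_neg hm]; simp [hm]
  rw [key]
  congr 2
  ext v
  simp only [mem_filter, and_iff_right_iff_imp]
  exact fun h => hT h

theorem gam_lt {n : ℕ} {C : List NClause} (hC : ∀ c ∈ C, ∀ l ∈ c, l.2 < n) :
    ∀ S ∈ gam n C, ∀ a ∈ S, a < 2 * n := by
  intro S hS a ha
  simp only [gam, List.mem_append, List.mem_flatMap, List.mem_range, List.mem_replicate,
    List.mem_map] at hS
  rcases hS with ⟨b, hb, -, rfl⟩ | ⟨i, hi, rfl⟩ | ⟨c, hc, rfl⟩
  · simp at ha; omega
  · simp only [vtx, List.mem_cons, List.not_mem_nil, or_false] at ha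
    simp at ha; omega
  · obtain ⟨l, hl, rfl⟩ := List.mem_map.1 ha
    have := hC c hc l hl
    simp only [vtx]; split_ifs <;> omega

theorem hits_gam {n : ℕ} {C : List NClause} {T : Finset ℕ} (hT : T ⊆ range (2 * n)) :
    ∃ k, hits (gam n C) T = wgt n C * T.card + k ∧ k < wgt n C ∧
      (k = 0 ↔ (∀ i < n, ¬ (vtx false i ∈ T ∧ vtx true i ∈ T)) ∧
        ∀ c ∈ C, ¬ ∀ l ∈ c, vtx (!l.1) l.2 ∈ T) := by
  refine ⟨hits ((List.range n).map (fun i => [vtx false i, vtx true i]) ++
    C.map (fun c => c.map fun l => vtx (!l.1) l.2)) T, ?_, ?_, ?_⟩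
  · rw [gam, hits_append, hits_singles _ _ _ hT]
  · refine (hits_le _ _).trans_lt ?_
    simp [wgt]
  · rw [hits, List.countP_eq_zero]
    simp only [List.mem_append, List.mem_map, List.mem_range, decide_eq_true_eq]
    constructor
    · intro h
      refine ⟨fun i hi hh => ?_, fun c hc hh => ?_⟩
      · refine h _ (Or.inl ⟨i, hi, rfl⟩) ?_
        simpa using hh
      · refine h _ (Or.inr ⟨c, hc, rfl⟩) ?_
        intro a ha
        obtain ⟨l, hl, rfl⟩ := List.mem_map.1 ha
        exact hh l hl
    · rintro ⟨h1, h2⟩ S (⟨i, hi, rfl⟩ | ⟨c, hc, rfl⟩)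
      · intro h3; apply h1 i hi; simpa using h3
      · intro h3; apply h2 c hc
        intro l hl
        exact h3 _ (List.mem_map_of_mem hl)

/-- The set of an assignment. -/
def setOf (n : ℕ) (A : Finset ℕ) : Finset ℕ := (range n).image fun i => vtx (decide (i ∈ A)) i

theorem mem_setOf {n : ℕ} {A : Finset ℕ} {b : Bool} {i : ℕ} :
    vtx b i ∈ setOf n A ↔ i < n ∧ b = decide (i ∈ A) := by
  simp only [setOf, mem_image, mem_range]
  constructor
  · rintro ⟨j, hj, h⟩
    obtain ⟨h1, rfl⟩ := vtx_inj h
    exact ⟨hj, h1.symm⟩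
  · rintro ⟨h1, rfl⟩
    exact ⟨i, h1, rfl⟩

theorem exists_vtx (v : ℕ) : ∃ b i, v = vtx b i := by
  rcases Nat.even_or_odd' v with ⟨i, h | h⟩
  · exact ⟨false, i, by simp [vtx, h]⟩
  · exact ⟨true, i, by simp [vtx, h]⟩

theorem setOf_sub (n : ℕ) (A : Finset ℕ) : setOf n A ⊆ range (2 * n) := by
  intro v hv
  obtain ⟨b, i, rfl⟩ := exists_vtx v
  have := (mem_setOf.1 hv).1
  rw [mem_range]; simp only [vtx]; split_ifs <;> omega

theorem card_setOf (n : ℕ) (A : Finset ℕ) : (setOf n A).card = n := by
  rw [setOf, card_image_of_injective, card_range]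
  intro i j h
  exact (vtx_inj h).2

/-- The number of sets of the critical weight. -/
theorem card_crit {n : ℕ} {C : List NClause} (hC : ∀ c ∈ C, ∀ l ∈ c, l.2 < n) :
    ((range (2 * n)).powerset.filter fun T => hits (gam n C) T = wgt n C * n).card =
      satCount n C := by
  rw [satCount]
  symm
  refine card_nbij' (setOf n) (fun T => (range n).filter fun i => vtx true i ∈ T) ?_ ?_ ?_ ?_
  · intro A hA
    simp only [mem_coe, mem_filter, mem_powerset] at hA ⊢
    obtain ⟨h1, h2⟩ := hA
    refine ⟨setOf_sub n A, ?_⟩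
    obtain ⟨k, hk, -, hk'⟩ := hits_gam (C := C) (setOf_sub n A)
    rw [hk, card_setOf, hk'.2, add_zero]
    refine ⟨?_, ?_⟩
    · rintro i hi ⟨h3, h4⟩
      have h3 := (mem_setOf.1 h3).2
      have h4 := (mem_setOf.1 h4).2
      rw [← h3] at h4; simp at h4
    · intro c hc h3
      obtain ⟨l, hl, hl'⟩ := h2 c hc
      have := (mem_setOf.1 (h3 l hl)).2
      rw [hl'] at this
      cases h : l.1 <;> rw [h] at this <;> simp at this
  · intro T hT
    simp only [mem_coe, mem_filter, mem_powerset] at hT ⊢
    obtain ⟨h1, h2⟩ := hT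
    refine ⟨filter_subset _ _, ?_⟩
    obtain ⟨k, hk, hk1, hk'⟩ := hits_gam (C := C) h1
    rw [hk] at h2
    have hcard : T.card = n := by
      have h3 : wgt n C * T.card ≤ wgt n C * n := by omega
      have h4 : T.card ≤ n := Nat.le_of_mul_le_mul_left h3 (by simp [wgt])
      rcases Nat.lt_or_ge T.card n with h5 | h5
      · exfalso
        have h6 : wgt n C * (T.card + 1) ≤ wgt n C * n := Nat.mul_le_mul_left _ h5
        rw [Nat.mul_add] at h6; omega
      · omega
    have hk0 : k = 0 := by rw [hcard] at h2; omega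
    obtain ⟨h3, h4⟩ := hk'.1 hk0
    have h5 : ∀ i < n, vtx false i ∈ T ∨ vtx true i ∈ T := by
      by_contra hcon
      push_neg at hcon
      obtain ⟨i, hi, hi1, hi2⟩ := hcon
      have h6 : T ⊆ ((range n).erase i).image (fun j => vtx (decide (vtx true j ∈ T)) j) := by
        intro v hv
        obtain ⟨b, j, rfl⟩ := exists_vtx v
        have hj : j < n := by
          have := mem_range.1 (h1 hv)
          simp only [vtx] at this; split_ifs at this <;> omega
        have hji : j ≠ i := by
          rintro rfl
          cases b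
          · exact hi1 hv
          · exact hi2 hv
        refine mem_image.2 ⟨j, mem_erase.2 ⟨hji, mem_range.2 hj⟩, ?_⟩
        cases b
        · have : vtx true j ∉ T := fun h => h3 j hj ⟨hv, h⟩
          simp [this]
        · simp [hv]
      have h7 := (card_le_card h6).trans card_image_le
      rw [card_erase_of_mem (mem_range.2 hi), card_range, hcard] at h7
      omega
    intro c hc
    have h6 := h4 c hc
    push_neg at h6
    obtain ⟨l, hl, hl'⟩ := h6
    refine ⟨l, hl, ?_⟩
    have hln := hC c hc l hl
    cases hb : l.1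
    · rw [hb] at hl'
      simp only [Bool.not_false] at hl'
      simp [hl']
    · rw [hb] at hl'
      simp only [Bool.not_true] at hl'
      have := (h5 _ hln).resolve_left hl'
      simp [this, hln]
  · intro A hA
    simp only [mem_coe, mem_filter, mem_powerset] at hA
    ext i
    simp only [mem_filter, mem_range, mem_setOf]
    constructor
    · rintro ⟨-, -, h⟩; simpa using h.symm
    · intro h
      have := mem_range.1 (hA.1 h)
      exact ⟨this, this, by simp [h]⟩
  · intro T hT
    simp only [mem_coe, mem_filter, mem_powerset] at hT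
    obtain ⟨h1, h2⟩ := hT
    obtain ⟨k, hk, hk1, hk'⟩ := hits_gam (C := C) h1
    rw [hk] at h2
    have hcard : T.card = n := by
      have h3 : wgt n C * T.card ≤ wgt n C * n := by omega
      have h4 : T.card ≤ n := Nat.le_of_mul_le_mul_left h3 (by simp [wgt])
      rcases Nat.lt_or_ge T.card n with h5 | h5
      · exfalso
        have h6 : wgt n C * (T.card + 1) ≤ wgt n C * n := Nat.mul_le_mul_left _ h5
        rw [Nat.mul_add] at h6; omega
      · omega
    have hk0 : k = 0 := by rw [hcard] at h2; omega
    obtain ⟨h3, h4⟩ := hk'.1 hk0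
    symm
    refine eq_of_subset_of_card_le ?_ ?_
    · intro v hv
      obtain ⟨b, j, rfl⟩ := exists_vtx v
      have hj : j < n := by
        have := mem_range.1 (h1 hv)
        simp only [vtx] at this; split_ifs at this <;> omega
      rw [mem_setOf]
      refine ⟨hj, ?_⟩
      cases b
      · have : vtx true j ∉ T := fun h => h3 j hj ⟨hv, h⟩
        simp [this]
      · simp [hv, hj]
    · rw [card_setOf, hcard]

end Pool.Agent.Work.MP_63b90e_lc
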