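import Mathlib

/-!
Stable marriage and generalised median stable matchings.
-/

set_option autoImplicit false

namespace Pool.Agent.Work.MP_63b90e_lc

/-- An instance of stable marriage: the preference lists of the men `0, 1, ...` and of the women
`0, 1, ...`, most preferred first. -/
structure SM where
  men : List (List ℕ)
  women : List (List ℕ)

/-- The number of men. -/
def SM.size (I : SM) : ℕ := I.men.length

/-- There are as many women as men, and every preference list ranks all members of the opposite
sex. -/
def SM.Valid (I : SM) : Prop :=
  I.women.length = I.size ∧ (∀ l ∈ I.men, l.Perm (List.range I.size)) ∧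
    ∀ l ∈ I.women, l.Perm (List.range I.size)

/-- In the list `l`, the entry `a` comes before the entry `b`. -/
def Before (l : List ℕ) (a b : ℕ) : Prop := l.idxOf a < l.idxOf b

/-- The man `m` and the woman `w` block the matching `M`; a matching is the list of the partners
of the men `0, 1, ...`. -/
def SM.Blocks (I : SM) (M : List ℕ) (m w : ℕ) : Prop :=
  m < I.size ∧ w < I.size ∧ M.getD m 0 ≠ w ∧
    Before (I.men.getD m []) w (M.getD m 0) ∧ Before (I.women.getD w []) m (M.idxOf w)

/-- Stable matchings. -/
def SM.Stable (I : SM) (M : List ℕ) : Prop :=
  M.Perm (List.range I.size) ∧ ∀ m w, ¬ I.Blocks M m w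

/-- The partners of the man `m` in all stable matchings, with repetition (one entry for each
stable matching), from his most preferred to his least preferred partner. -/
noncomputable def SM.partners (I : SM) (m : ℕ) : List ℕ :=
  (I.men.getD m []).flatMap fun w =>
    List.replicate {M : List ℕ | I.Stable M ∧ M.getD m 0 = w}.ncard w

/-- Generalised median stable matchings: for some `j`, less than the number of stable matchings,
the partner of every man is the entry with index `j` (counting from `0`) of his list of
partners. -/
def SM.IsMedian (I : SM) (M : List ℕ) : Prop :=
  ∃ j < {M : List ℕ | I.Stable M}.ncard, ∀ m < I.size, (I.partners m)[j]? = some (M.getD m 0)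

end Pool.Agent.Work.MP_63b90e_lc
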