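import Pool.Agent.Work.MP_63b90e_lc.Median

/-!
The graph that compares the numbers of closed sets of two graphs.
-/

set_option autoImplicit false
set_option linter.unusedSimpArgs false

namespace Pool.Agent.Work.MP_63b90e_lc

open Finset

/-- A new vertex `0` below the graph. -/
def botG (G : CG) : CG := sumG (0, []) G

/-- The graph. -/
def gF (Q R : CG) : CG := unionG (botG Q) (botG R)

theorem good_nil : Good (0, []) := by intro e he; simp at he

theorem closedSets_nil : closedSets (0, []) = {∅} := by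
  simp [closedSets, Closed]

theorem cnt_nil : cnt (0, []) = 1 := by rw [cnt, closedSets_nil]; rfl

theorem cnt_bot (G : CG) : cnt (botG G) = 1 + cnt G := by
  rw [botG, cnt_sum good_nil, cnt_nil]

theorem good_bot {G : CG} (h : Good G) : Good (botG G) := good_sum good_nil h

theorem cbar_bot (G : CG) : cbar (botG G) 0 = 1 := by
  rw [cbar, botG, closedSets_sum good_nil, filter_union]
  have h1 : (((closedSets G).image fun B => range ((0, ([] : List (ℕ × ℕ))).1 + 1) ∪
      shiftS ((0, ([] : List (ℕ × ℕ))).1 + 1) B).filter fun D => 0 ∉ D) = ∅ := by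
    rw [filter_eq_empty_iff]
    intro D hD
    obtain ⟨B, -, rfl⟩ := mem_image.1 hD
    simp
  rw [h1, union_empty, closedSets_nil]
  rfl

theorem closedSets_union {G H : CG} (hG : Good G) : closedSets (unionG G H) =
    (closedSets G ×ˢ closedSets H).image (fun x => x.1 ∪ shiftS G.1 x.2) := by
  ext D
  rw [mem_image]
  constructor
  · intro hD
    obtain ⟨h1, h2⟩ := mem_closedSets.1 hD
    refine ⟨(D.filter (· < G.1), upS G.1 D), mem_product.2 ⟨mem_closedSets.2 ⟨?_, ?_⟩,
      mem_closedSets.2 ⟨?_, ?_⟩⟩, ?_⟩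
    · intro v hv; exact (mem_filter.1 hv).2
    · intro e he hv
      rw [mem_filter] at hv ⊢
      refine ⟨h2 e ?_ hv.1, by have := hG e he; omega⟩
      simp [unionG, he]
    · intro v hv
      have := h1 _ (mem_upS.1 hv)
      simp only [unionG] at this; omega
    · intro e he hv
      rw [mem_upS] at hv ⊢
      refine h2 (e.1 + G.1, e.2 + G.1) ?_ hv
      simp only [unionG, shiftE, List.mem_append, List.mem_map]
      exact Or.inr ⟨e, he, rfl⟩
    · ext v
      simp only [mem_union, mem_filter, mem_shiftS, mem_upS]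
      constructor
      · rintro (h | ⟨h, h'⟩)
        · exact h.1
        · rwa [Nat.sub_add_cancel h] at h'
      · intro h
        by_cases hv : v < G.1
        · exact Or.inl ⟨h, hv⟩
        · refine Or.inr ⟨by omega, ?_⟩
          rwa [Nat.sub_add_cancel (by omega)]
  · rintro ⟨⟨A, B⟩, hAB, rfl⟩
    simp only [mem_product, mem_closedSets] at hAB
    obtain ⟨⟨h1, h2⟩, h3, h4⟩ := hAB
    refine mem_closedSets.2 ⟨?_, ?_⟩
    · intro v hv
      simp only [unionG]
      rcases mem_union.1 hv with hv | hv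
      · have := h1 v hv; omega
      · rw [mem_shiftS] at hv
        have := h3 _ hv.2; omega
    · intro e he hv
      simp only [unionG, shiftE, List.mem_append, List.mem_map] at he
      rcases he with he | ⟨f, hf, rfl⟩
      · rcases mem_union.1 hv with hv | hv
        · exact mem_union_left _ (h2 e he hv)
        · rw [mem_shiftS] at hv
          have := hG e he; omega
      · rcases mem_union.1 hv with hv | hv
        · have := h1 _ hv; simp only at this; omega
        · rw [add_mem_shiftS] at hv
          exact mem_union_right _ (add_mem_shiftS.2 (h4 f hf hv))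

theorem union_injOn {G H : CG} : Set.InjOn (fun x : Finset ℕ × Finset ℕ => x.1 ∪ shiftS G.1 x.2)
    (closedSets G ×ˢ closedSets H : Finset (Finset ℕ × Finset ℕ)) := by
  rintro ⟨A, B⟩ hAB ⟨A', B'⟩ hAB' h
  simp only [coe_product, Set.mem_prod, mem_coe] at hAB hAB'
  simp only at h
  have hA := (mem_closedSets.1 hAB.1).1
  have hA' := (mem_closedSets.1 hAB'.1).1
  refine Prod.ext ?_ ?_
  · ext v
    have h1 : v ∈ A ∪ shiftS G.1 B ↔ v ∈ A' ∪ shiftS G.1 B' := by rw [h]
    simp only [mem_union, mem_shiftS] at h1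
    constructor
    · intro hv
      have := hA v hv
      rcases h1.1 (Or.inl hv) with h2 | h2
      · exact h2
      · omega
    · intro hv
      have := hA' v hv
      rcases h1.2 (Or.inl hv) with h2 | h2
      · exact h2
      · omega
  · ext v
    have h1 : v + G.1 ∈ A ∪ shiftS G.1 B ↔ v + G.1 ∈ A' ∪ shiftS G.1 B' := by rw [h]
    simp only [mem_union, add_mem_shiftS] at h1
    constructor
    · intro hv
      rcases h1.1 (Or.inr hv) with h2 | h2
      · have := hA' _ h2; omega
      · exact h2
    · intro hv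
      rcases h1.2 (Or.inr hv) with h2 | h2
      · have := hA _ h2; omega
      · exact h2

theorem cbar_union_left {G H : CG} (hG : Good G) {p : ℕ} (hp : p < G.1) :
    cbar (unionG G H) p = cbar G p * cnt H := by
  rw [cbar, closedSets_union hG, filter_image, card_image_of_injOn, cbar, cnt, ← card_product]
  · congr 1
    ext ⟨A, B⟩
    simp only [mem_filter, mem_product, mem_union, mem_shiftS, not_or]
    constructor
    · rintro ⟨⟨h1, h2⟩, h3, -⟩; exact ⟨⟨h1, h3⟩, h2⟩
    · rintro ⟨⟨h1, h3⟩, h2⟩; exact ⟨⟨h1, h2⟩, h3, by omega⟩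
  · exact union_injOn.mono (filter_subset _ _)

theorem cbar_union_right {G H : CG} (hG : Good G) (p : ℕ) :
    cbar (unionG G H) (p + G.1) = cnt G * cbar H p := by
  rw [cbar, closedSets_union hG, filter_image, card_image_of_injOn, cbar, cnt, ← card_product]
  · congr 1
    ext ⟨A, B⟩
    simp only [mem_filter, mem_product, mem_union, add_mem_shiftS, not_or]
    constructor
    · rintro ⟨⟨h1, h2⟩, -, h3⟩; exact ⟨h1, h2, h3⟩
    · rintro ⟨h1, h2, h3⟩
      refine ⟨⟨h1, h2⟩, ?_, h3⟩
      intro h
      have := (mem_closedSets.1 h1).1 _ h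
      omega
  · exact union_injOn.mono (filter_subset _ _)

/-- A vertex that requires another one. -/
theorem cbar_mono {G : CG} {p q : ℕ} (h : (p, q) ∈ G.2) : cbar G p ≤ cbar G q := by
  refine card_le_card ?_
  intro D hD
  rw [mem_filter] at hD ⊢
  exact ⟨hD.1, fun hq => hD.2 ((mem_closedSets.1 hD.1).2 _ h hq)⟩

theorem cbar_lt {G : CG} {p q : ℕ} (h : (p, q) ∈ G.2) {D : Finset ℕ} (hD : D ∈ closedSets G)
    (hp : p ∈ D) (hq : q ∉ D) : cbar G p < cbar G q := by
  refine card_lt_card ?_
  rw [ssubset_iff_of_subset]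
  · exact ⟨D, mem_filter.2 ⟨hD, hq⟩, fun h' => (mem_filter.1 h').2 hp⟩
  · intro D hD
    rw [mem_filter] at hD ⊢
    exact ⟨hD.1, fun hq => hD.2 ((mem_closedSets.1 hD.1).2 _ h hq)⟩

theorem size_gF (Q R : CG) : (gF Q R).1 = (Q.1 + 1) + (R.1 + 1) := by
  simp [gF, unionG, botG, sumG]; omega

theorem size_bot (Q : CG) : (botG Q).1 = Q.1 + 1 := by simp [botG, sumG]; omega

theorem edgeQ (Q R : CG) {w : ℕ} (hw : w < Q.1) : (0, w + 1) ∈ (gF Q R).2 := by
  simp only [gF, unionG, List.mem_append]
  left
  rw [botG, mem_sumG]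
  exact Or.inr (Or.inr (Or.inl ⟨w, hw, rfl⟩))

theorem edgeR (Q R : CG) {w : ℕ} (hw : w < R.1) :
    (Q.1 + 1, w + 1 + (Q.1 + 1)) ∈ (gF Q R).2 := by
  simp only [gF, unionG, List.mem_append, size_bot]
  right
  simp only [shiftE, List.mem_map]
  refine ⟨(0, w + 1), ?_, by simp⟩
  rw [botG, mem_sumG]
  exact Or.inr (Or.inr (Or.inl ⟨w, hw, rfl⟩))

theorem good_gF {Q R : CG} (hQ : Good Q) (hR : Good R) : Good (gF Q R) :=
  good_union (good_bot hQ) (good_bot hR)

theorem nice_of {N : ℕ} {E : List (ℕ × ℕ)} (h : Good (N, E))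
    (hx : ∀ p < N, ∃ e ∈ E, e.1 = p ∨ e.2 = p) : Nice N E where
  incr := fun e he => (h e he).1
  lt := by
    rintro ⟨i, b⟩ hi
    simp only at hi
    have := h _ (List.getElem_mem hi)
    simp only at this
    cases b
    · rw [vt_false hi]; omega
    · rw [vt_true hi]; omega
  ex := by
    intro p hp
    obtain ⟨e, he, h1⟩ := hx p hp
    obtain ⟨i, hi, rfl⟩ := List.getElem_of_mem he
    rcases h1 with h1 | h1
    · exact ⟨(i, false), hi, by rw [vt_false hi, h1]⟩
    · exact ⟨(i, true), hi, by rw [vt_true hi, h1]⟩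

theorem nice_gF {Q R : CG} (hQ : Good Q) (hR : Good R) (hQ1 : 0 < Q.1) (hR1 : 0 < R.1) :
    Nice (gF Q R).1 (gF Q R).2 := by
  refine nice_of (good_gF hQ hR) ?_
  intro p hp
  rw [size_gF] at hp
  by_cases h1 : p = 0
  · exact ⟨_, edgeQ Q R hQ1, Or.inl h1.symm⟩
  by_cases h2 : p < Q.1 + 1
  · exact ⟨_, edgeQ Q R (w := p - 1) (by omega), Or.inr (by simp only; omega)⟩
  by_cases h3 : p = Q.1 + 1
  · exact ⟨_, edgeR Q R hR1, Or.inl h3.symm⟩
  · exact ⟨_, edgeR Q R (w := p - 1 - (Q.1 + 1)) (by omega), Or.inr (by simp only; omega)⟩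

/-- The comparison. -/
theorem gF_median {Q R : CG} (hQ : Good Q) (hR : Good R) (hQ1 : 0 < Q.1) (hR1 : 0 < R.1) :
    (mkSM (gF Q R).2).IsMedian (matD (gF Q R).2 {0}) ↔ cnt R < cnt Q := by
  have hnice := nice_gF hQ hR hQ1 hR1
  have hG : Good (botG Q) := good_bot hQ
  have hsz := size_gF Q R
  rw [isMedian_iff hnice (by
    rw [singleton_subset_iff, mem_range]; omega)]
  have c0 : cbar (gF Q R) 0 = 1 + cnt R := by
    rw [gF, cbar_union_left hG (by rw [size_bot]; omega), cbar_bot, cnt_bot, one_mul]
  have c1 : cbar (gF Q R) (Q.1 + 1) = 1 + cnt Q := by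
    have := cbar_union_right (H := botG R) hG 0
    rw [size_bot, zero_add, cbar_bot, cnt_bot, mul_one] at this
    exact this
  have htot : cnt (gF Q R) = (1 + cnt Q) * (1 + cnt R) := by
    rw [gF, cnt_union hG, cnt_bot, cnt_bot]
  have hE : ((gF Q R).1, (gF Q R).2) = gF Q R := rfl
  rw [hE]
  constructor
  · rintro ⟨j, -, hj⟩
    have h0 : 0 ∈ medS (gF Q R).1 (gF Q R).2 j := by rw [hj]; simp
    have h1 : Q.1 + 1 ∉ medS (gF Q R).1 (gF Q R).2 j := by rw [hj]; simp
    simp only [medS, mem_filter, mem_range, not_and, not_le, hE] at h0 h1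
    have h2 := h1 (by omega)
    rw [c0] at h0
    rw [c1] at h2
    omega
  · intro hlt
    refine ⟨1 + cnt R, ?_, ?_⟩
    · rw [htot]
      have h1 := cnt_pos Q
      nlinarith
    · ext p
      simp only [medS, mem_filter, mem_range, mem_singleton, hE]
      constructor
      · rintro ⟨hp, hc⟩
        by_contra h0
        rw [hsz] at hp
        by_cases h2 : p < Q.1 + 1
        · have hcl : ({0} : Finset ℕ) ∈ closedSets (gF Q R) := by
            refine mem_closedSets.2 ⟨?_, ?_⟩
            · intro v hv; rw [mem_singleton] at hv; omega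
            · intro e he hv
              rw [mem_singleton] at hv ⊢
              have := good_gF hQ hR e he
              omega
          have h3 := edgeQ Q R (w := p - 1) (by omega)
          have h4 : p - 1 + 1 = p := by omega
          rw [h4] at h3
          have := cbar_lt h3 hcl (by simp) (by simpa using h0)
          omega
        · by_cases h3 : p = Q.1 + 1
          · subst h3; omega
          · have h4 := edgeR Q R (w := p - 1 - (Q.1 + 1)) (by omega)
            have h5 : p - 1 - (Q.1 + 1) + 1 + (Q.1 + 1) = p := by omega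
            rw [h5] at h4
            have := cbar_mono h4
            omega
      · rintro rfl
        exact ⟨by omega, by omega⟩

end Pool.Agent.Work.MP_63b90e_lc
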