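import Pool.Agent.Work.MP_63b90e_lc.Defs

/-!
Generalised median stable matchings and comparisons of numbers of stable matchings.
-/

set_option autoImplicit false
set_option linter.unusedSimpArgs false

namespace Pool.Agent.Work.MP_63b90e_lc

/-- Entries of a list with repetitions. -/
theorem getElem_blocks {l : List ℕ} (hl : l.Nodup) (k : ℕ → ℕ) {w : ℕ} (hw : w ∈ l) (j : ℕ) :
    (l.flatMap fun v => List.replicate (k v) v)[j]? = some w ↔
      ((l.take (l.idxOf w)).map k).sum ≤ j ∧ j < ((l.take (l.idxOf w + 1)).map k).sum := by
  induction l generalizing j with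
  | nil => simp at hw
  | cons a l ih =>
    rw [List.flatMap_cons, List.getElem?_append]
    have hnd := List.nodup_cons.1 hl
    by_cases haw : a = w
    · subst haw
      rw [List.idxOf_cons_self]
      simp only [List.length_replicate, List.take_zero, List.map_nil, List.sum_nil, zero_add,
        List.take_succ_cons, List.map_cons, List.sum_cons, add_zero]
      by_cases hj : j < k a
      · rw [if_pos hj, List.getElem?_replicate, if_pos hj]
        simp [hj]
      · rw [if_neg hj]
        simp only [hj, and_false, iff_false]
        intro h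
        have := List.mem_of_getElem? h
        simp only [List.mem_flatMap, List.mem_replicate] at this
        obtain ⟨v, hv, -, rfl⟩ := this
        exact hnd.1 hv
    · have hw' : w ∈ l := by
        rcases List.mem_cons.1 hw with h | h
        · exact absurd h.symm haw
        · exact h
      rw [List.idxOf_cons_ne _ haw]
      simp only [List.length_replicate, List.take_succ_cons, List.map_cons, List.sum_cons]
      by_cases hj : j < k a
      · rw [if_pos hj, List.getElem?_replicate, if_pos hj]
        simp only [Option.some.injEq, haw, false_iff]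
        omega
      · rw [if_neg hj, ih hnd.2 hw']
        omega

theorem mem_take_idx {l : List ℕ} {x : ℕ} (hx : x ∈ l) (i : ℕ) :
    x ∈ l.take i ↔ l.idxOf x < i := by
  induction l generalizing i with
  | nil => simp at hx
  | cons a l ih =>
    cases i with
    | zero => simp
    | succ i =>
      rw [List.take_succ_cons, List.mem_cons]
      by_cases h : a = x
      · subst h; simp
      · rw [List.idxOf_cons_ne _ h]
        have hx' : x ∈ l := by
          rcases List.mem_cons.1 hx with h' | h'
          · exact absurd h'.symm h
          · exact h'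
        rw [ih hx']
        constructor
        · rintro (rfl | h')
          · exact absurd rfl h
          · omega
        · intro h'; right; omega

theorem stable_finite (I : SM) : {M : List ℕ | I.Stable M}.Finite :=
  (((List.range I.size).permutations).toFinset.finite_toSet).subset (by
    intro M hM
    simp only [Finset.mem_coe, List.mem_toFinset, List.mem_permutations]
    exact hM.1)

/-- The number of stable matchings in which the man `m` prefers his partner to `w`. -/
noncomputable def cLt (I : SM) (m w : ℕ) : ℕ :=
  {M : List ℕ | I.Stable M ∧ Before (I.men.getD m []) (M.getD m 0) w}.ncard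

/-- The number of stable matchings in which the man `m` does not prefer `w` to his partner. -/
noncomputable def cLe (I : SM) (m w : ℕ) : ℕ :=
  {M : List ℕ | I.Stable M ∧ ¬ Before (I.men.getD m []) w (M.getD m 0)}.ncard

theorem sum_counts (I : SM) (m : ℕ) (l : List ℕ) (hl : l.Nodup) :
    (l.map fun w => {M : List ℕ | I.Stable M ∧ M.getD m 0 = w}.ncard).sum =
      {M : List ℕ | I.Stable M ∧ M.getD m 0 ∈ l}.ncard := by
  induction l with
  | nil => simp
  | cons a l ih =>
    have hnd := List.nodup_cons.1 hl
    have f1 : {M : List ℕ | I.Stable M ∧ M.getD m 0 = a}.Finite :=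
      (stable_finite I).subset fun M hM => hM.1
    have f2 : {M : List ℕ | I.Stable M ∧ M.getD m 0 ∈ l}.Finite :=
      (stable_finite I).subset fun M hM => hM.1
    rw [List.map_cons, List.sum_cons, ih hnd.2, ← Set.ncard_union_eq ?_ f1 f2]
    · congr 1
      ext M
      simp only [Set.mem_union, Set.mem_setOf_eq, List.mem_cons]
      tauto
    · rw [Set.disjoint_left]
      rintro M ⟨-, h1⟩ ⟨-, h2⟩
      rw [h1] at h2
      exact hnd.1 h2

theorem stable_lt {I : SM} {M : List ℕ} (hM : I.Stable M) {m : ℕ} (hm : m < I.size) :
    M.getD m 0 < I.size := by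
  have hl : M.length = I.size := by rw [hM.1.length_eq, List.length_range]
  have h1 : M.getD m 0 ∈ M := by
    rw [List.getD_eq_getElem _ _ (by omega)]; exact List.getElem_mem _
  simpa using hM.1.subset h1

theorem men_mem {I : SM} (hI : I.Valid) {m : ℕ} (hm : m < I.size) :
    (I.men.getD m []).Perm (List.range I.size) := by
  rw [List.getD_eq_getElem _ _ hm]
  exact hI.2.1 _ (List.getElem_mem _)

theorem partners_get_iff {I : SM} (hI : I.Valid) {m : ℕ} (hm : m < I.size) {w : ℕ}
    (hw : w < I.size) (j : ℕ) :
    (I.partners m)[j]? = some w ↔ cLt I m w ≤ j ∧ j < cLe I m w := by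
  have hp := men_mem hI hm
  have hnd : (I.men.getD m []).Nodup := hp.nodup_iff.2 List.nodup_range
  have hmem : ∀ v < I.size, v ∈ I.men.getD m [] := fun v hv => hp.mem_iff.2 (List.mem_range.2 hv)
  have hmem' : ∀ M, I.Stable M → M.getD m 0 ∈ I.men.getD m [] :=
    fun M hM => hmem _ (stable_lt hM hm)
  rw [SM.partners, getElem_blocks hnd _ (hmem w hw), sum_counts _ _ _ (hnd.take),
    sum_counts _ _ _ (hnd.take), cLt, cLe]
  have e1 : {M : List ℕ | I.Stable M ∧ M.getD m 0 ∈
      (I.men.getD m []).take ((I.men.getD m []).idxOf w)} =
      {M : List ℕ | I.Stable M ∧ Before (I.men.getD m []) (M.getD m 0) w} := by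
    ext M
    simp only [Set.mem_setOf_eq]
    refine and_congr_right fun hM => ?_
    rw [mem_take_idx (hmem' M hM)]
    rfl
  have e2 : {M : List ℕ | I.Stable M ∧ M.getD m 0 ∈
      (I.men.getD m []).take ((I.men.getD m []).idxOf w + 1)} =
      {M : List ℕ | I.Stable M ∧ ¬ Before (I.men.getD m []) w (M.getD m 0)} := by
    ext M
    simp only [Set.mem_setOf_eq]
    refine and_congr_right fun hM => ?_
    rw [mem_take_idx (hmem' M hM), Before]
    omega
  rw [e1, e2]

/-- Generalised median stable matchings are recognised by comparing numbers. -/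
theorem isMedian_iff_lt {I : SM} (hI : I.Valid) {M : List ℕ} (hM : I.Stable M) :
    I.IsMedian M ↔ ∀ m < I.size, ∀ m' < I.size, cLt I m (M.getD m 0) < cLe I m' (M.getD m' 0) := by
  constructor
  · rintro ⟨j, -, h⟩ m hm m' hm'
    have h1 := (partners_get_iff hI hm (stable_lt hM hm) j).1 (h m hm)
    have h2 := (partners_get_iff hI hm' (stable_lt hM hm') j).1 (h m' hm')
    omega
  · intro h
    have hs : 0 < {M : List ℕ | I.Stable M}.ncard :=
      (Set.ncard_pos (stable_finite I)).2 ⟨M, hM⟩
    rcases Nat.eq_zero_or_pos I.size with h0 | h0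
    · exact ⟨0, hs, fun m hm => by omega⟩
    · obtain ⟨m0, hm0, hmax⟩ := Finset.exists_max_image (Finset.range I.size)
        (fun m => cLt I m (M.getD m 0)) ⟨0, Finset.mem_range.2 h0⟩
      have hm0' := Finset.mem_range.1 hm0
      refine ⟨cLt I m0 (M.getD m0 0), ?_, fun m hm => ?_⟩
      · refine lt_of_lt_of_le (h m0 hm0' m0 hm0') ?_
        exact Set.ncard_le_ncard (fun M' hM' => hM'.1) (stable_finite I)
      · rw [partners_get_iff hI hm (stable_lt hM hm)]
        exact ⟨hmax m (Finset.mem_range.2 hm), h m0 hm0' m hm⟩

end Pool.Agent.Work.MP_63b90e_lc
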