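import Pool.Agent.Work.MP_63b90e_lc.Member
import Pool.Agent.Work.PolyTime.PPConj

/-!
Generalised median stable matchings are recognised in PP.
-/

set_option autoImplicit false

namespace Pool.Agent.Work.MP_63b90e_lc

open Pool.Agent.Work.PolyTime

/-- The recognition problem is in PP. -/
theorem gm_inPP : InPP (problem WF Yes) := by
  rw [gm_eq]
  refine InPP.forall_mem cmpr_inPP ?_ ?_
  · refine PTime.parseTest (β := In) PTime.id (t := fun _ a => validB a.1 && stabB a.1 a.2) ?_
    exact PTime.and (PTime.validB (by fun_prop)) (PTime.stabB (by fun_prop) (by fun_prop))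
  · refine PTime.getD (PTime.bind (PTime.parseW PTime.id) (PTime.mkSome ?_)) (PTime.const _)
    exact PTime.cmps.comp PTime.snd

end Pool.Agent.Work.MP_63b90e_lc
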