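import Mathlib

/-!
Cyclic successors in lists, and preference lists with a prescribed beginning.
-/

set_option autoImplicit false

namespace Pool.Agent.Work.MP_63b90e_lc

/-! ### Cyclic successors -/

section

variable {X : Type} [DecidableEq X]

/-- The entry following `k`, cyclically. -/
def nxt (L : List X) (k : X) : X := (L.drop (L.idxOf k + 1)).head?.getD (L.head?.getD k)

theorem nxt_getElem {L : List X} (hL : L.Nodup) {i : ℕ} (hi : i < L.length) :
    nxt L L[i] = L[(i + 1) % L.length]'(Nat.mod_lt _ (by omega)) := by
  rw [nxt, hL.idxOf_getElem i hi, List.head?_drop]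
  by_cases h : i + 1 < L.length
  · rw [List.getElem?_eq_getElem h, Option.getD_some]
    simp only [Nat.mod_eq_of_lt h]
  · have h1 : i + 1 = L.length := by omega
    rw [List.getElem?_eq_none (by omega), Option.getD_none, List.head?_eq_getElem?,
      List.getElem?_eq_getElem (by omega), Option.getD_some]
    simp only [h1, Nat.mod_self]

theorem nxt_mem {L : List X} (hL : L.Nodup) {k : X} (hk : k ∈ L) : nxt L k ∈ L := by
  obtain ⟨i, hi, rfl⟩ := List.getElem_of_mem hk
  rw [nxt_getElem hL hi]
  exact List.getElem_mem _

theorem nxt_reverse_nxt {L : List X} (hL : L.Nodup) {k : X} (hk : k ∈ L) :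
    nxt L.reverse (nxt L k) = k := by
  obtain ⟨i, hi, rfl⟩ := List.getElem_of_mem hk
  rw [nxt_getElem hL hi]
  have hLr : L.reverse.Nodup := List.nodup_reverse.2 hL
  set j := (i + 1) % L.length with hj
  have hjl : j < L.length := Nat.mod_lt _ (by omega)
  have h1 : L[j] = L.reverse[L.length - 1 - j]'(by rw [List.length_reverse]; omega) := by
    rw [List.getElem_reverse]
    congr 1
    omega
  rw [h1, nxt_getElem hLr]
  rw [List.getElem_reverse]
  congr 1
  rw [List.length_reverse]
  by_cases h : i + 1 < L.length
  · have : j = i + 1 := Nat.mod_eq_of_lt h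
    rw [this, Nat.mod_eq_of_lt (by omega)]
    omega
  · have h2 : i + 1 = L.length := by omega
    have : j = 0 := by rw [hj, h2, Nat.mod_self]
    rw [this]
    have h3 : L.length - 1 - 0 + 1 = L.length := by omega
    rw [h3, Nat.mod_self]; omega

theorem nxt_nxt_reverse {L : List X} (hL : L.Nodup) {k : X} (hk : k ∈ L) :
    nxt L (nxt L.reverse k) = k := by
  have h := nxt_reverse_nxt (L := L.reverse) (List.nodup_reverse.2 hL)
    (List.mem_reverse.2 hk)
  rwa [List.reverse_reverse] at h

/-- A function invariant under the cyclic successor is constant. -/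
theorem nxt_const {Y : Type} {L : List X} (hL : L.Nodup) (f : X → Y)
    (hf : ∀ k ∈ L, f (nxt L k) = f k) {a b : X} (ha : a ∈ L) (hb : b ∈ L) : f a = f b := by
  have key : ∀ i (hi : i < L.length), f L[i] = f (L[0]'(by omega)) := by
    intro i
    induction i with
    | zero => intro hi; rfl
    | succ i ih =>
      intro hi
      have h1 := hf L[i] (List.getElem_mem _)
      rw [nxt_getElem hL (by omega)] at h1
      simp only [Nat.mod_eq_of_lt hi] at h1
      rw [h1, ih (by omega)]
  obtain ⟨i, hi, rfl⟩ := List.getElem_of_mem ha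
  obtain ⟨j, hj, rfl⟩ := List.getElem_of_mem hb
  rw [key i hi, key j hj]

end

/-! ### Preference lists -/

/-- The preference list beginning with `s`, followed by the other numbers below `n`. -/
def full (n : ℕ) (s : List ℕ) : List ℕ := s ++ (List.range n).filter fun x => !decide (x ∈ s)

theorem full_perm {n : ℕ} {s : List ℕ} (hs : s.Nodup) (h : ∀ x ∈ s, x < n) :
    (full n s).Perm (List.range n) := by
  rw [List.perm_ext_iff_of_nodup]
  · intro x
    simp only [full, List.mem_append, List.mem_filter, List.mem_range, Bool.not_eq_true',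
      decide_eq_false_iff_not]
    constructor
    · rintro (h1 | h1)
      · exact h x h1
      · exact h1.1
    · intro h1
      by_cases hx : x ∈ s
      · exact Or.inl hx
      · exact Or.inr ⟨h1, hx⟩
  · rw [full, List.nodup_append]
    refine ⟨hs, List.nodup_range.filter _, ?_⟩
    intro a ha b hb hab
    subst hab
    simp [ha] at hb
  · exact List.nodup_range

theorem full_idx_mem {n : ℕ} {s : List ℕ} {x : ℕ} (h : x ∈ s) :
    (full n s).idxOf x = s.idxOf x := List.idxOf_append_of_mem h

theorem full_idx_notMem {n : ℕ} {s : List ℕ} {x : ℕ} (h : x ∉ s) :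
    s.length ≤ (full n s).idxOf x := by
  rw [full, List.idxOf_append_of_notMem h]; omega

/-- Members of the beginning come before the other numbers. -/
theorem full_lt {n : ℕ} {s : List ℕ} {x y : ℕ} (hx : x ∈ s) (hy : y ∉ s) :
    (full n s).idxOf x < (full n s).idxOf y := by
  rw [full_idx_mem hx]
  exact (List.idxOf_lt_length_iff.2 hx).trans_le (full_idx_notMem hy)

/-- Entries before a member of the beginning. -/
theorem full_before {n : ℕ} {s : List ℕ} {x y : ℕ} (hy : y ∈ s)
    (h : (full n s).idxOf x < (full n s).idxOf y) : x ∈ s ∧ s.idxOf x < s.idxOf y := by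
  by_cases hx : x ∈ s
  · rw [full_idx_mem hx, full_idx_mem hy] at h
    exact ⟨hx, h⟩
  · exfalso
    have := full_lt (n := n) hy hx
    omega

end Pool.Agent.Work.MP_63b90e_lc
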