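import Pool.Agent.Work.MP_63b90e_lc.Closure
import Pool.Agent.Work.MP_63b90e_lc.Ring
import Pool.Agent.Work.MP_63b90e_lc.Defs

/-!
An instance of stable marriage whose stable matchings are the closed sets of a graph.
-/

set_option autoImplicit false
set_option linter.unusedSimpArgs false

namespace Pool.Agent.Work.MP_63b90e_lc

open Finset

/-! ### Incidences -/

/-- The vertex of an incidence: `(i, false)` is the first end, `(i, true)` the second end of the
edge `i`. -/
def vt (E : List (ℕ × ℕ)) (x : ℕ × Bool) : ℕ :=
  bif x.2 then ((E.drop x.1).head?.getD (0, 0)).2 else ((E.drop x.1).head?.getD (0, 0)).1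

theorem vt_false {E : List (ℕ × ℕ)} {i : ℕ} (hi : i < E.length) : vt E (i, false) = E[i].1 := by
  simp [vt, List.head?_drop, hi]

theorem vt_true {E : List (ℕ × ℕ)} {i : ℕ} (hi : i < E.length) : vt E (i, true) = E[i].2 := by
  simp [vt, List.head?_drop, hi]

/-- All incidences. -/
def incs (e : ℕ) : List (ℕ × Bool) := (List.range e).flatMap fun i => [(i, false), (i, true)]

theorem mem_incs {e : ℕ} {x : ℕ × Bool} : x ∈ incs e ↔ x.1 < e := by
  obtain ⟨i, b⟩ := x
  simp only [incs, List.mem_flatMap, List.mem_range, List.mem_cons, Prod.mk.injEq,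
    List.not_mem_nil, or_false]
  constructor
  · rintro ⟨j, hj, ⟨rfl, -⟩ | ⟨rfl, -⟩⟩ <;> exact hj
  · intro h
    cases b
    · exact ⟨i, h, Or.inl ⟨rfl, rfl⟩⟩
    · exact ⟨i, h, Or.inr ⟨rfl, rfl⟩⟩

theorem nodup_incs (e : ℕ) : (incs e).Nodup := by
  rw [incs, List.nodup_flatMap]
  constructor
  · intro i _; simp
  · refine List.nodup_range.imp ?_
    intro i j hij
    simp only [Function.onFun]
    rw [List.disjoint_left]
    intro x hx hx'
    simp only [List.mem_cons, List.not_mem_nil, or_false] at hx hx'
    rcases hx with rfl | rfl <;> rcases hx' with h | h <;> simp_all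

/-- The incidences of a vertex. -/
def inc (E : List (ℕ × ℕ)) (p : ℕ) : List (ℕ × Bool) :=
  (incs E.length).filter fun x => decide (vt E x = p)

theorem mem_inc {E : List (ℕ × ℕ)} {p : ℕ} {x : ℕ × Bool} :
    x ∈ inc E p ↔ x.1 < E.length ∧ vt E x = p := by
  simp [inc, mem_incs]

theorem nodup_inc (E : List (ℕ × ℕ)) (p : ℕ) : (inc E p).Nodup := (nodup_incs _).filter _

/-- Cyclic successor and predecessor of an incidence at its vertex. -/
def nx (E : List (ℕ × ℕ)) (x : ℕ × Bool) : ℕ × Bool := nxt (inc E (vt E x)) x
def pv (E : List (ℕ × ℕ)) (x : ℕ × Bool) : ℕ × Bool := nxt (inc E (vt E x)).reverse x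

section

variable {E : List (ℕ × ℕ)} {x y : ℕ × Bool}

theorem nx_mem (hx : x.1 < E.length) : (nx E x).1 < E.length ∧ vt E (nx E x) = vt E x :=
  mem_inc.1 (nxt_mem (nodup_inc E _) (mem_inc.2 ⟨hx, rfl⟩))

theorem pv_mem (hx : x.1 < E.length) : (pv E x).1 < E.length ∧ vt E (pv E x) = vt E x :=
  mem_inc.1 (List.mem_reverse.1 (nxt_mem (List.nodup_reverse.2 (nodup_inc E _))
    (List.mem_reverse.2 (mem_inc.2 ⟨hx, rfl⟩))))

theorem pv_nx (hx : x.1 < E.length) : pv E (nx E x) = x := by
  rw [pv, (nx_mem hx).2]
  exact nxt_reverse_nxt (nodup_inc E _) (mem_inc.2 ⟨hx, rfl⟩)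

theorem nx_pv (hx : x.1 < E.length) : nx E (pv E x) = x := by
  rw [nx, (pv_mem hx).2]
  exact nxt_nxt_reverse (nodup_inc E _) (mem_inc.2 ⟨hx, rfl⟩)

theorem nx_inj (hx : x.1 < E.length) (hy : y.1 < E.length) (h : nx E x = nx E y) : x = y := by
  rw [← pv_nx hx, h, pv_nx hy]

end

/-! ### The instance -/

/-- The number of the dummy man, and of his first woman, of an incidence. -/
def ix (x : ℕ × Bool) : ℕ := 3 * x.1 + (bif x.2 then 2 else 1)

theorem ix_inj {x y : ℕ × Bool} (h : ix x = ix y) : x = y := by
  obtain ⟨i, b⟩ := x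
  obtain ⟨j, c⟩ := y
  simp only [ix] at h
  cases b <;> cases c <;> simp at h ⊢ <;> omega

theorem ix_false (i : ℕ) : ix (i, false) = 3 * i + 1 := rfl
theorem ix_true (i : ℕ) : ix (i, true) = 3 * i + 2 := rfl

theorem ix_ne (x : ℕ × Bool) (i : ℕ) : ix x ≠ 3 * i := by
  obtain ⟨j, b⟩ := x
  cases b <;> simp [ix] <;> omega

theorem ix_lt {x : ℕ × Bool} {e : ℕ} (h : x.1 < e) : ix x < 3 * e := by
  obtain ⟨j, b⟩ := x
  cases b <;> simp [ix] at * <;> omega

theorem exists_ix (w : ℕ) : (∃ i, w = 3 * i) ∨ ∃ x, w = ix x := by
  have h : w % 3 = 0 ∨ w % 3 = 1 ∨ w % 3 = 2 := by omega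
  rcases h with h | h | h
  · exact Or.inl ⟨w / 3, by omega⟩
  · exact Or.inr ⟨(w / 3, false), by rw [ix_false]; omega⟩
  · exact Or.inr ⟨(w / 3, true), by rw [ix_true]; omega⟩

theorem ix_lt' {x : ℕ × Bool} {e : ℕ} (h : ix x < 3 * e) : x.1 < e := by
  obtain ⟨j, b⟩ := x
  cases b <;> simp [ix] at * <;> omega

section

variable (E : List (ℕ × ℕ))

/-- The beginnings of the preference lists. -/
def smA (i : ℕ) : List ℕ := [3 * i, ix (nx E (i, false)), ix (nx E (i, true))]
def smB (i : ℕ) : List ℕ := [3 * i + 1, 3 * i]
def smC (i : ℕ) : List ℕ := [3 * i + 2, ix (nx E (i, false))]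
def swA (i : ℕ) : List ℕ := [3 * i + 1, 3 * i]
def swX (x : ℕ × Bool) : List ℕ :=
  bif (pv E x).2 then [3 * (pv E x).1, ix x] else [3 * (pv E x).1 + 2, 3 * (pv E x).1, ix x]

/-- The instance. -/
def mkSM : SM where
  men := (List.range E.length).flatMap fun i =>
    [full (3 * E.length) (smA E i), full (3 * E.length) (smB i), full (3 * E.length) (smC E i)]
  women := (List.range E.length).flatMap fun i =>
    [full (3 * E.length) (swA i), full (3 * E.length) (swX E (i, false)),
      full (3 * E.length) (swX E (i, true))]

/-- The matching of a set of vertices. -/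
def matD (D : Finset ℕ) : List ℕ := (List.range E.length).flatMap fun i =>
  [if vt E (i, true) ∈ D then ix (nx E (i, true)) else
    if vt E (i, false) ∈ D then ix (nx E (i, false)) else 3 * i,
   if vt E (i, false) ∈ D then 3 * i else 3 * i + 1,
   if vt E (i, true) ∈ D then ix (nx E (i, false)) else 3 * i + 2]

end

theorem flat3_length {X : Type} (e : ℕ) (a b c : ℕ → X) :
    ((List.range e).flatMap fun i => [a i, b i, c i]).length = 3 * e := by
  induction e with
  | zero => rfl
  | succ e ih =>
    rw [List.range_succ, List.flatMap_append, List.length_append, ih]; simp; omega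

theorem flat3_get {X : Type} (e : ℕ) (a b c : ℕ → X) (d : X) {i : ℕ} (hi : i < e) :
    ((List.range e).flatMap fun i => [a i, b i, c i]).getD (3 * i) d = a i ∧
    ((List.range e).flatMap fun i => [a i, b i, c i]).getD (3 * i + 1) d = b i ∧
    ((List.range e).flatMap fun i => [a i, b i, c i]).getD (3 * i + 2) d = c i := by
  simp only [List.getD_eq_getElem?_getD]
  induction e with
  | zero => omega
  | succ e ih =>
    have hl := flat3_length e a b c
    rw [List.range_succ, List.flatMap_append]
    rcases Nat.lt_succ_iff_lt_or_eq.1 hi with h | rfl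
    · rw [List.getElem?_append_left (by rw [hl]; omega),
        List.getElem?_append_left (by rw [hl]; omega),
        List.getElem?_append_left (by rw [hl]; omega)]
      exact ih h
    · rw [List.getElem?_append_right (by rw [hl]), List.getElem?_append_right (by rw [hl]; omega),
        List.getElem?_append_right (by rw [hl]; omega), hl]
      have h1 : 3 * i + 1 - 3 * i = 1 := by omega
      have h2 : 3 * i + 2 - 3 * i = 2 := by omega
      rw [Nat.sub_self, h1, h2]
      simp

section

variable {E : List (ℕ × ℕ)}

theorem size_mkSM : (mkSM E).size = 3 * E.length := flat3_length _ _ _ _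

theorem men_get {i : ℕ} (hi : i < E.length) :
    (mkSM E).men.getD (3 * i) [] = full (3 * E.length) (smA E i) ∧
    (mkSM E).men.getD (3 * i + 1) [] = full (3 * E.length) (smB i) ∧
    (mkSM E).men.getD (3 * i + 2) [] = full (3 * E.length) (smC E i) :=
  flat3_get _ _ _ _ _ hi

theorem women_get {i : ℕ} (hi : i < E.length) :
    (mkSM E).women.getD (3 * i) [] = full (3 * E.length) (swA i) := (flat3_get _ _ _ _ _ hi).1

theorem women_ix {x : ℕ × Bool} (hx : x.1 < E.length) :
    (mkSM E).women.getD (ix x) [] = full (3 * E.length) (swX E x) := by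
  obtain ⟨i, b⟩ := x
  cases b
  · exact (flat3_get _ _ _ _ _ hx).2.1
  · exact (flat3_get _ _ _ _ _ hx).2.2

theorem matD_length (D : Finset ℕ) : (matD E D).length = 3 * E.length := flat3_length _ _ _ _

theorem matD_A (D : Finset ℕ) {i : ℕ} (hi : i < E.length) : (matD E D).getD (3 * i) 0 =
    if vt E (i, true) ∈ D then ix (nx E (i, true)) else
    if vt E (i, false) ∈ D then ix (nx E (i, false)) else 3 * i := (flat3_get _ _ _ _ _ hi).1

theorem matD_B (D : Finset ℕ) {i : ℕ} (hi : i < E.length) : (matD E D).getD (3 * i + 1) 0 =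
    if vt E (i, false) ∈ D then 3 * i else 3 * i + 1 := (flat3_get _ _ _ _ _ hi).2.1

theorem matD_C (D : Finset ℕ) {i : ℕ} (hi : i < E.length) : (matD E D).getD (3 * i + 2) 0 =
    if vt E (i, true) ∈ D then ix (nx E (i, false)) else 3 * i + 2 :=
  (flat3_get _ _ _ _ _ hi).2.2

/-- Edges are increasing. -/
def Incr (E : List (ℕ × ℕ)) : Prop := ∀ e ∈ E, e.1 < e.2

theorem vt_lt (hE : Incr E) {i : ℕ} (hi : i < E.length) : vt E (i, false) < vt E (i, true) := by
  rw [vt_false hi, vt_true hi]
  exact hE _ (List.getElem_mem hi)

theorem closed_iff {D : Finset ℕ} : Closed E D ↔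
    ∀ i < E.length, vt E (i, true) ∈ D → vt E (i, false) ∈ D := by
  constructor
  · intro h i hi
    rw [vt_false hi, vt_true hi]
    exact h _ (List.getElem_mem hi)
  · intro h e he h2
    obtain ⟨i, hi, rfl⟩ := List.getElem_of_mem he
    have := h i hi
    rw [vt_false hi, vt_true hi] at this
    exact this h2

/-! ### Validity -/

theorem nx_ne (hE : Incr E) {i : ℕ} (hi : i < E.length) :
    nx E (i, false) ≠ nx E (i, true) := by
  intro h
  have := nx_inj (x := (i, false)) (y := (i, true)) hi hi h
  simp at this

theorem nx_ne' (hE : Incr E) {i : ℕ} (hi : i < E.length) : nx E (i, false) ≠ (i, true) := by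
  intro h
  have h1 := (nx_mem (E := E) (x := (i, false)) hi).2
  rw [h] at h1
  have := vt_lt hE hi
  omega

theorem mkSM_valid (hE : Incr E) : (mkSM E).Valid := by
  refine ⟨?_, ?_, ?_⟩
  · rw [size_mkSM]; exact flat3_length _ _ _ _
  · intro l hl
    rw [size_mkSM]
    simp only [mkSM, List.mem_flatMap, List.mem_range, List.mem_cons, List.not_mem_nil,
      or_false] at hl
    obtain ⟨i, hi, hl⟩ := hl
    have h1 := (nx_mem (E := E) (x := (i, false)) hi).1
    have h2 := (nx_mem (E := E) (x := (i, true)) hi).1
    have h3 := ix_lt h1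
    have h4 := ix_lt h2
    rcases hl with rfl | rfl | rfl
    · refine full_perm ?_ ?_
      · simp only [smA, List.nodup_cons, List.mem_cons, List.not_mem_nil, or_false, not_or,
          List.nodup_nil, and_true, not_false_eq_true]
        exact ⟨⟨(ix_ne _ _).symm, (ix_ne _ _).symm⟩, fun h => nx_ne hE hi (ix_inj h)⟩
      · intro x hx
        simp only [smA, List.mem_cons, List.not_mem_nil, or_false] at hx
        rcases hx with rfl | rfl | rfl <;> omega
    · refine full_perm ?_ ?_
      · simp [smB]
      · intro x hx
        simp only [smB, List.mem_cons, List.not_mem_nil, or_false] at hx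
        rcases hx with rfl | rfl <;> omega
    · refine full_perm ?_ ?_
      · simp only [smC, List.nodup_cons, List.mem_cons, List.not_mem_nil, or_false, not_or,
          List.nodup_nil, and_true, not_false_eq_true]
        intro h
        rw [← ix_true] at h
        exact nx_ne' hE hi (ix_inj h).symm
      · intro x hx
        simp only [smC, List.mem_cons, List.not_mem_nil, or_false] at hx
        rcases hx with rfl | rfl <;> omega
  · intro l hl
    rw [size_mkSM]
    simp only [mkSM, List.mem_flatMap, List.mem_range, List.mem_cons, List.not_mem_nil,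
      or_false] at hl
    obtain ⟨i, hi, hl⟩ := hl
    have key : ∀ b, (full (3 * E.length) (swX E (i, b))).Perm (List.range (3 * E.length)) := by
      intro b
      have h1 := pv_mem (E := E) (x := (i, b)) hi
      have h2 := ix_lt (x := (i, b)) hi
      have h3 := nx_pv (E := E) (x := (i, b)) hi
      cases hp : pv E (i, b) with
      | mk j c =>
        rw [hp] at h1 h3
        cases c
        · refine full_perm ?_ ?_
          · simp only [swX, hp, cond_false, List.nodup_cons, List.mem_cons, List.not_mem_nil,
              or_false, not_or, List.nodup_nil, and_true, not_false_eq_true]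
            refine ⟨⟨by omega, ?_⟩, (ix_ne _ _).symm⟩
            intro h
            rw [← ix_true] at h
            rw [← ix_inj h] at h3
            exact nx_ne' hE h1.1 h3
          · intro x hx
            simp only [swX, hp, cond_false, List.mem_cons, List.not_mem_nil, or_false] at hx
            have := h1.1
            simp only at this
            rcases hx with rfl | rfl | rfl <;> omega
        · refine full_perm ?_ ?_
          · simp only [swX, hp, cond_true, List.nodup_cons, List.mem_cons, List.not_mem_nil,
              or_false, not_or, List.nodup_nil, and_true, not_false_eq_true]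
            exact (ix_ne _ _).symm
          · intro x hx
            simp only [swX, hp, cond_true, List.mem_cons, List.not_mem_nil, or_false] at hx
            have := h1.1
            simp only at this
            rcases hx with rfl | rfl <;> omega
    rcases hl with rfl | rfl | rfl
    · refine full_perm ?_ ?_
      · simp [swA]
      · intro x hx
        simp only [swA, List.mem_cons, List.not_mem_nil, or_false] at hx
        rcases hx with rfl | rfl <;> omega
    · exact key false
    · exact key true

end

/-! ### Matchings as functions -/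

theorem perm_facts {n : ℕ} {M : List ℕ} (h : M.Perm (List.range n)) :
    (∀ m < n, M.getD m 0 < n ∧ M.idxOf (M.getD m 0) = m) ∧
    (∀ w < n, M.idxOf w < n ∧ M.getD (M.idxOf w) 0 = w) := by
  have hl : M.length = n := by rw [h.length_eq, List.length_range]
  have hn : M.Nodup := h.nodup_iff.2 List.nodup_range
  constructor
  · intro m hm
    have hm' : m < M.length := by omega
    have h1 : M.getD m 0 = M[m] := by
      rw [List.getD_eq_getElem?_getD, List.getElem?_eq_getElem hm', Option.getD_some]
    rw [h1]
    refine ⟨?_, hn.idxOf_getElem m hm'⟩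
    have := h.mem_iff.1 (List.getElem_mem hm')
    exact List.mem_range.1 this
  · intro w hw
    have h1 : w ∈ M := h.mem_iff.2 (List.mem_range.2 hw)
    have h2 := List.idxOf_lt_length_iff.2 h1
    refine ⟨by omega, ?_⟩
    rw [List.getD_eq_getElem?_getD, List.getElem?_eq_getElem h2, Option.getD_some]
    exact List.getElem_idxOf h2

theorem perm_of_surj {n : ℕ} {M : List ℕ} (hl : M.length = n)
    (h : ∀ w < n, ∃ m < n, M.getD m 0 = w) : M.Perm (List.range n) := by
  symm
  refine (List.subperm_of_subset List.nodup_range ?_).perm_of_length_le ?_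
  · intro w hw
    obtain ⟨m, hm, rfl⟩ := h w (List.mem_range.1 hw)
    rw [List.getD_eq_getElem?_getD, List.getElem?_eq_getElem (by omega), Option.getD_some]
    exact List.getElem_mem _
  · rw [List.length_range]; omega

end Pool.Agent.Work.MP_63b90e_lc
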