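import Pool.Agent.Work.MP_63b90e_lc.Converse

/-!
Generalised median stable matchings of the instance.
-/

set_option autoImplicit false
set_option linter.unusedSimpArgs false

namespace Pool.Agent.Work.MP_63b90e_lc

open Finset

/-- The number of closed sets that do not contain `p`. -/
def cbar (G : CG) (p : ℕ) : ℕ := ((closedSets G).filter fun D => p ∉ D).card

section

variable {N : ℕ} {E : List (ℕ × ℕ)}

/-- Every vertex is an end of an edge, and edges join vertices. -/
structure Nice (N : ℕ) (E : List (ℕ × ℕ)) : Prop where
  incr : Incr E
  lt : ∀ x : ℕ × Bool, x.1 < E.length → vt E x < N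
  ex : ∀ p < N, ∃ x : ℕ × Bool, x.1 < E.length ∧ vt E x = p

/-- The matching determines the set. -/
theorem matD_mem (hE : Incr E) {D D' : Finset ℕ}
    (h : ∀ m < 3 * E.length, (matD E D).getD m 0 = (matD E D').getD m 0) {x : ℕ × Bool}
    (hx : x.1 < E.length) : vt E x ∈ D ↔ vt E x ∈ D' := by
  obtain ⟨i, b⟩ := x
  have hi : i < E.length := hx
  cases b
  · have h1 := h (3 * i + 1) (by omega)
    rw [matD_B D hi, matD_B D' hi] at h1
    by_cases h2 : vt E (i, false) ∈ D <;> by_cases h3 : vt E (i, false) ∈ D' <;>
      simp only [h2, h3, if_true, if_false] at h1 ⊢ <;> omega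
  · have h1 := h (3 * i + 2) (by omega)
    have hne2 : 3 * i + 2 ≠ ix (nx E (i, false)) := by
      rw [← ix_true]; intro h; exact nx_ne' hE hi (ix_inj h).symm
    rw [matD_C D hi, matD_C D' hi] at h1
    by_cases h2 : vt E (i, true) ∈ D <;> by_cases h3 : vt E (i, true) ∈ D' <;>
      simp only [h2, h3, if_true, if_false] at h1 ⊢ <;> omega

theorem matD_ext (h : Nice N E) {D D' : Finset ℕ} (hD : D ⊆ range N) (hD' : D' ⊆ range N)
    (hm : ∀ m < 3 * E.length, (matD E D).getD m 0 = (matD E D').getD m 0) : D = D' := by
  ext p
  constructor
  · intro hp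
    obtain ⟨x, hx, rfl⟩ := h.ex p (mem_range.1 (hD hp))
    exact (matD_mem h.incr hm hx).1 hp
  · intro hp
    obtain ⟨x, hx, rfl⟩ := h.ex p (mem_range.1 (hD' hp))
    exact (matD_mem h.incr hm hx).2 hp

theorem closedSets_sub {G : CG} {D : Finset ℕ} (h : D ∈ closedSets G) : D ⊆ range G.1 :=
  fun v hv => mem_range.2 ((mem_closedSets.1 h).1 v hv)

/-- The stable matchings. -/
theorem stable_set (h : Nice N E) (P : List ℕ → Prop) [DecidablePred P] :
    {M : List ℕ | (mkSM E).Stable M ∧ P M} =
      ↑(((closedSets (N, E)).filter fun D => P (matD E D)).image (matD E)) := by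
  ext M
  simp only [Set.mem_setOf_eq, coe_image, coe_filter, Set.mem_image]
  constructor
  · rintro ⟨h1, h2⟩
    obtain ⟨D, hD, hD', rfl⟩ := stable_eq h.incr h.lt h1
    exact ⟨D, ⟨mem_closedSets.2 ⟨fun v hv => mem_range.1 (hD hv), hD'⟩, h2⟩, rfl⟩
  · rintro ⟨D, ⟨h1, h2⟩, rfl⟩
    exact ⟨matD_stable h.incr (mem_closedSets.1 h1).2, h2⟩

theorem stable_ncard (h : Nice N E) (P : List ℕ → Prop) [DecidablePred P] :
    {M : List ℕ | (mkSM E).Stable M ∧ P M}.ncard =
      ((closedSets (N, E)).filter fun D => P (matD E D)).card := by
  rw [stable_set h P, Set.ncard_coe_finset, card_image_of_injOn]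
  intro D hD D' hD' hDD
  simp only [coe_filter, Set.mem_setOf_eq] at hD hD'
  exact matD_ext h (closedSets_sub hD.1) (closedSets_sub hD'.1) (fun m _ => by rw [hDD])

theorem stable_total (h : Nice N E) :
    {M : List ℕ | (mkSM E).Stable M}.ncard = cnt (N, E) := by
  have h1 := stable_ncard h (fun _ => True)
  simpa [cnt] using h1

/-! ### Lists of partners -/

theorem flatMap_full {n : ℕ} {s : List ℕ} (k : ℕ → ℕ) (h : ∀ w, w ∉ s → k w = 0) :
    (full n s).flatMap (fun w => List.replicate (k w) w) =
      s.flatMap (fun w => List.replicate (k w) w) := by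
  rw [full, List.flatMap_append]
  have : ((List.range n).filter fun x => !decide (x ∈ s)).flatMap
      (fun w => List.replicate (k w) w) = [] := by
    rw [List.flatMap_eq_nil_iff]
    intro w hw
    simp only [List.mem_filter, Bool.not_eq_true', decide_eq_false_iff_not] at hw
    rw [h w hw.2]; rfl
  rw [this, List.append_nil]

theorem get_two {a b : ℕ} {k1 k2 j : ℕ} (hj : j < k1 + k2) :
    (List.replicate k1 a ++ (List.replicate k2 b ++ []))[j]? =
      some (if k1 ≤ j then b else a) := by
  by_cases h : j < k1
  · rw [List.getElem?_append_left (by simpa using h), List.getElem?_replicate, if_pos h,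
      if_neg (by omega)]
  · rw [List.getElem?_append_right (by simpa using h), if_pos (by omega), List.append_nil,
      List.length_replicate, List.getElem?_replicate, if_pos (by omega)]

theorem get_three {a b c : ℕ} {k1 k2 k3 j : ℕ} (hj : j < k1 + k2 + k3) :
    (List.replicate k1 a ++ (List.replicate k2 b ++ (List.replicate k3 c ++ [])))[j]? =
      some (if k1 + k2 ≤ j then c else if k1 ≤ j then b else a) := by
  by_cases h : j < k1
  · rw [List.getElem?_append_left (by simpa using h), List.getElem?_replicate, if_pos h,
      if_neg (by omega), if_neg (by omega)]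
  · rw [List.getElem?_append_right (by simpa using h), List.length_replicate, get_two (by omega)]
    by_cases h2 : k1 + k2 ≤ j
    · rw [if_pos h2, if_pos (by omega)]
    · rw [if_neg h2, if_neg (by omega), if_pos (by omega)]

theorem filter_split {X : Type} (s : Finset X) (P Q : X → Prop) [DecidablePred P]
    [DecidablePred Q] :
    (s.filter P).card = (s.filter fun x => P x ∧ Q x).card + (s.filter fun x => P x ∧ ¬ Q x).card := by
  rw [← card_filter_add_card_filter_not (s := s.filter P) Q, filter_filter, filter_filter]

/-- The `j`-th median set. -/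
def medS (N : ℕ) (E : List (ℕ × ℕ)) (j : ℕ) : Finset ℕ :=
  (range N).filter fun p => cbar (N, E) p ≤ j

theorem partners_get (h : Nice N E) {j : ℕ} (hj : j < cnt (N, E)) {m : ℕ}
    (hm : m < 3 * E.length) :
    ((mkSM E).partners m)[j]? = some ((matD E (medS N E j)).getD m 0) := by
  classical
  have hk : ∀ m w, {M : List ℕ | (mkSM E).Stable M ∧ M.getD m 0 = w}.ncard =
      ((closedSets (N, E)).filter fun D => (matD E D).getD m 0 = w).card :=
    fun m w => stable_ncard h (fun M => M.getD m 0 = w)
  have hmed : ∀ x : ℕ × Bool, x.1 < E.length →
      (vt E x ∈ medS N E j ↔ cbar (N, E) (vt E x) ≤ j) := by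
    intro x hx
    simp only [medS, mem_filter, mem_range, and_iff_right (h.lt x hx)]
  have htot : ∀ p, cbar (N, E) p + ((closedSets (N, E)).filter fun D => p ∈ D).card =
      cnt (N, E) := by
    intro p
    have := card_filter_add_card_filter_not (s := closedSets (N, E)) (fun D => p ∉ D)
    simp only [not_not] at this
    exact this
  unfold SM.partners
  rcases exists_ix m with ⟨i, rfl⟩ | ⟨⟨i, b⟩, rfl⟩
  · have hi : i < E.length := by omega
    have hne := nx_ne h.incr hi
    have hne1 : ix (nx E (i, false)) ≠ ix (nx E (i, true)) := fun h => hne (ix_inj h)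
    have hne3 := ix_ne (nx E (i, false)) i
    have hne4 := ix_ne (nx E (i, true)) i
    rw [(men_get hi).1, flatMap_full]
    · simp only [smA, List.flatMap_cons, List.flatMap_nil]
      have k1 : {M : List ℕ | (mkSM E).Stable M ∧ M.getD (3 * i) 0 = 3 * i}.ncard =
          cbar (N, E) (vt E (i, false)) := by
        rw [hk, cbar]
        congr 1
        refine filter_congr fun D hD => ?_
        have hcl := closed_iff.1 (mem_closedSets.1 hD).2 i hi
        rw [matD_A D hi]
        by_cases h1 : vt E (i, true) ∈ D
        · simp [h1, hcl h1, hne4]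
        · by_cases h2 : vt E (i, false) ∈ D
          · simp [h1, h2, hne3]
          · simp [h1, h2]
      have k3 : {M : List ℕ | (mkSM E).Stable M ∧
          M.getD (3 * i) 0 = ix (nx E (i, true))}.ncard =
          ((closedSets (N, E)).filter fun D => vt E (i, true) ∈ D).card := by
        rw [hk]
        congr 1
        refine filter_congr fun D hD => ?_
        rw [matD_A D hi]
        by_cases h1 : vt E (i, true) ∈ D
        · simp [h1]
        · by_cases h2 : vt E (i, false) ∈ D
          · simp [h1, h2, hne1]
          · simp [h1, h2, hne4.symm]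
      have k2 : cbar (N, E) (vt E (i, false)) + {M : List ℕ | (mkSM E).Stable M ∧
          M.getD (3 * i) 0 = ix (nx E (i, false))}.ncard =
          cbar (N, E) (vt E (i, true)) := by
        rw [hk, cbar, cbar]
        have h1 := filter_split (closedSets (N, E)) (fun D => vt E (i, true) ∉ D)
          (fun D => vt E (i, false) ∉ D)
        rw [h1]
        congr 2
        · refine filter_congr fun D hD => ?_
          have hcl := closed_iff.1 (mem_closedSets.1 hD).2 i hi
          tauto
        · refine filter_congr fun D hD => ?_
          rw [matD_A D hi]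
          by_cases h1 : vt E (i, true) ∈ D
          · simp [h1, hne1.symm]
          · by_cases h2 : vt E (i, false) ∈ D
            · simp [h1, h2]
            · simp [h1, h2, hne3.symm]
      have h3 := htot (vt E (i, true))
      rw [get_three (by rw [k1, k3]; omega), k1, k2, matD_A _ hi]
      simp only [hmed (i, true) hi, hmed (i, false) hi]
    · intro w hw
      rw [hk, card_eq_zero, filter_eq_empty_iff]
      intro D hD
      simp only [smA, List.mem_cons, List.not_mem_nil, or_false, not_or] at hw
      rw [matD_A D hi]
      split_ifs
      · exact fun h => hw.2.2 h.symm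
      · exact fun h => hw.2.1 h.symm
      · exact fun h => hw.1 h.symm
  · have hi : i < E.length := ix_lt' (by omega : ix (i, b) < 3 * E.length)
    have hne2 : 3 * i + 2 ≠ ix (nx E (i, false)) := by
      rw [← ix_true]; intro h'; exact nx_ne' h.incr hi (ix_inj h').symm
    cases b
    · rw [ix_false, (men_get hi).2.1, flatMap_full]
      · simp only [smB, List.flatMap_cons, List.flatMap_nil]
        have k1 : {M : List ℕ | (mkSM E).Stable M ∧ M.getD (3 * i + 1) 0 = 3 * i + 1}.ncard =
            cbar (N, E) (vt E (i, false)) := by
          rw [hk, cbar]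
          congr 1
          refine filter_congr fun D hD => ?_
          rw [matD_B D hi]
          by_cases h1 : vt E (i, false) ∈ D
          · simp [h1]
          · simp [h1]
        have k2 : {M : List ℕ | (mkSM E).Stable M ∧ M.getD (3 * i + 1) 0 = 3 * i}.ncard =
            ((closedSets (N, E)).filter fun D => vt E (i, false) ∈ D).card := by
          rw [hk]
          congr 1
          refine filter_congr fun D hD => ?_
          rw [matD_B D hi]
          by_cases h1 : vt E (i, false) ∈ D
          · simp [h1]
          · simp [h1]
        have h3 := htot (vt E (i, false))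
        rw [get_two (by rw [k1, k2]; omega), k1, matD_B _ hi]
        simp only [hmed (i, false) hi]
      · intro w hw
        rw [hk, card_eq_zero, filter_eq_empty_iff]
        intro D hD
        simp only [smB, List.mem_cons, List.not_mem_nil, or_false, not_or] at hw
        rw [matD_B D hi]
        split_ifs
        · exact fun h => hw.2 h.symm
        · exact fun h => hw.1 h.symm
    · rw [ix_true, (men_get hi).2.2, flatMap_full]
      · simp only [smC, List.flatMap_cons, List.flatMap_nil]
        have k1 : {M : List ℕ | (mkSM E).Stable M ∧ M.getD (3 * i + 2) 0 = 3 * i + 2}.ncard =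
            cbar (N, E) (vt E (i, true)) := by
          rw [hk, cbar]
          congr 1
          refine filter_congr fun D hD => ?_
          rw [matD_C D hi]
          by_cases h1 : vt E (i, true) ∈ D
          · simp [h1, hne2.symm]
          · simp [h1]
        have k2 : {M : List ℕ | (mkSM E).Stable M ∧
            M.getD (3 * i + 2) 0 = ix (nx E (i, false))}.ncard =
            ((closedSets (N, E)).filter fun D => vt E (i, true) ∈ D).card := by
          rw [hk]
          congr 1
          refine filter_congr fun D hD => ?_
          rw [matD_C D hi]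
          by_cases h1 : vt E (i, true) ∈ D
          · simp [h1]
          · simp [h1, hne2]
        have h3 := htot (vt E (i, true))
        rw [get_two (by rw [k1, k2]; omega), k1, matD_C _ hi]
        simp only [hmed (i, true) hi]
      · intro w hw
        rw [hk, card_eq_zero, filter_eq_empty_iff]
        intro D hD
        simp only [smC, List.mem_cons, List.not_mem_nil, or_false, not_or] at hw
        rw [matD_C D hi]
        split_ifs
        · exact fun h => hw.2 h.symm
        · exact fun h => hw.1 h.symm

/-- Generalised median stable matchings in terms of closed sets. -/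
theorem isMedian_iff (h : Nice N E) {S : Finset ℕ} (hS : S ⊆ range N) :
    (mkSM E).IsMedian (matD E S) ↔ ∃ j < cnt (N, E), medS N E j = S := by
  unfold SM.IsMedian
  rw [stable_total h, size_mkSM]
  refine exists_congr fun j => and_congr_right fun hj => ?_
  constructor
  · intro h1
    refine matD_ext h (filter_subset _ _) hS ?_
    intro m hm
    have h2 := h1 m hm
    rw [partners_get h hj hm] at h2
    exact Option.some.inj h2
  · rintro rfl m hm
    exact partners_get h hj hm

end

end Pool.Agent.Work.MP_63b90e_lc
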