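import Pool.Agent.Work.MP_63b90e_lc.Check
import Pool.Agent.Work.MP_63b90e_lc.General

/-!
If PP is contained in NP, then generalised median stable matchings are recognised in NP.
-/

set_option autoImplicit false
set_option linter.unusedSimpArgs false

namespace Pool.Agent.Work.MP_63b90e_lc

open Pool.Agent.Work.PolyTime

/-! ### Padding -/

/-- Removal of the leading zeros and of the first one. -/
def unpad : List Bool → List Bool
  | [] => []
  | false :: w => unpad w
  | true :: w => w

theorem unpad_pad (k : ℕ) (v : List Bool) : unpad (List.replicate k false ++ true :: v) = v := by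
  induction k with
  | zero => rfl
  | succ k ih => rw [List.replicate_succ, List.cons_append, unpad, ih]

theorem unpad_eq {y v : List Bool} (hv : v ≠ []) (h : unpad y = v) :
    ∃ k, y = List.replicate k false ++ true :: v := by
  induction y with
  | nil => exact absurd h.symm hv
  | cons b y ih =>
    cases b
    · obtain ⟨k, hk⟩ := ih h
      exact ⟨k + 1, by rw [List.replicate_succ, List.cons_append, ← hk]⟩
    · exact ⟨0, by rw [← h]; rfl⟩

theorem unpad_foldl (w : List Bool) : ∀ l : List Bool,
    (w.foldl (fun (s : Bool × List Bool) b => bif s.1 then (true, b :: s.2) else (b, s.2))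
      (true, l)).2.reverse = l.reverse ++ w := by
  induction w with
  | nil => intro l; simp
  | cons b w ih => intro l; rw [List.foldl_cons]; simp only [cond_true, ih]; simp

theorem unpad_foldl' (w : List Bool) :
    (w.foldl (fun (s : Bool × List Bool) b => bif s.1 then (true, b :: s.2) else (b, s.2))
      (false, [])).2.reverse = unpad w := by
  induction w with
  | nil => rfl
  | cons b w ih =>
    cases b
    · exact ih
    · rw [List.foldl_cons]
      exact (unpad_foldl w []).trans (by simp [unpad])

theorem PTime.unpad {α : Type} [Code α] {w : α → List Bool} (hw : PTime w) :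
    PTime (fun x => MP_63b90e_lc.unpad (w x)) := by
  have h : PTime (fun x => ((w x).foldl (fun s b =>
      (fun y : α × (Bool × List Bool) × Bool =>
        bif y.2.1.1 then (true, y.2.2 :: y.2.1.2) else (y.2.2, y.2.1.2)) (x, s, b))
      (false, [])).2.reverse) := by
    refine PTime.reverse (PTime.snd.comp (PTime.foldlGrow
      (f := fun y : α × (Bool × List Bool) × Bool =>
        bif y.2.1.1 then (true, y.2.2 :: y.2.1.2) else (y.2.2, y.2.1.2)) hw (PTime.const _)
      (by fun_prop) (G := fun _ => 6) (PB.const 6) ?_))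
    rintro x b _ ⟨s, l⟩
    have h1 := sz_bool b
    cases s
    · simp; omega
    · simp; omega
  exact h.code_congr fun x => unpad_foldl' _

theorem ncard_unpad {S : Set (List ℕ)} {m : ℕ} (hS : ∀ M ∈ S, sz M < m) :
    {y : List Bool | y.length = m ∧ ∃ M : List ℕ, unpad y = (code M).ser ∧ M ∈ S}.ncard =
      S.ncard := by
  symm
  have hne : ∀ M : List ℕ, (code M).ser ≠ [] := fun M h => by
    have := sz_pos M
    rw [sz, h] at this
    simp at this
  refine Set.ncard_congr (fun M _ => List.replicate (m - 1 - sz M) false ++ true :: (code M).ser)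
    ?_ ?_ ?_
  · intro M hM
    have := hS M hM
    refine ⟨?_, M, unpad_pad _ _, hM⟩
    have e : (code M).ser.length = sz M := rfl
    simp only [List.length_append, List.length_replicate, List.length_cons, e]
    omega
  · intro M M' hM hM' h
    have h1 := congrArg unpad h
    simp only [unpad_pad] at h1
    exact LawfulCode.inj (T.ser_inj h1)
  · rintro y ⟨hy, M, h1, h2⟩
    refine ⟨M, h2, ?_⟩
    obtain ⟨k, hk⟩ := unpad_eq (hne M) h1
    have e : (code M).ser.length = sz M := rfl
    rw [hk] at hy
    simp only [List.length_append, List.length_replicate, List.length_cons, e] at hy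
    have : m - 1 - sz M = k := by omega
    simp only [this, hk]

/-! ### Comparison of the numbers -/

abbrev In : Type := (List (List ℕ) × List (List ℕ)) × List ℕ

/-- The comparison language. -/
def Cmpr : Set (List Bool) := {w | ∃ b : In × (ℕ × ℕ), w = (code b).ser ∧
  cLt (smOf b.1.1) b.2.1 (b.1.2.getD b.2.1 0) < cLe (smOf b.1.1) b.2.2 (b.1.2.getD b.2.2 0)}

def t1 (b : In × (ℕ × ℕ)) (M : List ℕ) : Bool :=
  stabB b.1.1 M && befB (b.1.1.1.getD b.2.1 []) (M.getD b.2.1 0) (b.1.2.getD b.2.1 0)

def t2 (b : In × (ℕ × ℕ)) (M : List ℕ) : Bool :=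
  stabB b.1.1 M && !befB (b.1.1.1.getD b.2.2 []) (b.1.2.getD b.2.2 0) (M.getD b.2.2 0)

theorem PTime.t1 : PTime (fun y : (In × (ℕ × ℕ)) × List ℕ => t1 y.1 y.2) := by
  unfold MP_63b90e_lc.t1
  exact PTime.and (PTime.stabB (by fun_prop) (by fun_prop))
    (PTime.befB (by fun_prop) (by fun_prop) (by fun_prop))

theorem PTime.t2 : PTime (fun y : (In × (ℕ × ℕ)) × List ℕ => t2 y.1 y.2) := by
  unfold MP_63b90e_lc.t2
  exact PTime.and (PTime.stabB (by fun_prop) (by fun_prop))
    (PTime.not (PTime.befB (by fun_prop) (by fun_prop) (by fun_prop)))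

/-- Running a test on the parsed inputs. -/
def runT (t : In × (ℕ × ℕ) → List ℕ → Bool) (z : List Bool × List Bool) : Bool :=
  ((parseW (In × (ℕ × ℕ)) z.1).bind fun b =>
    some (((parseW (List ℕ) (unpad z.2)).bind fun M => some (t b M)).getD false)).getD false

theorem PTime.runT {t : In × (ℕ × ℕ) → List ℕ → Bool}
    (ht : PTime (fun y : (In × (ℕ × ℕ)) × List ℕ => t y.1 y.2)) : PTime (runT t) := by
  unfold MP_63b90e_lc.runT
  refine PTime.parseTest (β := In × (ℕ × ℕ)) (w := fun z : List Bool × List Bool => z.1)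
    (by fun_prop) (t := fun z b =>
      ((parseW (List ℕ) (MP_63b90e_lc.unpad z.2)).bind fun M => some (t b M)).getD false) ?_
  refine PTime.parseTest (β := List ℕ)
    (w := fun y : (List Bool × List Bool) × (In × (ℕ × ℕ)) => MP_63b90e_lc.unpad y.1.2)
    (PTime.unpad (by fun_prop)) (t := fun y M => t y.2 M) ?_
  exact ht.comp (PTime.prodMk (by fun_prop) PTime.snd)

theorem runT_ser {t : In × (ℕ × ℕ) → List ℕ → Bool} (b : In × (ℕ × ℕ)) (y : List Bool) :
    runT t ((code b).ser, y) = true ↔ ∃ M : List ℕ, unpad y = (code M).ser ∧ t b M = true := by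
  unfold runT
  simp only [parseW_ser, Option.bind_some, Option.getD_some]
  exact parseTest_iff

theorem runT_none {t : In × (ℕ × ℕ) → List ℕ → Bool} {w : List Bool}
    (hw : ∀ b : In × (ℕ × ℕ), w ≠ (code b).ser) (y : List Bool) : runT t (w, y) = false := by
  unfold runT
  cases h : parseW (In × (ℕ × ℕ)) w with
  | none => rfl
  | some b => exact absurd (parseW_eq_some.1 h) (hw b)

theorem sz_stable {b : In × (ℕ × ℕ)} {M : List ℕ} (hM : (smOf b.1.1).Stable M) :
    sz M < 2 + sz b * (2 * sz b + 2) := by
  have hn : b.1.1.1.length ≤ sz b := by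
    have h1 := length_lt_sz b.1.1.1
    obtain ⟨⟨⟨a1, a2⟩, a3⟩, a4, a5⟩ := b
    simp only [sz_pair] at *
    omega
  have hl : M.length = b.1.1.1.length := by
    rw [hM.1.length_eq, List.length_range]; rfl
  have h2 := sz_list_le M (2 * sz b + 1) (fun a ha => by
    have h3 : a < b.1.1.1.length := List.mem_range.1 (hM.1.subset ha)
    rw [sz_nat]; omega)
  have h3 : M.length * (1 + (2 * sz b + 1)) ≤ sz b * (2 * sz b + 2) := by
    have e : 1 + (2 * sz b + 1) = 2 * sz b + 2 := by ring
    rw [e, hl]
    exact Nat.mul_le_mul_right _ hn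
  omega

theorem cmpr_inPP : InPP Cmpr := by
  refine inPP_compare (PTime.runT PTime.t1) (PTime.runT PTime.t2)
    (2 + Polynomial.X * (2 * Polynomial.X + 2)) fun x => ?_
  by_cases hx : ∃ b : In × (ℕ × ℕ), x = (code b).ser
  · obtain ⟨b, rfl⟩ := hx
    have hq : Polynomial.eval (List.length (code b).ser)
        (2 + Polynomial.X * (2 * Polynomial.X + 2) : Polynomial ℕ) =
        2 + sz b * (2 * sz b + 2) := by
      simp [sz]
    simp only [hq, runT_ser]
    have e1 := ncard_unpad (S := {M | t1 b M = true}) (m := 2 + sz b * (2 * sz b + 2))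
      (fun M hM => by
        simp only [Set.mem_setOf_eq, t1, Bool.and_eq_true, stabB_iff] at hM
        exact sz_stable hM.1)
    have e2 := ncard_unpad (S := {M | t2 b M = true}) (m := 2 + sz b * (2 * sz b + 2))
      (fun M hM => by
        simp only [Set.mem_setOf_eq, t2, Bool.and_eq_true, stabB_iff] at hM
        exact sz_stable hM.1)
    simp only [Set.mem_setOf_eq] at e1 e2
    rw [e1, e2]
    have c1 : {M : List ℕ | t1 b M = true}.ncard =
        cLt (smOf b.1.1) b.2.1 (b.1.2.getD b.2.1 0) := by
      rw [cLt]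
      congr 1
      ext M
      simp only [Set.mem_setOf_eq, t1, Bool.and_eq_true, stabB_iff, befB_iff]
      rfl
    have c2 : {M : List ℕ | t2 b M = true}.ncard =
        cLe (smOf b.1.1) b.2.2 (b.1.2.getD b.2.2 0) := by
      rw [cLe]
      congr 1
      ext M
      simp only [Set.mem_setOf_eq, t2, Bool.and_eq_true, stabB_iff, Bool.not_eq_true',
        ← Bool.not_eq_true, befB_iff]
      rfl
    rw [c1, c2]
    constructor
    · rintro ⟨b', hb', h⟩
      have := LawfulCode.inj (T.ser_inj hb')
      rw [this]; exact h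
    · intro h
      exact ⟨b, rfl, h⟩
  · push Not at hx
    simp only [runT_none hx, Bool.false_eq_true, and_false, Set.setOf_false, lt_irrefl,
      iff_false]
    rintro ⟨b, hb, -⟩
    exact hx b hb

/-! ### Membership -/

/-- The comparisons for an input. -/
def cmps (a : In) : List (List Bool) := (List.range a.1.1.length).flatMap fun m =>
  (List.range a.1.1.length).map fun m' => (code (a, (m, m'))).ser

theorem PTime.cmps : PTime MP_63b90e_lc.cmps := by
  unfold MP_63b90e_lc.cmps
  have h1 : PTime (fun a : In => a.1.1.length) := by fun_prop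
  refine PTime.flatMap (f := fun (a : In) m => (List.range a.1.1.length).map fun m' =>
    (code (a, (m, m'))).ser) (PTime.range h1) ?_
  refine PTime.map (f := fun (y : In × ℕ) m' => (code (y.1, (y.2, m'))).ser)
    (PTime.range (h1.comp PTime.fst)) ?_
  exact PTime.ser (by fun_prop)

theorem gm_eq : problem WF Yes = {x | (((parseW In x).bind fun a =>
      some (validB a.1 && stabB a.1 a.2)).getD false) = true ∧
    ∀ u ∈ ((parseW In x).bind fun a => some (cmps a)).getD [], u ∈ Cmpr} := by
  ext x
  simp only [Set.mem_setOf_eq, parseTest_iff, problem]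
  constructor
  · rintro ⟨a, rfl, ⟨h1, h2⟩, h3⟩
    refine ⟨⟨a, rfl, by rw [Bool.and_eq_true, validB_iff, stabB_iff]; exact ⟨h1, h2⟩⟩, ?_⟩
    simp only [parseW_ser, Option.bind_some, Option.getD_some, cmps]
    intro u hu
    simp only [List.mem_flatMap, List.mem_range, List.mem_map] at hu
    obtain ⟨m, hm, m', hm', rfl⟩ := hu
    exact ⟨(a, (m, m')), rfl, (isMedian_iff_lt h1 h2).1 h3 m hm m' hm'⟩
  · rintro ⟨⟨a, rfl, h1⟩, h2⟩
    rw [Bool.and_eq_true, validB_iff, stabB_iff] at h1
    refine ⟨a, rfl, h1, ?_⟩
    rw [Yes, isMedian_iff_lt h1.1 h1.2]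
    intro m hm m' hm'
    simp only [parseW_ser, Option.bind_some, Option.getD_some, cmps] at h2
    obtain ⟨b, hb, h3⟩ := h2 (code (a, (m, m'))).ser (by
      simp only [List.mem_flatMap, List.mem_range, List.mem_map]
      exact ⟨m, hm, m', hm', rfl⟩)
    have := LawfulCode.inj (T.ser_inj hb)
    rw [← this] at h3
    exact h3

/-- If PP is contained in NP, the recognition problem is in NP. -/
theorem gm_inNP_of_pp (h : ∀ L, InPP L → InNP L) : InNP (problem WF Yes) := by
  rw [gm_eq]
  refine InNP.forall_mem (h _ cmpr_inPP) ?_ ?_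
  · refine PTime.parseTest (β := In) PTime.id (t := fun _ a => validB a.1 && stabB a.1 a.2) ?_
    exact PTime.and (PTime.validB (by fun_prop)) (PTime.stabB (by fun_prop) (by fun_prop))
  · refine PTime.getD (PTime.bind (PTime.parseW PTime.id) (PTime.mkSome ?_)) (PTime.const _)
    exact PTime.cmps.comp PTime.snd

/-- The recognition problem is in NP if and only if PP is contained in NP. -/
theorem gm_inNP_iff : InNP (problem WF Yes) ↔ ∀ L, InPP L → InNP L :=
  ⟨fun h _ hL => InNP.of_reducible (pp_hard hL) h, gm_inNP_of_pp⟩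

end Pool.Agent.Work.MP_63b90e_lc
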