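import Pool.Agent.Work.MP_63b90e_lc.TabTime
import Pool.Agent.Work.PolyTime.NPClose

/-!
Every language of PP reduces to the recognition of generalised median stable
matchings.
-/

set_option autoImplicit false
set_option linter.unusedSimpArgs false

namespace Pool.Agent.Work.MP_63b90e_lc

open Pool.Agent.Work.PolyTime
open Pool.Agent.Work.MP_0532f7_lc (sstep tinit cell src dst bs table_spec)

theorem pairW_append (x y : List Bool) : pairW x y = pairW x [] ++ y := by
  induction x with
  | nil => rfl
  | cons b x ih => simp only [pairW, List.cons_append]; rw [ih]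

theorem pairW_nil_length (x : List Bool) : (pairW x []).length = 2 * x.length + 1 := by
  induction x with
  | nil => rfl
  | cons b x ih => simp only [pairW, List.length_cons, ih]; omega

/-- The accepted words are counted by a clause system. -/
theorem count_formula {R : List Bool → List Bool} (hR : PolyTimeComputable R)
    (p : Polynomial ℕ) : ∃ F : List Bool → List LC, PTime F ∧ ∀ x,
      satCount (vars (F x)).length (renum (F x)) =
        {y : List Bool | y.length = p.eval x.length ∧ R (pairW x y) = [true]}.ncard := by
  obtain ⟨T, q0, K, k0, k1, i0, i1, o1, P, hk0, hk1, hK, hT⟩ :=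
    table_spec (show MP_0532f7_lc.PolyTime R from hR)
  obtain ⟨N0, hN0, hN0'⟩ := exists_tableBound T
  let N := N0 + q0 + i0 + i1 + o1 + 1
  have hN : ∀ row ∈ T, ∀ a ∈ row, a < N := fun row hr a ha => by
    have := hN0' row hr a ha; omega
  refine ⟨fun x => tab T N q0 K k0 k1 i0 i1 o1 (pairW x []) (p.eval x.length)
    (P.eval ((pairW x []).length + p.eval x.length) + ((pairW x []).length + p.eval x.length)),
    ?_, fun x => ?_⟩
  · have h1 : PTime (fun x : List Bool => PolyTime.pairW x []) :=
      PTime.pairW PTime.id (PTime.const _)
    have h2 : PTime (fun x : List Bool => p.eval x.length) :=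
      PTime.polyEval p (PTime.length PTime.id)
    have h3 : PTime (fun x : List Bool => (PolyTime.pairW x []).length + p.eval x.length) :=
      PTime.natAdd (PTime.length h1) h2
    exact PTime.tab T N q0 K k0 k1 i0 i1 o1 h1 h2 (PTime.natAdd (PTime.polyEval P h3) h3)
  · rw [satCount_tab hN hK hk0 hk1 (by omega) (by omega) (by omega) (by omega) (by omega)]
    congr 1
    ext z
    simp only [Set.mem_setOf_eq]
    refine and_congr_right fun hz => ?_
    have h4 := hT (pairW x z) (P.eval ((pairW x []).length + p.eval x.length) +
      ((pairW x []).length + p.eval x.length)) (by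
        have e : (pairW x z).length = (pairW x []).length + p.eval x.length := by
          rw [pairW_append, List.length_append, hz]
        rw [e]; omega)
    rw [← h4, Acc, cfg, ← pairW_append]
    generalize ((sstep T)^[P.eval ((pairW x []).length + p.eval x.length) +
      ((pairW x []).length + p.eval x.length)] (tinit q0 K k0 i0 i1 (pairW x z))).2 = S
    unfold cell
    rcases S.getD k1 [] with _ | ⟨a, _ | ⟨b, l⟩⟩
    · simp
    · simp
    · simp

theorem satCount_succ {n : ℕ} {C : List NClause} (hC : ∀ c ∈ C, ∀ l ∈ c, l.2 < n) :
    satCount (n + 1) C = 2 * satCount n C := by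
  classical
  have hS : ∀ A : Finset ℕ, Sat C (insert n A) ↔ Sat C A := by
    intro A
    unfold Sat
    refine forall₂_congr fun c hc => ?_
    refine exists_congr fun l => and_congr_right fun hl => ?_
    have := hC c hc l hl
    have e : l.2 ∈ insert n A ↔ l.2 ∈ A := by
      rw [Finset.mem_insert]
      exact ⟨fun h => h.resolve_left (by omega), Or.inr⟩
    simp only [e]
  unfold satCount
  rw [Finset.range_add_one, Finset.powerset_insert, Finset.filter_union,
    Finset.card_union_of_disjoint, two_mul]
  · congr 1
    rw [Finset.filter_image, Finset.card_image_of_injOn]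
    · congr 1
      ext A
      simp only [Finset.mem_filter, hS]
    · intro A hA B hB h
      simp only [Finset.coe_filter, Finset.mem_powerset, Set.mem_setOf_eq] at hA hB
      have nA : n ∉ A := fun h => by simpa using hA.1 h
      have nB : n ∉ B := fun h => by simpa using hB.1 h
      have h' : insert n A = insert n B := h
      rw [← Finset.erase_insert nA, ← Finset.erase_insert nB, h']
  · rw [Finset.disjoint_left]
    intro A hA hB
    simp only [Finset.mem_filter, Finset.mem_powerset, Finset.mem_image] at hA hB
    obtain ⟨⟨B, hB1, rfl⟩, -⟩ := hB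
    have := hA.1 (Finset.mem_insert_self n B)
    simp at this

/-- Well-formed inputs. -/
def WF (a : (List (List ℕ) × List (List ℕ)) × List ℕ) : Prop :=
  (smOf a.1).Valid ∧ (smOf a.1).Stable a.2

/-- Yes-instances. -/
def Yes (a : (List (List ℕ) × List (List ℕ)) × List ℕ) : Prop := (smOf a.1).IsMedian a.2

/-- The recognition problem is hard for PP. -/
theorem pp_hard {L : Set (List Bool)} (hL : InPP L) : PolyReducible L (problem WF Yes) := by
  obtain ⟨R, p, hR, h⟩ := hL
  obtain ⟨F, hF, hF'⟩ := count_formula hR p
  refine ⟨fun x => (code (smMap (gAll ((vars (F x)).length + 1) (renum (F x))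
    (p.eval x.length)))).ser, polyTimeComputable_of_PTime (PTime.smMap (PTime.gAll ?_ ?_ ?_)),
    fun x => ?_⟩
  · exact PTime.succ (PTime.length (PTime.vars hF))
  · exact PTime.renum hF
  · exact PTime.polyEval p (PTime.length PTime.id)
  · have hc : ∀ c ∈ renum (F x), ∀ l ∈ c, l.2 < (vars (F x)).length + 1 := fun c hc l hl => by
      have := renum_lt (F x) c hc l hl
      omega
    have h1 := gAll_correct (p.eval x.length) hc
    rw [h, ← hF', ← satCount_succ (renum_lt (F x)), ← h1.2]
    constructor
    · intro hy
      refine ⟨_, rfl, smMap_correct h1.1, ?_⟩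
      rw [Yes, smMap_fst, smMap_snd]
      exact hy
    · rintro ⟨a, ha, -, hy⟩
      have e := LawfulCode.inj (T.ser_inj ha)
      rw [← e, Yes, smMap_fst, smMap_snd] at hy
      exact hy

end Pool.Agent.Work.MP_63b90e_lc
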