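import Pool.Agent.Work.MP_63b90e_lc.Time

/-!
The instance of stable marriage is computed in polynomial time.
-/

set_option autoImplicit false
set_option linter.unusedSimpArgs false

namespace Pool.Agent.Work.MP_63b90e_lc

open Pool.Agent.Work.PolyTime

section

variable {α β : Type} [Code α] [Code β]

/-- Position by folding. -/
def posF [DecidableEq β] (l : List β) (v : β) : ℕ :=
  (l.foldl (fun (s : Bool × ℕ) w => bif s.1 then s else
    bif decide (w = v) then (true, s.2) else (false, s.2 + 1)) (false, 0)).2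

theorem posF_aux [DecidableEq β] (v : β) : ∀ (l : List β) (n : ℕ),
    (l.foldl (fun (s : Bool × ℕ) w => bif s.1 then s else
      bif decide (w = v) then (true, s.2) else (false, s.2 + 1)) (true, n)).2 = n := by
  intro l
  induction l with
  | nil => intro n; rfl
  | cons w l ih => intro n; simpa using ih n

theorem posF_eq [DecidableEq β] (l : List β) (v : β) : posF l v = l.idxOf v := by
  have key : ∀ (l : List β) (n : ℕ), (l.foldl (fun (s : Bool × ℕ) w => bif s.1 then s
      else bif decide (w = v) then (true, s.2) else (false, s.2 + 1)) (false, n)).2 =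
      n + l.idxOf v := by
    intro l
    induction l with
    | nil => intro n; simp
    | cons w l ih =>
      intro n
      rw [List.foldl_cons]
      by_cases hw : w = v
      · have e : (bif (false, n).1 then (false, n) else
          bif decide (w = v) then (true, (false, n).2) else (false, (false, n).2 + 1)) =
            (true, n) := by simp [hw]
        rw [e, posF_aux, hw, List.idxOf_cons_self]; rfl
      · have e : (bif (false, n).1 then (false, n) else
          bif decide (w = v) then (true, (false, n).2) else (false, (false, n).2 + 1)) =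
            (false, n + 1) := by simp [hw]
        rw [e, ih, List.idxOf_cons_ne _ hw]; omega
  rw [posF, key]; simp

theorem posF_lt [DecidableEq β] {l : List β} {v : β} (h : v ∈ l) : posF l v < l.length := by
  rw [posF_eq]; exact List.idxOf_lt_length_iff.2 h

theorem getD_posF [DecidableEq β] {l : List β} {v : β} (d : β) (h : v ∈ l) :
    l.getD (posF l v) d = v := by
  have h1 := List.idxOf_lt_length_iff.2 h
  rw [posF_eq, List.getD_eq_getElem _ _ h1, List.getElem_idxOf]

theorem posF_getD [DecidableEq β] {l : List β} {a : ℕ} (d : β) (hl : l.Nodup)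
    (h : a < l.length) : posF l (l.getD a d) = a := by
  rw [posF_eq, List.getD_eq_getElem _ _ h, hl.idxOf_getElem]

theorem PTime.posF [DecidableEq β] [LawfulCode β] {l : α → List β} {v : α → β} (hl : PTime l)
    (hv : PTime v) : PTime (fun x => MP_63b90e_lc.posF (l x) (v x)) := by
  have hf : PTime (fun y : α × (Bool × ℕ) × β => bif y.2.1.1 then y.2.1 else
        bif decide (y.2.2 = v y.1) then (true, y.2.1.2) else (false, y.2.1.2 + 1)) := by
    have h1 : PTime (fun y : α × (Bool × ℕ) × β => v y.1) := hv.comp PTime.fst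
    fun_prop
  have h : PTime (fun x => ((l x).foldl (fun s w =>
      (fun y : α × (Bool × ℕ) × β => bif y.2.1.1 then y.2.1 else
        bif decide (y.2.2 = v y.1) then (true, y.2.1.2) else (false, y.2.1.2 + 1)) (x, s, w))
      (false, 0)).2) := by
    refine PTime.snd.comp (PTime.foldlGrow (f := fun y : α × (Bool × ℕ) × β =>
      bif y.2.1.1 then y.2.1 else
        bif decide (y.2.2 = v y.1) then (true, y.2.1.2) else (false, y.2.1.2 + 1)) hl
      (PTime.const _) hf (G := fun _ => 5) (PB.const 5) ?_)
    rintro x w _ ⟨b, n⟩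
    cases b
    · simp only [cond_false]
      by_cases hw : w = v x
      · simp [hw]; omega
      · simp [hw]; omega
    · simp
  exact h

theorem PTime.idxOf [DecidableEq β] [LawfulCode β] {l : α → List β} {v : α → β} (hl : PTime l)
    (hv : PTime v) : PTime (fun x => (l x).idxOf (v x)) :=
  (PTime.posF hl hv).code_congr (fun x => posF_eq _ _)

theorem PTime.nxt [DecidableEq β] [LawfulCode β] {L : α → List β} {k : α → β} (hL : PTime L)
    (hk : PTime k) : PTime (fun x => MP_63b90e_lc.nxt (L x) (k x)) := by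
  unfold MP_63b90e_lc.nxt
  have h1 := PTime.idxOf hL hk
  exact PTime.getD (PTime.headOpt (PTime.drop hL (PTime.natAdd h1 (PTime.const 1))))
    (PTime.getD (PTime.headOpt hL) hk)

theorem PTime.nx {E : α → List (ℕ × ℕ)} {x : α → ℕ × Bool} (hE : PTime E) (hx : PTime x) :
    PTime (fun a => MP_63b90e_lc.nx (E a) (x a)) := by
  unfold MP_63b90e_lc.nx
  exact PTime.nxt (PTime.inc hE (PTime.vt hE hx)) hx

theorem PTime.pv {E : α → List (ℕ × ℕ)} {x : α → ℕ × Bool} (hE : PTime E) (hx : PTime x) :
    PTime (fun a => MP_63b90e_lc.pv (E a) (x a)) := by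
  unfold MP_63b90e_lc.pv
  exact PTime.nxt (PTime.reverse (PTime.inc hE (PTime.vt hE hx))) hx

@[fun_prop]
theorem PTime.ix {x : α → ℕ × Bool} (hx : PTime x) :
    PTime (fun a => MP_63b90e_lc.ix (x a)) := by
  unfold MP_63b90e_lc.ix
  fun_prop

theorem PTime.full {n : α → ℕ} {s : α → List ℕ} (hn : PTime n) (hs : PTime s) :
    PTime (fun a => MP_63b90e_lc.full (n a) (s a)) := by
  unfold MP_63b90e_lc.full
  refine PTime.append hs (PTime.filter (p := fun a x => !decide (x ∈ s a)) (PTime.range hn) ?_)
  exact PTime.not (PTime.mem (by fun_prop) (hs.comp PTime.fst))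

theorem PTime.swX {E : α → List (ℕ × ℕ)} {x : α → ℕ × Bool} (hE : PTime E) (hx : PTime x) :
    PTime (fun a => MP_63b90e_lc.swX (E a) (x a)) := by
  unfold MP_63b90e_lc.swX
  have h1 := PTime.pv hE hx
  fun_prop

/-- The instance as a pair. -/
def smT (E : List (ℕ × ℕ)) : List (List ℕ) × List (List ℕ) := ((mkSM E).men, (mkSM E).women)

theorem PTime.smT {E : α → List (ℕ × ℕ)} (hE : PTime E) :
    PTime (fun a => MP_63b90e_lc.smT (E a)) := by
  unfold MP_63b90e_lc.smT MP_63b90e_lc.mkSM
  have hE' : PTime (fun y : α × ℕ => E y.1) := hE.comp PTime.fst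
  have hl : PTime (fun y : α × ℕ => 3 * (E y.1).length) := by fun_prop
  refine PTime.prodMk ?_ ?_
  · refine PTime.flatMap (f := fun a i => [MP_63b90e_lc.full (3 * (E a).length) (smA (E a) i),
      MP_63b90e_lc.full (3 * (E a).length) (smB i),
      MP_63b90e_lc.full (3 * (E a).length) (smC (E a) i)]) (PTime.range (PTime.length hE)) ?_
    have h1 : PTime (fun y : α × ℕ => MP_63b90e_lc.nx (E y.1) (y.2, false)) :=
      PTime.nx hE' (by fun_prop)
    have h2 : PTime (fun y : α × ℕ => MP_63b90e_lc.nx (E y.1) (y.2, true)) :=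
      PTime.nx hE' (by fun_prop)
    have hA : PTime (fun y : α × ℕ => MP_63b90e_lc.full (3 * (E y.1).length) (smA (E y.1) y.2)) :=
      PTime.full hl (by unfold smA; fun_prop)
    have hB : PTime (fun y : α × ℕ => MP_63b90e_lc.full (3 * (E y.1).length) (smB y.2)) :=
      PTime.full hl (by unfold smB; fun_prop)
    have hC : PTime (fun y : α × ℕ => MP_63b90e_lc.full (3 * (E y.1).length) (smC (E y.1) y.2)) :=
      PTime.full hl (by unfold smC; fun_prop)
    fun_prop
  · refine PTime.flatMap (f := fun a i => [MP_63b90e_lc.full (3 * (E a).length) (swA i),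
      MP_63b90e_lc.full (3 * (E a).length) (MP_63b90e_lc.swX (E a) (i, false)),
      MP_63b90e_lc.full (3 * (E a).length) (MP_63b90e_lc.swX (E a) (i, true))])
      (PTime.range (PTime.length hE)) ?_
    have hA : PTime (fun y : α × ℕ => MP_63b90e_lc.full (3 * (E y.1).length) (swA y.2)) :=
      PTime.full hl (by unfold swA; fun_prop)
    have hB : PTime (fun y : α × ℕ => MP_63b90e_lc.full (3 * (E y.1).length)
      (MP_63b90e_lc.swX (E y.1) (y.2, false))) :=
      PTime.full hl (PTime.swX hE' (by fun_prop))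
    have hC : PTime (fun y : α × ℕ => MP_63b90e_lc.full (3 * (E y.1).length)
      (MP_63b90e_lc.swX (E y.1) (y.2, true))) :=
      PTime.full hl (PTime.swX hE' (by fun_prop))
    fun_prop

/-- The matching of the set `{0}`. -/
def mat0 (E : List (ℕ × ℕ)) : List ℕ := (List.range E.length).flatMap fun i =>
  [bif decide (vt E (i, true) = 0) then ix (nx E (i, true)) else
    bif decide (vt E (i, false) = 0) then ix (nx E (i, false)) else 3 * i,
   bif decide (vt E (i, false) = 0) then 3 * i else 3 * i + 1,
   bif decide (vt E (i, true) = 0) then ix (nx E (i, false)) else 3 * i + 2]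

theorem mat0_eq (E : List (ℕ × ℕ)) : mat0 E = matD E {0} := by
  simp only [mat0, matD, Finset.mem_singleton, Bool.cond_decide]

theorem PTime.mat0 {E : α → List (ℕ × ℕ)} (hE : PTime E) :
    PTime (fun a => MP_63b90e_lc.mat0 (E a)) := by
  unfold MP_63b90e_lc.mat0
  have hE' : PTime (fun y : α × ℕ => E y.1) := hE.comp PTime.fst
  refine PTime.flatMap (f := fun a i =>
    [bif decide (MP_63b90e_lc.vt (E a) (i, true) = 0) then
        MP_63b90e_lc.ix (MP_63b90e_lc.nx (E a) (i, true)) else
      bif decide (MP_63b90e_lc.vt (E a) (i, false) = 0) then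
        MP_63b90e_lc.ix (MP_63b90e_lc.nx (E a) (i, false)) else 3 * i,
     bif decide (MP_63b90e_lc.vt (E a) (i, false) = 0) then 3 * i else 3 * i + 1,
     bif decide (MP_63b90e_lc.vt (E a) (i, true) = 0) then
        MP_63b90e_lc.ix (MP_63b90e_lc.nx (E a) (i, false)) else 3 * i + 2])
    (PTime.range (PTime.length hE)) ?_
  have h1 : PTime (fun y : α × ℕ => MP_63b90e_lc.nx (E y.1) (y.2, false)) :=
    PTime.nx hE' (by fun_prop)
  have h2 : PTime (fun y : α × ℕ => MP_63b90e_lc.nx (E y.1) (y.2, true)) :=
    PTime.nx hE' (by fun_prop)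
  have h3 : PTime (fun y : α × ℕ => MP_63b90e_lc.vt (E y.1) (y.2, false)) :=
    PTime.vt hE' (by fun_prop)
  have h4 : PTime (fun y : α × ℕ => MP_63b90e_lc.vt (E y.1) (y.2, true)) :=
    PTime.vt hE' (by fun_prop)
  fun_prop

end

/-! ### The map -/

/-- The instance and the matching of a graph. -/
def smMap (E : List (ℕ × ℕ)) : (List (List ℕ) × List (List ℕ)) × List ℕ :=
  (smT E, mat0 E)

theorem PTime.smMap {α : Type} [Code α] {E : α → List (ℕ × ℕ)} (hE : PTime E) :
    PTime (fun x => MP_63b90e_lc.smMap (E x)) := by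
  unfold MP_63b90e_lc.smMap
  exact PTime.prodMk (PTime.smT hE) (PTime.mat0 hE)

/-- The pair as an instance. -/
def smOf (a : List (List ℕ) × List (List ℕ)) : SM := ⟨a.1, a.2⟩

theorem smMap_fst (E : List (ℕ × ℕ)) : smOf (smMap E).1 = mkSM E := rfl

theorem smMap_snd (E : List (ℕ × ℕ)) : (smMap E).2 = matD E {0} := mat0_eq E

/-- The graph of a formula. -/
def gAll (n : ℕ) (C : List NClause) (k : ℕ) : List (ℕ × ℕ) :=
  (gF (botG (gQ n C k)) (botG (gR n C k))).2

theorem PTime.gAll {α : Type} [Code α] {n k : α → ℕ} {C : α → List NClause} (hn : PTime n)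
    (hC : PTime C) (hk : PTime k) : PTime (fun x => MP_63b90e_lc.gAll (n x) (C x) (k x)) := by
  unfold MP_63b90e_lc.gAll
  exact PTime.snd.comp (PTime.gF (PTime.botG (PTime.gQ hn hC hk)) (PTime.botG (PTime.gR hn hC hk)))

theorem gAll_correct {n : ℕ} {C : List NClause} (k : ℕ) (hC : ∀ c ∈ C, ∀ l ∈ c, l.2 < n) :
    Incr (gAll n C k) ∧
    ((mkSM (gAll n C k)).IsMedian (matD (gAll n C k) {0}) ↔ 2 ^ k < satCount n C) := by
  unfold gAll
  have hQ : Good (gQ n C k) := good_sumL _ (good_side hC)
  have hR : Good (gR n C k) := good_sumL _ (good_side hC)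
  have hQ' := good_bot hQ
  have hR' := good_bot hR
  refine ⟨fun e he => (good_gF hQ' hR' e he).1, ?_⟩
  rw [gF_median hQ' hR' (by rw [size_bot]; omega) (by rw [size_bot]; omega),
      cnt_bot, cnt_bot, ← compare k hC]
  omega

theorem smMap_correct {E : List (ℕ × ℕ)} (hE : Incr E) :
    (smOf (smMap E).1).Valid ∧ (smOf (smMap E).1).Stable (smMap E).2 := by
  rw [smMap_fst, smMap_snd]
  refine ⟨mkSM_valid hE, ?_⟩
  refine matD_stable hE ?_
  intro e he hv
  rw [Finset.mem_singleton] at hv
  have := hE e he
  omega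

end Pool.Agent.Work.MP_63b90e_lc
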