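import Pool.Agent.Work.MP_63b90e_lc.Count
import Pool.Agent.Work.PolyTime.Sim
import Pool.Agent.Work.MP_63b90e_lc.Time2

/-!
Numbering the variables of a clause system, with the number of satisfying assignments.
-/

set_option autoImplicit false
set_option linter.unusedSimpArgs false

namespace Pool.Agent.Work.MP_63b90e_lc

open Pool.Agent.Work.PolyTime

/-- Removal of repetitions. -/
def ddp (l : List (List ℕ)) : List (List ℕ) :=
  l.foldl (fun s a => bif memB a s then s else a :: s) []

theorem ddp_aux (l : List (List ℕ)) : ∀ s : List (List ℕ), s.Nodup →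
    (l.foldl (fun s a => bif memB a s then s else a :: s) s).Nodup ∧
    ∀ v, v ∈ l.foldl (fun s a => bif memB a s then s else a :: s) s ↔ v ∈ s ∨ v ∈ l := by
  induction l with
  | nil => intro s hs; exact ⟨hs, by simp⟩
  | cons a l ih =>
    intro s hs
    rw [List.foldl_cons]
    have hmB : memB a s = decide (a ∈ s) := by
      rw [Bool.eq_iff_iff, memB_iff, decide_eq_true_eq]
    by_cases h : a ∈ s
    · have e : (bif memB a s then s else a :: s) = s := by simp [h, hmB]
      rw [e]
      refine ⟨(ih s hs).1, fun v => ?_⟩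
      rw [(ih s hs).2]
      simp only [List.mem_cons]
      constructor
      · rintro (h1 | h1)
        · exact Or.inl h1
        · exact Or.inr (Or.inr h1)
      · rintro (h1 | rfl | h1)
        · exact Or.inl h1
        · exact Or.inl h
        · exact Or.inr h1
    · have e : (bif memB a s then s else a :: s) = a :: s := by simp [h, hmB]
      rw [e]
      have hs' : (a :: s).Nodup := List.nodup_cons.2 ⟨h, hs⟩
      refine ⟨(ih _ hs').1, fun v => ?_⟩
      rw [(ih _ hs').2]
      simp only [List.mem_cons]
      tauto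

theorem nodup_ddp (l : List (List ℕ)) : (ddp l).Nodup := (ddp_aux l [] List.nodup_nil).1

theorem mem_ddp {l : List (List ℕ)} {v : List ℕ} : v ∈ ddp l ↔ v ∈ l := by
  rw [ddp, (ddp_aux l [] List.nodup_nil).2]; simp

/-- Clauses over named variables. -/
abbrev LC : Type := List (Bool × List ℕ)

/-- The variables of a system. -/
def vars (C : List LC) : List (List ℕ) := ddp (C.flatMap fun c => c.map fun l => l.2)

theorem mem_vars {C : List LC} {v : List ℕ} : v ∈ vars C ↔ ∃ c ∈ C, ∃ l ∈ c, l.2 = v := by
  simp [vars, mem_ddp]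

/-- Numbering. -/
def renum (C : List LC) : List NClause :=
  C.map fun c => c.map fun l => (l.1, posF (vars C) l.2)

/-- Satisfaction by a Boolean valuation. -/
def SatV (C : List LC) (X : List ℕ → Bool) : Prop := ∀ c ∈ C, ∃ l ∈ c, X l.2 = l.1

theorem renum_lt (C : List LC) : ∀ c ∈ renum C, ∀ l ∈ c, l.2 < (vars C).length := by
  intro c hc l hl
  obtain ⟨c', hc', rfl⟩ := List.mem_map.1 hc
  obtain ⟨l', hl', rfl⟩ := List.mem_map.1 hl
  exact posF_lt (mem_vars.2 ⟨c', hc', l', hl', rfl⟩)

theorem sat_renum (C : List LC) (A : Finset ℕ) :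
    Sat (renum C) A ↔ SatV C (fun v => decide (posF (vars C) v ∈ A)) := by
  unfold Sat SatV renum
  constructor
  · intro h c hc
    obtain ⟨l, hl, hl'⟩ := h _ (List.mem_map_of_mem hc)
    obtain ⟨l', hl'', rfl⟩ := List.mem_map.1 hl
    exact ⟨l', hl'', hl'⟩
  · intro h c hc
    obtain ⟨c', hc', rfl⟩ := List.mem_map.1 hc
    obtain ⟨l, hl, hl'⟩ := h c' hc'
    exact ⟨_, List.mem_map_of_mem hl, hl'⟩

theorem satCount_renum {C : List LC} {m : ℕ} {P : List Bool → Prop}
    {val : List Bool → List ℕ → Bool}
    (h1 : ∀ z, z.length = m → P z → SatV C (val z))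
    (h2 : ∀ X, SatV C X → ∃ z, z.length = m ∧ P z ∧ ∀ v ∈ vars C, X v = val z v)
    (h3 : ∀ z z', z.length = m → z'.length = m → (∀ v ∈ vars C, val z v = val z' v) → z = z') :
    satCount (vars C).length (renum C) = {z : List Bool | z.length = m ∧ P z}.ncard := by
  classical
  have e : satCount (vars C).length (renum C) =
      ({A : Finset ℕ | A ⊆ Finset.range (vars C).length ∧ Sat (renum C) A}).ncard := by
    rw [satCount, ← Set.ncard_coe_finset]
    congr 1
    ext A
    simp
  rw [e]
  symm
  have hidx : ∀ v ∈ vars C, posF (vars C) v < (vars C).length :=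
    fun v hv => posF_lt hv
  have hget : ∀ v ∈ vars C, (vars C).getD (posF (vars C) v) [] = v :=
    fun v hv => getD_posF _ hv
  have hget' : ∀ a < (vars C).length, posF (vars C) ((vars C).getD a []) = a :=
    fun a ha => posF_getD _ (nodup_ddp _) ha
  let f : List Bool → Finset ℕ := fun z =>
    (Finset.range (vars C).length).filter fun a => val z ((vars C).getD a []) = true
  have hf : ∀ z, ∀ v ∈ vars C, (posF (vars C) v ∈ f z ↔ val z v = true) := by
    intro z v hv
    simp only [f, Finset.mem_filter, Finset.mem_range, hidx v hv, true_and, hget v hv]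
  have hfs : ∀ z, z.length = m → P z → Sat (renum C) (f z) := by
    intro z hz hP
    rw [sat_renum]
    intro c hc
    obtain ⟨l, hl, hl'⟩ := h1 z hz hP c hc
    refine ⟨l, hl, ?_⟩
    have hv : l.2 ∈ vars C := mem_vars.2 ⟨c, hc, l, hl, rfl⟩
    rw [← hl']
    have := hf z l.2 hv
    cases hb : val z l.2 with
    | true => simpa [hb] using this
    | false => simpa [hb] using this
  refine Set.ncard_congr (fun z _ => f z) ?_ ?_ ?_
  · rintro z ⟨hz, hP⟩
    exact ⟨Finset.filter_subset _ _, hfs z hz hP⟩
  · rintro z z' ⟨hz, -⟩ ⟨hz', -⟩ h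
    refine h3 z z' hz hz' fun v hv => ?_
    have a1 := hf z v hv
    have a2 := hf z' v hv
    have h' : f z = f z' := h
    rw [h', a2] at a1
    cases hb : val z v <;> cases hb' : val z' v <;> simp_all
  · rintro A ⟨hA, hS⟩
    rw [sat_renum] at hS
    obtain ⟨z, hz, hP, hv⟩ := h2 _ hS
    refine ⟨z, ⟨hz, hP⟩, ?_⟩
    ext a
    simp only [f, Finset.mem_filter, Finset.mem_range]
    constructor
    · rintro ⟨ha, hb⟩
      have hm : (vars C).getD a [] ∈ vars C := by
        rw [List.getD_eq_getElem _ _ ha]; exact List.getElem_mem ha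
      have := hv _ hm
      rw [hb, hget' a ha] at this
      simpa using this
    · intro ha
      have ha' := Finset.mem_range.1 (hA ha)
      refine ⟨ha', ?_⟩
      have hm : (vars C).getD a [] ∈ vars C := by
        rw [List.getD_eq_getElem _ _ ha']; exact List.getElem_mem ha'
      have := hv _ hm
      rw [hget' a ha'] at this
      rw [← this]
      simpa using ha

section

variable {α : Type} [Code α]

theorem PTime.ddp {l : α → List (List ℕ)} (hl : PTime l) :
    PTime (fun x => MP_63b90e_lc.ddp (l x)) := by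
  have h : PTime (fun x => (l x).foldl (fun s a =>
      (fun y : α × List (List ℕ) × List ℕ =>
        bif memB y.2.2 y.2.1 then y.2.1 else y.2.2 :: y.2.1) (x, s, a)) []) := by
    refine PTime.foldlGrow (f := fun y : α × List (List ℕ) × List ℕ =>
        bif memB y.2.2 y.2.1 then y.2.1 else y.2.2 :: y.2.1) hl (PTime.const _)
      (PTime.cond (PTime.memB (f := fun y : α × List (List ℕ) × List ℕ => y.2.2)
        (l := fun y => y.2.1) (by fun_prop) (by fun_prop)) (by fun_prop) (by fun_prop))
      (G := fun x => sz (l x)) hl.sz_le ?_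
    intro x a ha s
    have h1 := sz_mem ha
    cases h2 : memB a s
    · simp only [h2, cond_false, sz_cons]; omega
    · simp [h2]
  exact h

theorem PTime.vars {C : α → List LC} (hC : PTime C) :
    PTime (fun x => MP_63b90e_lc.vars (C x)) := by
  unfold MP_63b90e_lc.vars
  exact PTime.ddp (PTime.flatMap (f := fun _ (c : LC) => c.map fun l => l.2) hC
    (PTime.map (f := fun _ (l : Bool × List ℕ) => l.2) PTime.snd (by fun_prop)))

theorem PTime.renum {C : α → List LC} (hC : PTime C) :
    PTime (fun x => MP_63b90e_lc.renum (C x)) := by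
  unfold MP_63b90e_lc.renum
  have hv := PTime.vars hC
  refine PTime.map (f := fun x (c : LC) =>
    c.map fun l => (l.1, MP_63b90e_lc.posF (MP_63b90e_lc.vars (C x)) l.2)) hC ?_
  refine PTime.map (f := fun (y : α × LC) (l : Bool × List ℕ) =>
    (l.1, MP_63b90e_lc.posF (MP_63b90e_lc.vars (C y.1)) l.2)) PTime.snd ?_
  exact PTime.prodMk (by fun_prop) (PTime.posF (hv.comp (PTime.fst.comp PTime.fst))
    (PTime.snd.comp PTime.snd))

end

end Pool.Agent.Work.MP_63b90e_lc
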