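import Pool.Agent.Work.MP_63b90e_lc.Marriage

/-!
The stable matchings of the instance.
-/

set_option autoImplicit false
set_option linter.unusedSimpArgs false

namespace Pool.Agent.Work.MP_63b90e_lc

open Finset

section

variable {E : List (ℕ × ℕ)}

/-! ### Matchings of closed sets -/

/-- The partner of the woman `ix x`. -/
theorem matD_partner {D : Finset ℕ} (hD : Closed E D) {x : ℕ × Bool} (hx : x.1 < E.length) :
    ∃ m < 3 * E.length, (matD E D).getD m 0 = ix x ∧
      ((vt E x ∉ D ∧ m = ix x) ∨
       (vt E x ∈ D ∧ (pv E x).2 = true ∧ m = 3 * (pv E x).1) ∨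
       (vt E x ∈ D ∧ (pv E x).2 = false ∧
        ((vt E ((pv E x).1, true) ∉ D ∧ m = 3 * (pv E x).1) ∨
         (vt E ((pv E x).1, true) ∈ D ∧ m = 3 * (pv E x).1 + 2)))) := by
  have h1 := pv_mem (E := E) hx
  have h3 := nx_pv (E := E) hx
  by_cases hv : vt E x ∈ D
  · cases hp : pv E x with
    | mk j c =>
      rw [hp] at h1 h3
      simp only at h1
      have hj := h1.1
      cases c
      · by_cases hq : vt E (j, true) ∈ D
        · refine ⟨3 * j + 2, by omega, ?_, Or.inr (Or.inr ⟨hv, rfl, Or.inr ⟨hq, rfl⟩⟩)⟩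
          rw [matD_C D hj, if_pos hq, h3]
        · refine ⟨3 * j, by omega, ?_, Or.inr (Or.inr ⟨hv, rfl, Or.inl ⟨hq, rfl⟩⟩)⟩
          rw [matD_A D hj, if_neg hq, if_pos (by rw [h1.2]; exact hv), h3]
      · refine ⟨3 * j, by omega, ?_, Or.inr (Or.inl ⟨hv, rfl, rfl⟩)⟩
        rw [matD_A D hj, if_pos (by rw [h1.2]; exact hv), h3]
  · refine ⟨ix x, ix_lt hx, ?_, Or.inl ⟨hv, rfl⟩⟩
    obtain ⟨i, b⟩ := x
    cases b
    · rw [ix_false, matD_B D hx, if_neg hv]
    · rw [ix_true, matD_C D hx, if_neg hv]

/-- The partner of the woman `3 * i`. -/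
theorem matD_partnerA {D : Finset ℕ} (hD : Closed E D) {i : ℕ} (hi : i < E.length) :
    ∃ m < 3 * E.length, (matD E D).getD m 0 = 3 * i ∧
      ((vt E (i, false) ∉ D ∧ m = 3 * i) ∨ (vt E (i, false) ∈ D ∧ m = 3 * i + 1)) := by
  by_cases hv : vt E (i, false) ∈ D
  · refine ⟨3 * i + 1, by omega, ?_, Or.inr ⟨hv, rfl⟩⟩
    rw [matD_B D hi, if_pos hv]
  · refine ⟨3 * i, by omega, ?_, Or.inl ⟨hv, rfl⟩⟩
    have : vt E (i, true) ∉ D := fun h => hv (closed_iff.1 hD i hi h)
    rw [matD_A D hi, if_neg this, if_neg hv]

theorem matD_perm {D : Finset ℕ} (hD : Closed E D) :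
    (matD E D).Perm (List.range (3 * E.length)) := by
  refine perm_of_surj (matD_length D) ?_
  intro w hw
  rcases exists_ix w with ⟨i, rfl⟩ | ⟨x, rfl⟩
  · obtain ⟨m, h1, h2, -⟩ := matD_partnerA hD (i := i) (by omega)
    exact ⟨m, h1, h2⟩
  · obtain ⟨m, h1, h2, -⟩ := matD_partner hD (ix_lt' hw)
    exact ⟨m, h1, h2⟩

theorem ix_mem_swX (x : ℕ × Bool) : ix x ∈ swX E x := by
  unfold swX
  cases (pv E x).2 <;> simp

theorem swX_idx (x : ℕ × Bool) (hx : x.1 < E.length) (hE : Incr E) {m : ℕ} (hm : m ∈ swX E x)
    (h : m ≠ ix x) : (swX E x).idxOf m < (swX E x).idxOf (ix x) := by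
  have h1 := pv_mem (E := E) hx
  have h3 := nx_pv (E := E) hx
  cases hp : pv E x with
  | mk j c =>
    rw [hp] at h1 h3
    simp only [swX, hp] at hm ⊢
    have hne := ix_ne x j
    cases c
    · simp only [cond_false, List.mem_cons, List.not_mem_nil, or_false] at hm ⊢
      have h4 : 3 * j + 2 ≠ ix x := by
        intro h5
        rw [← ix_true] at h5
        rw [← ix_inj h5] at h3
        exact nx_ne' hE h1.1 h3
      rw [List.idxOf_cons_ne _ h4, List.idxOf_cons_ne _ hne.symm, List.idxOf_cons_self]
      rcases hm with rfl | rfl | rfl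
      · rw [List.idxOf_cons_self]; omega
      · rw [List.idxOf_cons_ne _ (by omega), List.idxOf_cons_self]; omega
      · exact absurd rfl h
    · simp only [cond_true, List.mem_cons, List.not_mem_nil, or_false] at hm ⊢
      rw [List.idxOf_cons_ne _ hne.symm, List.idxOf_cons_self]
      rcases hm with rfl | rfl
      · rw [List.idxOf_cons_self]; omega
      · exact absurd rfl h

theorem matD_stable (hE : Incr E) {D : Finset ℕ} (hD : Closed E D) :
    (mkSM E).Stable (matD E D) := by
  have hperm := matD_perm (E := E) hD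
  obtain ⟨hf, hg⟩ := perm_facts hperm
  refine ⟨by rw [size_mkSM]; exact hperm, ?_⟩
  rintro m w ⟨hm, hw, hne, hb1, hb2⟩
  rw [size_mkSM] at hm hw
  unfold Before at hb1 hb2
  -- the partner of `3 * i`
  have hwA : ∀ i, i < E.length → vt E (i, false) ∈ D → w = 3 * i → False := by
    intro i hi hv hwi
    obtain ⟨m', h1, h2, h3⟩ := matD_partnerA hD hi
    have h4 : (matD E D).idxOf w = 3 * i + 1 := by
      have h5 := (hf m' h1).2
      rw [h2] at h5
      rw [hwi, h5]
      rcases h3 with h3 | h3
      · exact absurd hv h3.1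
      · exact h3.2
    rw [h4, hwi, (women_get hi)] at hb2
    have h5 := full_before (s := swA i) (by simp [swA]) hb2
    have : (swA i).idxOf (3 * i + 1) = 0 := by simp [swA]
    omega
  -- women who are not with their first partners
  have hwX : ∀ x : ℕ × Bool, x.1 < E.length → w = ix x → m = ix x →
      (matD E D).getD m 0 ≠ w → False := by
    intro x hx hwx hmx hfm
    obtain ⟨m', h1, h2, h3⟩ := matD_partner hD hx
    have h4 : (matD E D).idxOf w = m' := by rw [hwx, ← h2, (hf m' h1).2]
    rw [h4, hwx, women_ix hx, hmx] at hb2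
    have hm' : m' ∈ swX E x := by
      rcases h3 with ⟨-, rfl⟩ | ⟨-, h5, rfl⟩ | ⟨-, h5, h6⟩
      · exact ix_mem_swX x
      · simp [swX, h5]
      · rcases h6 with ⟨-, rfl⟩ | ⟨-, rfl⟩ <;> simp [swX, h5]
    have hne' : m' ≠ ix x := by
      intro h5
      apply hfm
      rw [hmx, ← h5, h2, hwx]
    have h5 := swX_idx x hx hE hm' hne'
    have h6 := full_before (s := swX E x) hm' hb2
    omega
  rcases exists_ix m with ⟨i, rfl⟩ | ⟨x, rfl⟩
  · have hi : i < E.length := by omega
    rw [(men_get hi).1, matD_A D hi] at hb1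
    by_cases h1 : vt E (i, true) ∈ D
    · have h0 := closed_iff.1 hD i hi h1
      rw [if_pos h1] at hb1
      obtain ⟨h2, h3⟩ := full_before (s := smA E i) (by simp [smA]) hb1
      simp only [smA, List.mem_cons, List.not_mem_nil, or_false] at h2
      rcases h2 with rfl | rfl | rfl
      · exact hwA i hi h0 rfl
      · -- the woman `ix (nx (i, false))` is with her favourite
        have hx := (nx_mem (E := E) (x := (i, false)) hi)
        obtain ⟨m', h4, h5, h6⟩ := matD_partner hD hx.1
        rw [pv_nx (x := (i, false)) hi, hx.2] at h6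
        have h7 : m' = 3 * i + 2 := by
          rcases h6 with h6 | h6 | h6
          · exact absurd h0 h6.1
          · simp at h6
          · rcases h6.2.2 with h7 | h7
            · exact absurd h1 h7.1
            · exact h7.2
        have h8 : (matD E D).idxOf (ix (nx E (i, false))) = 3 * i + 2 := by
          rw [← h5, (hf m' h4).2, h7]
        rw [h8, women_ix hx.1] at hb2
        have hs : swX E (nx E (i, false)) = [3 * i + 2, 3 * i, ix (nx E (i, false))] := by
          simp [swX, pv_nx (x := (i, false)) hi]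
        rw [hs] at hb2
        have h9 := full_before (s := [3 * i + 2, 3 * i, ix (nx E (i, false))]) (by simp) hb2
        have h10 : List.idxOf (3 * i + 2) [3 * i + 2, 3 * i, ix (nx E (i, false))] = 0 := by simp
        omega
      · exact lt_irrefl _ h3
    · rw [if_neg h1] at hb1
      by_cases h0 : vt E (i, false) ∈ D
      · rw [if_pos h0] at hb1
        obtain ⟨h2, h3⟩ := full_before (s := smA E i) (by simp [smA]) hb1
        simp only [smA, List.mem_cons, List.not_mem_nil, or_false] at h2
        rcases h2 with rfl | rfl | rfl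
        · exact hwA i hi h0 rfl
        · exact lt_irrefl _ h3
        · have h4 := nx_ne hE hi
          have h5 : ix (nx E (i, false)) ≠ ix (nx E (i, true)) := fun h => h4 (ix_inj h)
          simp only [smA] at h3
          rw [List.idxOf_cons_ne _ (ix_ne _ _).symm, List.idxOf_cons_ne _ h5,
            List.idxOf_cons_self, List.idxOf_cons_ne _ (ix_ne _ _).symm,
            List.idxOf_cons_self] at h3
          omega
      · rw [if_neg h0] at hb1
        obtain ⟨h2, h3⟩ := full_before (s := smA E i) (by simp [smA]) hb1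
        have : (smA E i).idxOf (3 * i) = 0 := by simp [smA]
        omega
  · have hx := ix_lt' hm
    obtain ⟨i, b⟩ := x
    have hi : i < E.length := hx
    cases b
    · rw [ix_false] at hb1 hb2 hne
      rw [(men_get hi).2.1, matD_B D hi] at hb1
      by_cases h0 : vt E (i, false) ∈ D
      · rw [if_pos h0] at hb1
        obtain ⟨h2, h3⟩ := full_before (s := smB i) (by simp [smB]) hb1
        simp only [smB, List.mem_cons, List.not_mem_nil, or_false] at h2
        rcases h2 with rfl | rfl
        · exact hwX (i, false) hi rfl rfl hne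
        · exact lt_irrefl _ h3
      · rw [if_neg h0] at hb1
        obtain ⟨h2, h3⟩ := full_before (s := smB i) (by simp [smB]) hb1
        have : (smB i).idxOf (3 * i + 1) = 0 := by simp [smB]
        omega
    · rw [ix_true] at hb1 hb2 hne
      rw [(men_get hi).2.2, matD_C D hi] at hb1
      by_cases h0 : vt E (i, true) ∈ D
      · rw [if_pos h0] at hb1
        obtain ⟨h2, h3⟩ := full_before (s := smC E i) (by simp [smC]) hb1
        simp only [smC, List.mem_cons, List.not_mem_nil, or_false] at h2
        rcases h2 with rfl | rfl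
        · exact hwX (i, true) hi rfl rfl hne
        · exact lt_irrefl _ h3
      · rw [if_neg h0] at hb1
        obtain ⟨h2, h3⟩ := full_before (s := smC E i) (by simp [smC]) hb1
        have : (smC E i).idxOf (3 * i + 2) = 0 := by simp [smC]
        omega

end

end Pool.Agent.Work.MP_63b90e_lc
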