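import Pool.Agent.Work.MP_63b90e_lc.Renum

/-!
The clauses of a computation, with exactly one satisfying assignment for each accepted word.
-/

set_option autoImplicit false
set_option linter.unusedSimpArgs false

namespace Pool.Agent.Work.MP_63b90e_lc

open Pool.Agent.Work.PolyTime
open Pool.Agent.Work.MP_0532f7_lc (sstep tinit cell src dst bs sstep_fst sstep_cell cell_init
  wf_iter row_lt getD_lt row_mem)

theorem satV_append {A B : List LC} {X : List ℕ → Bool} :
    SatV (A ++ B) X ↔ SatV A X ∧ SatV B X := by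
  simp only [SatV, List.mem_append]
  exact ⟨fun h => ⟨fun c hc => h c (Or.inl hc), fun c hc => h c (Or.inr hc)⟩,
    fun h c hc => hc.elim (h.1 c) (h.2 c)⟩

theorem satV_flatMap {ι : Type} {L : List ι} {f : ι → List LC} {X : List ℕ → Bool} :
    SatV (L.flatMap f) X ↔ ∀ a ∈ L, SatV (f a) X := by
  simp only [SatV, List.mem_flatMap]
  exact ⟨fun h a ha c hc => h c ⟨a, ha, hc⟩, fun h c ⟨a, ha, hc⟩ => h a ha c hc⟩

theorem satV_map {ι : Type} {L : List ι} {f : ι → LC} {X : List ℕ → Bool} :
    SatV (L.map f) X ↔ ∀ a ∈ L, SatV [f a] X := by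
  simp only [SatV, List.mem_map, List.mem_singleton]
  exact ⟨fun h a ha c hc => h c ⟨a, ha, hc.symm⟩, fun h c ⟨a, ha, hc⟩ => h a ha c hc.symm⟩

theorem satV_imp2 {X : List ℕ → Bool} {a b c : List ℕ} :
    SatV [[(false, a), (false, b), (true, c)]] X ↔ (X a = true → X b = true → X c = true) := by
  simp only [SatV, List.mem_singleton, forall_eq, List.mem_cons, List.not_mem_nil, or_false,
    exists_eq_or_imp, exists_eq_left]
  cases X a <;> cases X b <;> simp

theorem satV_imp1 {X : List ℕ → Bool} {a c : List ℕ} :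
    SatV [[(false, a), (true, c)]] X ↔ (X a = true → X c = true) := by
  simp only [SatV, List.mem_singleton, forall_eq, List.mem_cons, List.not_mem_nil, or_false,
    exists_eq_or_imp, exists_eq_left]
  cases X a <;> simp

theorem satV_imp1' {X : List ℕ → Bool} {a c : List ℕ} :
    SatV [[(true, a), (true, c)]] X ↔ (X a = false → X c = true) := by
  simp only [SatV, List.mem_singleton, forall_eq, List.mem_cons, List.not_mem_nil, or_false,
    exists_eq_or_imp, exists_eq_left]
  cases X a <;> simp

theorem satV_unit {X : List ℕ → Bool} {c : List ℕ} :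
    SatV [[(true, c)]] X ↔ X c = true := by
  simp only [SatV, List.mem_singleton, forall_eq, exists_eq_left]

theorem satV_nil {X : List ℕ → Bool} : SatV [] X := by simp [SatV]

theorem satV_cons {X : List ℕ → Bool} {c : LC} {C : List LC} :
    SatV (c :: C) X ↔ SatV [c] X ∧ SatV C X := by
  rw [← List.singleton_append, satV_append]

/-- At most one of the variables is true. -/
def amo (L : List (List ℕ)) : List LC :=
  L.flatMap fun v => (L.filter fun w => !decide (w = v)).map fun w => [(false, v), (false, w)]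

theorem satV_amo {L : List (List ℕ)} {X : List ℕ → Bool} :
    SatV (amo L) X ↔ ∀ v ∈ L, ∀ w ∈ L, w ≠ v → X v = true → X w = false := by
  unfold amo
  rw [satV_flatMap]
  refine forall₂_congr fun v _ => ?_
  rw [satV_map]
  simp only [List.mem_filter, Bool.not_eq_true', decide_eq_false_iff_not, and_imp]
  refine forall₃_congr fun w _ _ => ?_
  simp only [SatV, List.mem_singleton, forall_eq, List.mem_cons, List.not_mem_nil, or_false,
    exists_eq_or_imp, exists_eq_left]
  cases X v <;> simp

section

variable (T : List (List ℕ)) (N q0 K k0 k1 i0 i1 o1 : ℕ)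

/-- Transition clauses for the states. -/
def cA (τ : ℕ) : List LC := (List.range τ).flatMap fun t => (List.range N).flatMap fun s =>
  (List.range (N + 1)).flatMap fun c =>
    [[(false, [t, s]), (false, [t, (T.getD s []).getD 1 0, 0, c]),
      (true, [t + 1, MP_0532f7_lc.nx T s c])]]

/-- Transition clauses for the cells. -/
def cB (τ : ℕ) : List LC := (List.range τ).flatMap fun t =>
  (List.range (τ + 1 - t)).flatMap fun i => (List.range N).flatMap fun s =>
    (List.range K).flatMap fun k => (List.range (N + 1)).flatMap fun c =>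
      [[(false, [t, s]), (false, [t, k, src T s k i, c]), (true, [t + 1, k, i, dst T s k i c])]]

/-- Initial clauses. -/
def cI (u : List Bool) (m τ : ℕ) : List LC :=
  (List.range u.length).flatMap (fun i => [[(true, [0, k0, i, bs i0 i1 (u.getD i false)])]]) ++
  ((List.range m).flatMap (fun j => [[(false, [j]), (true, [0, k0, u.length + j, bs i0 i1 true])],
    [(true, [j]), (true, [0, k0, u.length + j, bs i0 i1 false])]]) ++
  ((List.range (τ + 2 - (u.length + m))).flatMap
    (fun i => [[(true, [0, k0, u.length + m + i, 0])]]) ++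
  ((List.range K).flatMap (fun k => (List.range (τ + 2)).flatMap fun i =>
    if k = k0 then [] else [[(true, [0, k, i, 0])]]) ++
  [[(true, [0, q0])]])))

/-- Uniqueness clauses. -/
def cE (τ : ℕ) : List LC := (List.range (τ + 1)).flatMap fun t =>
  amo ((List.range N).flatMap fun s => [[t, s]]) ++
  (List.range (τ + 2 - t)).flatMap fun i => (List.range K).flatMap fun k =>
    amo ((List.range (N + 1)).flatMap fun c => [[t, k, i, c]])

/-- Acceptance clauses. -/
def cF (τ : ℕ) : List LC := [[(true, [τ, k1, 0, o1 + 1])], [(true, [τ, k1, 1, 0])]]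

/-- All clauses. -/
def tab (u : List Bool) (m τ : ℕ) : List LC :=
  cA T N τ ++ (cB T N K τ ++ (cI q0 K k0 i0 i1 u m τ ++ (cE N K τ ++ cF k1 o1 τ)))

/-- The configuration at time `t`. -/
def cfg (u z : List Bool) (t : ℕ) : ℕ × List (List ℕ) :=
  (sstep T)^[t] (tinit q0 K k0 i0 i1 (u ++ z))

/-- The valuation of a computation. -/
def vl (u z : List Bool) : List ℕ → Bool
  | [j] => z.getD j false
  | [t, s] => decide ((cfg T q0 K k0 i0 i1 u z t).1 = s)
  | [t, k, i, c] => decide (cell (cfg T q0 K k0 i0 i1 u z t).2 k i = c)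
  | _ => false

/-- Acceptance. -/
def Acc (u z : List Bool) (τ : ℕ) : Prop :=
  cell (cfg T q0 K k0 i0 i1 u z τ).2 k1 0 = o1 + 1 ∧ cell (cfg T q0 K k0 i0 i1 u z τ).2 k1 1 = 0

end

/-- The range of the variables. -/
def InR (N K m τ : ℕ) : List ℕ → Prop
  | [j] => j < m
  | [t, s] => t ≤ τ ∧ s < N
  | [t, k, i, c] => t ≤ τ ∧ k < K ∧ t + i ≤ τ + 1 ∧ c ≤ N
  | _ => False

/-- All variables of the clauses satisfy a predicate. -/
def AllV (P : List ℕ → Prop) (C : List LC) : Prop := ∀ c ∈ C, ∀ l ∈ c, P l.2

theorem allV_append {P : List ℕ → Prop} {A B : List LC} :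
    AllV P (A ++ B) ↔ AllV P A ∧ AllV P B := by
  simp only [AllV, List.mem_append]
  exact ⟨fun h => ⟨fun c hc => h c (Or.inl hc), fun c hc => h c (Or.inr hc)⟩,
    fun h c hc => hc.elim (h.1 c) (h.2 c)⟩

theorem allV_flatMap {ι : Type} {P : List ℕ → Prop} {L : List ι} {f : ι → List LC} :
    AllV P (L.flatMap f) ↔ ∀ a ∈ L, AllV P (f a) := by
  simp only [AllV, List.mem_flatMap]
  exact ⟨fun h a ha c hc => h c ⟨a, ha, hc⟩, fun h c ⟨a, ha, hc⟩ => h a ha c hc⟩

theorem allV_amo {P : List ℕ → Prop} {L : List (List ℕ)} (h : ∀ v ∈ L, P v) : AllV P (amo L) := by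
  unfold amo
  rw [allV_flatMap]
  intro v hv c hc l hl
  obtain ⟨w, hw, rfl⟩ := List.mem_map.1 hc
  simp only [List.mem_cons, List.not_mem_nil, or_false] at hl
  rcases hl with rfl | rfl
  · exact h _ hv
  · exact h _ (List.mem_filter.1 hw).1

theorem bs_le {i0 i1 N : ℕ} (h0 : i0 < N) (h1 : i1 < N) (b : Bool) : bs i0 i1 b ≤ N := by
  cases b <;> simp [bs] <;> omega

variable {T : List (List ℕ)} {N q0 K k0 k1 i0 i1 o1 : ℕ}

theorem nx_lt (h : ∀ row ∈ T, ∀ a ∈ row, a < N) {s : ℕ} (hs : s < N) (c : ℕ) :
    MP_0532f7_lc.nx T s c < N := by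
  have hrow := row_mem h s
  unfold MP_0532f7_lc.nx
  split_ifs
  · exact hs
  · exact getD_lt (by omega) (fun a ha => hrow a (List.mem_of_mem_drop ha)) _
  · exact getD_lt (by omega) (fun a ha => hrow a (List.mem_of_mem_drop ha)) _

theorem dst_le (h : ∀ row ∈ T, ∀ a ∈ row, a < N) {s : ℕ} (hs : s < N) (k i : ℕ) {c : ℕ}
    (hc : c ≤ N) : dst T s k i c ≤ N := by
  have hrow := row_mem h s
  unfold dst
  split_ifs
  · exact getD_lt (by omega) hrow _
  · exact hc

theorem src_le (s k i : ℕ) : src T s k i ≤ i + 1 := by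
  unfold src; split_ifs <;> omega

theorem allV_tab (h : ∀ row ∈ T, ∀ a ∈ row, a < N) (hK : ∀ row ∈ T, row.getD 1 0 < K)
    (hk0 : k0 < K) (hk1 : k1 < K) (hq : q0 < N) (h0 : i0 < N) (h1 : i1 < N) (ho : o1 < N)
    {u : List Bool} {m τ : ℕ} (hτ : u.length + m ≤ τ) :
    AllV (InR N K m τ) (tab T N q0 K k0 k1 i0 i1 o1 u m τ) := by
  unfold tab
  rw [allV_append, allV_append, allV_append, allV_append]
  refine ⟨?_, ?_, ?_, ?_, ?_⟩
  · unfold cA
    simp only [allV_flatMap, List.mem_range]
    intro t ht s hs c hc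
    simp only [AllV, List.mem_cons, List.not_mem_nil, or_false, forall_eq, forall_eq_or_imp,
      InR]
    have e1 := row_lt (by omega : 0 < K) hK s
    have e2 := nx_lt h hs c
    exact ⟨⟨by omega, hs⟩, ⟨by omega, e1, by omega, by omega⟩, by omega, e2⟩
  · unfold cB
    simp only [allV_flatMap, List.mem_range]
    intro t ht i hi s hs k hk c hc
    simp only [AllV, List.mem_cons, List.not_mem_nil, or_false, forall_eq, forall_eq_or_imp,
      InR]
    have e1 := src_le (T := T) s k i
    have e2 := dst_le h hs k i (Nat.lt_succ_iff.1 hc)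
    exact ⟨⟨by omega, hs⟩, ⟨by omega, hk, by omega, by omega⟩, by omega, hk, by omega, e2⟩
  · unfold cI
    simp only [allV_append, allV_flatMap, List.mem_range]
    refine ⟨?_, ?_, ?_, ?_, ?_⟩
    · intro i hi
      simp only [AllV, List.mem_cons, List.not_mem_nil, or_false, forall_eq, InR]
      exact ⟨by omega, hk0, by omega, bs_le h0 h1 _⟩
    · intro j hj
      simp only [AllV, List.mem_cons, List.not_mem_nil, or_false, forall_eq, forall_eq_or_imp,
        InR]
      exact ⟨⟨hj, by omega, hk0, by omega, bs_le h0 h1 _⟩, hj, by omega, hk0, by omega,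
        bs_le h0 h1 _⟩
    · intro i hi
      simp only [AllV, List.mem_cons, List.not_mem_nil, or_false, forall_eq, InR]
      exact ⟨by omega, hk0, by omega, by omega⟩
    · intro k hk i hi
      split_ifs
      · simp [AllV]
      · simp only [AllV, List.mem_cons, List.not_mem_nil, or_false, forall_eq, InR]
        exact ⟨by omega, hk, by omega, by omega⟩
    · simp only [AllV, List.mem_cons, List.not_mem_nil, or_false, forall_eq, InR]
      exact ⟨by omega, hq⟩
  · unfold cE
    simp only [allV_append, allV_flatMap, List.mem_range]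
    intro t ht
    refine ⟨allV_amo ?_, fun i hi k hk => allV_amo ?_⟩
    · intro v hv
      simp only [List.mem_flatMap, List.mem_range, List.mem_singleton] at hv
      obtain ⟨s, hs, rfl⟩ := hv
      exact ⟨by omega, hs⟩
    · intro v hv
      simp only [List.mem_flatMap, List.mem_range, List.mem_singleton] at hv
      obtain ⟨c, hc, rfl⟩ := hv
      exact ⟨by omega, hk, by omega, by omega⟩
  · simp only [cF, AllV, List.mem_cons, List.not_mem_nil, or_false, forall_eq, forall_eq_or_imp,
      InR]
    exact ⟨⟨le_rfl, hk1, by omega, by omega⟩, le_rfl, hk1, by omega, by omega⟩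

/-- The valuation of an accepting computation satisfies the clauses. -/
theorem vl_sat (h : ∀ row ∈ T, ∀ a ∈ row, a < N) (hK : ∀ row ∈ T, row.getD 1 0 < K)
    (hk0 : k0 < K) (hq : q0 < N) (h0 : i0 < N) (h1 : i1 < N)
    {u z : List Bool} {m τ : ℕ} (hz : z.length = m) (hA : Acc T q0 K k0 k1 i0 i1 o1 u z τ) :
    SatV (tab T N q0 K k0 k1 i0 i1 o1 u m τ) (vl T q0 K k0 i0 i1 u z) := by
  have hwf := fun t => wf_iter h hK hk0 hq h0 h1 (u ++ z) t
  have hstep : ∀ t, cfg T q0 K k0 i0 i1 u z (t + 1) = sstep T (cfg T q0 K k0 i0 i1 u z t) :=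
    fun t => by simp only [cfg]; rw [Function.iterate_succ_apply']
  have hinit : cfg T q0 K k0 i0 i1 u z 0 = tinit q0 K k0 i0 i1 (u ++ z) := rfl
  unfold tab
  rw [satV_append, satV_append, satV_append, satV_append]
  refine ⟨?_, ?_, ?_, ?_, ?_⟩
  · unfold cA
    simp only [satV_flatMap, List.mem_range, satV_imp2]
    intro t ht s hs c hc
    simp only [vl, decide_eq_true_eq]
    intro e1 e2
    rw [hstep, show cfg T q0 K k0 i0 i1 u z t = ((cfg T q0 K k0 i0 i1 u z t).1,
      (cfg T q0 K k0 i0 i1 u z t).2) from rfl, sstep_fst, e1, e2]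
  · unfold cB
    simp only [satV_flatMap, List.mem_range, satV_imp2]
    intro t ht i hi s hs k hk c hc
    simp only [vl, decide_eq_true_eq]
    intro e1 e2
    rw [hstep, show cfg T q0 K k0 i0 i1 u z t = ((cfg T q0 K k0 i0 i1 u z t).1,
      (cfg T q0 K k0 i0 i1 u z t).2) from rfl, sstep_cell, e1, e2]
    intro h3
    have h4 := (hwf t).2
    change (cfg T q0 K k0 i0 i1 u z t).2.length = K at h4
    rw [h4]
    exact row_lt (by omega) hK _
  · unfold cI
    simp only [satV_append, satV_flatMap, List.mem_range, satV_unit]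
    refine ⟨?_, ?_, ?_, ?_, ?_⟩
    · intro i hi
      simp only [vl, decide_eq_true_eq]
      rw [hinit, cell_init hk0, if_pos rfl, List.getElem?_append_left hi,
        List.getElem?_eq_getElem hi, List.getD_eq_getElem _ _ hi]
    · intro j hj
      rw [satV_cons, satV_imp1, satV_imp1']
      have e1 : cell (cfg T q0 K k0 i0 i1 u z 0).2 k0 (u.length + j) =
          bs i0 i1 (z.getD j false) := by
        rw [hinit, cell_init hk0, if_pos rfl, List.getElem?_append_right (by omega)]
        have : u.length + j - u.length = j := by omega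
        rw [this, List.getElem?_eq_getElem (by omega), List.getD_eq_getElem _ _ (by omega)]
      simp only [vl, decide_eq_true_eq]
      rw [e1]
      exact ⟨fun h => by rw [h], fun h => by rw [h]⟩
    · intro i hi
      simp only [vl, decide_eq_true_eq]
      rw [hinit, cell_init hk0, if_pos rfl,
        List.getElem?_eq_none (by rw [List.length_append]; omega)]
    · intro k hk i hi
      split_ifs with hk'
      · exact satV_nil
      · rw [satV_unit]
        simp only [vl, decide_eq_true_eq]
        rw [hinit, cell_init hk0, if_neg hk']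
    · simp only [vl, decide_eq_true_eq]
      rfl
  · unfold cE
    simp only [satV_append, satV_flatMap, List.mem_range, satV_amo]
    intro t ht
    refine ⟨?_, fun i hi k hk => ?_⟩
    · intro v hv w hw hne
      simp only [List.mem_flatMap, List.mem_range, List.mem_singleton] at hv hw
      obtain ⟨s, hs, rfl⟩ := hv
      obtain ⟨s', hs', rfl⟩ := hw
      simp only [vl, decide_eq_true_eq, decide_eq_false_iff_not]
      rintro rfl rfl
      exact hne rfl
    · intro v hv w hw hne
      simp only [List.mem_flatMap, List.mem_range, List.mem_singleton] at hv hw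
      obtain ⟨s, hs, rfl⟩ := hv
      obtain ⟨s', hs', rfl⟩ := hw
      simp only [vl, decide_eq_true_eq, decide_eq_false_iff_not]
      rintro rfl rfl
      exact hne rfl
  · unfold cF
    rw [satV_cons, satV_unit, satV_unit]
    simp only [vl, decide_eq_true_eq]
    exact hA

/-- Every satisfying valuation is the valuation of an accepting computation. -/
theorem sat_vl (h : ∀ row ∈ T, ∀ a ∈ row, a < N) (hK : ∀ row ∈ T, row.getD 1 0 < K)
    (hk0 : k0 < K) (hk1 : k1 < K) (hq : q0 < N) (h0 : i0 < N) (h1 : i1 < N) (ho : o1 < N)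
    {u : List Bool} {m τ : ℕ} (hτ : u.length + m ≤ τ) {X : List ℕ → Bool}
    (hX : SatV (tab T N q0 K k0 k1 i0 i1 o1 u m τ) X) :
    ∃ z : List Bool, z.length = m ∧ Acc T q0 K k0 k1 i0 i1 o1 u z τ ∧
      ∀ v ∈ vars (tab T N q0 K k0 k1 i0 i1 o1 u m τ), X v = vl T q0 K k0 i0 i1 u z v := by
  obtain ⟨z, hzl, hzb⟩ : ∃ z : List Bool, z.length = m ∧ ∀ j < m, z[j]? = some (X [j]) := by
    refine ⟨(List.range m).map (fun j => X [j]), by simp, fun j hj => ?_⟩
    rw [List.getElem?_map, List.getElem?_range hj]; rfl
  have hwf := fun t => wf_iter h hK hk0 hq h0 h1 (u ++ z) t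
  have hstep : ∀ t, cfg T q0 K k0 i0 i1 u z (t + 1) = sstep T (cfg T q0 K k0 i0 i1 u z t) :=
    fun t => by simp only [cfg]; rw [Function.iterate_succ_apply']
  have hinit : cfg T q0 K k0 i0 i1 u z 0 = tinit q0 K k0 i0 i1 (u ++ z) := rfl
  have hst : ∀ t, (cfg T q0 K k0 i0 i1 u z t).1 < N := fun t => (hwf t).1.1
  have hcl : ∀ t k i, cell (cfg T q0 K k0 i0 i1 u z t).2 k i ≤ N := fun t k i => (hwf t).1.2 k i
  have hlen : ∀ t, (cfg T q0 K k0 i0 i1 u z t).2.length = K := fun t => (hwf t).2
  have hX' := hX
  unfold tab at hX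
  rw [satV_append, satV_append, satV_append, satV_append] at hX
  obtain ⟨xA, xB, xI, xE, xF⟩ := hX
  unfold cA at xA
  unfold cB at xB
  unfold cI at xI
  unfold cE at xE
  simp only [satV_flatMap, List.mem_range, satV_imp2] at xA xB
  simp only [satV_append, satV_flatMap, List.mem_range, satV_unit] at xI
  simp only [satV_append, satV_flatMap, List.mem_range, satV_amo] at xE
  obtain ⟨y1, y2, y3, y4, y5⟩ := xI
  have key : ∀ t ≤ τ, X [t, (cfg T q0 K k0 i0 i1 u z t).1] = true ∧
      ∀ k < K, ∀ i, t + i ≤ τ + 1 → X [t, k, i, cell (cfg T q0 K k0 i0 i1 u z t).2 k i] = true := by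
    intro t
    induction t with
    | zero =>
      intro _
      refine ⟨y5, ?_⟩
      intro k hk i hi
      rw [hinit, cell_init hk0]
      by_cases hkk : k = k0
      · subst hkk
        rw [if_pos rfl]
        by_cases hi1 : i < u.length
        · rw [List.getElem?_append_left hi1, List.getElem?_eq_getElem hi1]
          have h5 := y1 i hi1
          rw [List.getD_eq_getElem _ _ hi1] at h5
          exact h5
        · rw [List.getElem?_append_right (by omega)]
          by_cases hi2 : i - u.length < m
          · rw [hzb _ hi2]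
            have e : u.length + (i - u.length) = i := by omega
            have h5 := y2 _ hi2
            rw [satV_cons, satV_imp1, satV_imp1', e] at h5
            cases hb : X [i - u.length] with
            | true => exact h5.1 hb
            | false => exact h5.2 hb
          · rw [List.getElem?_eq_none (by omega)]
            have h5 := y3 (i - u.length - m) (by omega)
            have e : u.length + m + (i - u.length - m) = i := by omega
            rwa [e] at h5
      · rw [if_neg hkk]
        have h5 := y4 k hk i (by omega)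
        rw [if_neg hkk, satV_unit] at h5
        exact h5
    | succ t ih =>
      intro ht
      obtain ⟨ih1, ih2⟩ := ih (by omega)
      have e0 : cfg T q0 K k0 i0 i1 u z t = ((cfg T q0 K k0 i0 i1 u z t).1,
        (cfg T q0 K k0 i0 i1 u z t).2) := rfl
      refine ⟨?_, ?_⟩
      · have hkk := row_lt (by omega : 0 < K) hK (cfg T q0 K k0 i0 i1 u z t).1
        have h5 := xA t (by omega) _ (hst t) _ (Nat.lt_succ_of_le (hcl t
          ((T.getD (cfg T q0 K k0 i0 i1 u z t).1 []).getD 1 0) 0)) ih1 (ih2 _ hkk 0 (by omega))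
        rw [hstep, e0, sstep_fst]
        exact h5
      · intro k hk i hi
        have hk' : (T.getD (cfg T q0 K k0 i0 i1 u z t).1 []).getD 0 0 ≠ 0 →
            (T.getD (cfg T q0 K k0 i0 i1 u z t).1 []).getD 1 0 <
              (cfg T q0 K k0 i0 i1 u z t).2.length := by
          intro h3
          rw [hlen]; exact row_lt (by omega) hK _
        have hs := src_le (T := T) (cfg T q0 K k0 i0 i1 u z t).1 k i
        have h5 := xB t (by omega) i (by omega) _ (hst t) k hk _ (Nat.lt_succ_of_le (hcl t k
          (src T (cfg T q0 K k0 i0 i1 u z t).1 k i))) ih1 (ih2 k hk _ (by omega))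
        rw [hstep, e0, sstep_cell _ _ _ _ _ hk']
        exact h5
  -- all values
  have kS : ∀ t ≤ τ, ∀ s < N, X [t, s] = decide ((cfg T q0 K k0 i0 i1 u z t).1 = s) := by
    intro t ht s hs
    by_cases he : (cfg T q0 K k0 i0 i1 u z t).1 = s
    · rw [← he, (key t ht).1]; simp
    · have h5 := (xE t (by omega)).1 [t, (cfg T q0 K k0 i0 i1 u z t).1] (by
          simp only [List.mem_flatMap, List.mem_range, List.mem_singleton]
          exact ⟨_, hst t, rfl⟩) [t, s] (by
          simp only [List.mem_flatMap, List.mem_range, List.mem_singleton]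
          exact ⟨_, hs, rfl⟩) (by
          intro e
          simp only [List.cons.injEq, and_true, true_and] at e
          exact he e.symm) (key t ht).1
      rw [h5]; simp [he]
  have kC : ∀ t ≤ τ, ∀ k < K, ∀ i, t + i ≤ τ + 1 → ∀ c ≤ N,
      X [t, k, i, c] = decide (cell (cfg T q0 K k0 i0 i1 u z t).2 k i = c) := by
    intro t ht k hk i hi c hc
    by_cases he : cell (cfg T q0 K k0 i0 i1 u z t).2 k i = c
    · rw [← he, (key t ht).2 k hk i hi]; simp
    · have h5 := (xE t (by omega)).2 i (by omega) k hk
          [t, k, i, cell (cfg T q0 K k0 i0 i1 u z t).2 k i] (by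
          simp only [List.mem_flatMap, List.mem_range, List.mem_singleton]
          exact ⟨_, Nat.lt_succ_of_le (hcl t k i), rfl⟩) [t, k, i, c] (by
          simp only [List.mem_flatMap, List.mem_range, List.mem_singleton]
          exact ⟨_, Nat.lt_succ_of_le hc, rfl⟩) (by
          intro e
          simp only [List.cons.injEq, and_true, true_and] at e
          exact he e.symm) ((key t ht).2 k hk i hi)
      rw [h5]; simp [he]
  refine ⟨z, hzl, ?_, ?_⟩
  · unfold cF at xF
    rw [satV_cons, satV_unit, satV_unit] at xF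
    obtain ⟨f1, f2⟩ := xF
    rw [kC τ le_rfl k1 hk1 0 (by omega) _ (by omega), decide_eq_true_eq] at f1
    rw [kC τ le_rfl k1 hk1 1 (by omega) _ (by omega), decide_eq_true_eq] at f2
    exact ⟨f1, f2⟩
  · intro v hv
    obtain ⟨c, hc, l, hl, rfl⟩ := mem_vars.1 hv
    have hR := allV_tab h hK hk0 hk1 hq h0 h1 ho hτ c hc l hl
    revert hR
    match l.2 with
    | [] => exact fun hR => hR.elim
    | [j] =>
      intro hR
      change j < m at hR
      simp only [vl]
      rw [List.getD_eq_getElem?_getD, hzb j hR, Option.getD_some]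
    | [t, s] =>
      rintro ⟨a1, a2⟩
      simp only [vl]
      exact kS t a1 s a2
    | [_, _, _] => exact fun hR => hR.elim
    | [t, k, i, c] =>
      rintro ⟨a1, a2, a3, a4⟩
      simp only [vl]
      exact kC t a1 k a2 i a3 c a4
    | _ :: _ :: _ :: _ :: _ :: _ => exact fun hR => hR.elim

/-- The number of satisfying assignments is the number of accepted words. -/
theorem satCount_tab (h : ∀ row ∈ T, ∀ a ∈ row, a < N) (hK : ∀ row ∈ T, row.getD 1 0 < K)
    (hk0 : k0 < K) (hk1 : k1 < K) (hq : q0 < N) (h0 : i0 < N) (h1 : i1 < N) (ho : o1 < N)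
    {u : List Bool} {m τ : ℕ} (hτ : u.length + m ≤ τ) :
    satCount (vars (tab T N q0 K k0 k1 i0 i1 o1 u m τ)).length
      (renum (tab T N q0 K k0 k1 i0 i1 o1 u m τ)) =
    {z : List Bool | z.length = m ∧ Acc T q0 K k0 k1 i0 i1 o1 u z τ}.ncard := by
  refine satCount_renum (val := vl T q0 K k0 i0 i1 u) ?_ ?_ ?_
  · intro z hz hA
    exact vl_sat h hK hk0 hq h0 h1 hz hA
  · intro X hX
    exact sat_vl h hK hk0 hk1 hq h0 h1 ho hτ hX
  · intro z z' hz hz' hv
    apply List.ext_getElem (by omega)
    intro j h2 h3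
    have hm : [j] ∈ vars (tab T N q0 K k0 k1 i0 i1 o1 u m τ) := by
      refine mem_vars.2 ⟨[(false, [j]), (true, [0, k0, u.length + j, bs i0 i1 true])], ?_,
        (false, [j]), by simp, rfl⟩
      unfold tab cI
      simp only [List.mem_append]
      refine Or.inr (Or.inr (Or.inl (Or.inr (Or.inl ?_))))
      rw [List.mem_flatMap]
      exact ⟨j, List.mem_range.2 (by omega), by simp⟩
    have h4 := hv _ hm
    simp only [vl] at h4
    rw [List.getD_eq_getElem _ _ h2, List.getD_eq_getElem _ _ h3] at h4
    exact h4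

end Pool.Agent.Work.MP_63b90e_lc
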