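import Pool.Agent.Work.MP_63b90e_lc.Tab

/-!
The clauses of a computation are computed in polynomial time.
-/

set_option autoImplicit false
set_option linter.unusedSimpArgs false

namespace Pool.Agent.Work.MP_63b90e_lc

open Pool.Agent.Work.PolyTime
open Pool.Agent.Work.MP_0532f7_lc (src dst bs)

section

variable {α β : Type} [Code α] [Code β]

/-- Concatenation over a fixed range. -/
theorem PTime.flatMapConst {f : α → ℕ → List β} (n : ℕ) (hf : ∀ i, PTime (fun x => f x i)) :
    PTime (fun x => (List.range n).flatMap (f x)) := by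
  induction n with
  | zero => exact PTime.const []
  | succ n ih =>
    have h : PTime (fun x => (List.range n).flatMap (f x) ++ f x n) := PTime.append ih (hf n)
    refine h.code_congr (fun x => ?_)
    rw [List.range_succ, List.flatMap_append]
    simp

theorem PTime.flatMapRange {f : α → ℕ → List β} {n : α → ℕ} (hn : PTime n)
    (hf : PTime (fun y : α × ℕ => f y.1 y.2)) :
    PTime (fun x => (List.range (n x)).flatMap (f x)) :=
  PTime.flatMap (PTime.range hn) hf

theorem PTime.amo {L : α → List (List ℕ)} (hL : PTime L) :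
    PTime (fun x => MP_63b90e_lc.amo (L x)) := by
  unfold MP_63b90e_lc.amo
  refine PTime.flatMap (f := fun x v => ((L x).filter fun w => !decide (w = v)).map
    fun w => [(false, v), (false, w)]) hL ?_
  refine PTime.map (f := fun (y : α × List ℕ) (w : List ℕ) => [(false, y.2), (false, w)]) ?_
    (by fun_prop)
  exact PTime.filter (p := fun (y : α × List ℕ) (w : List ℕ) => !decide (w = y.2))
    (hL.comp PTime.fst) (PTime.not (PTime.eq (f := fun z : (α × List ℕ) × List ℕ => z.2)
      (g := fun z => z.1.2) (by fun_prop) (by fun_prop)))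

variable (T : List (List ℕ)) (N q0 K k0 k1 i0 i1 o1 : ℕ)

theorem PTime.cA {τ : α → ℕ} (hτ : PTime τ) : PTime (fun x => MP_63b90e_lc.cA T N (τ x)) := by
  unfold MP_63b90e_lc.cA
  refine PTime.flatMapRange hτ ?_
  refine PTime.flatMapConst N fun s => ?_
  refine PTime.flatMapConst (N + 1) fun c => ?_
  fun_prop

theorem PTime.src (s k : ℕ) {i : α → ℕ} (hi : PTime i) :
    PTime (fun x => MP_0532f7_lc.src T s k (i x)) := by
  unfold MP_0532f7_lc.src
  split_ifs
  · fun_prop
  · fun_prop
  · exact hi

theorem PTime.dst (s k c : ℕ) {i : α → ℕ} (hi : PTime i) :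
    PTime (fun x => MP_0532f7_lc.dst T s k (i x) c) := by
  unfold MP_0532f7_lc.dst
  by_cases h : (T.getD s []).getD 0 0 = 2 ∧ (T.getD s []).getD 1 0 = k
  · simp only [h, true_and, and_self]
    refine PTime.ite (p := fun x => i x = 0) ?_ (PTime.const _) (PTime.const _)
    exact PTime.eq hi (PTime.const 0)
  · simp only [h, false_and, if_false]
    exact PTime.const _

theorem PTime.cB {τ : α → ℕ} (hτ : PTime τ) : PTime (fun x => MP_63b90e_lc.cB T N K (τ x)) := by
  unfold MP_63b90e_lc.cB
  refine PTime.flatMapRange hτ ?_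
  have hτ' : PTime (fun y : α × ℕ => τ y.1) := hτ.comp PTime.fst
  refine PTime.flatMapRange (by fun_prop) ?_
  refine PTime.flatMapConst N fun s => ?_
  refine PTime.flatMapConst K fun k => ?_
  refine PTime.flatMapConst (N + 1) fun c => ?_
  have h1 : PTime (fun z : (α × ℕ) × ℕ => MP_0532f7_lc.src T s k z.2) :=
    PTime.src T s k PTime.snd
  have h2 : PTime (fun z : (α × ℕ) × ℕ => MP_0532f7_lc.dst T s k z.2 c) :=
    PTime.dst T s k c PTime.snd
  fun_prop

theorem PTime.bs {b : α → Bool} (hb : PTime b) :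
    PTime (fun x => MP_0532f7_lc.bs i0 i1 (b x)) := by
  have h : PTime (fun x => (bif b x then i1 else i0) + 1) :=
    PTime.succ (PTime.cond hb (PTime.const _) (PTime.const _))
  exact h.code_congr (fun x => by unfold MP_0532f7_lc.bs; cases b x <;> rfl)

theorem PTime.cI {u : α → List Bool} {m τ : α → ℕ} (hu : PTime u) (hm : PTime m) (hτ : PTime τ) :
    PTime (fun x => MP_63b90e_lc.cI q0 K k0 i0 i1 (u x) (m x) (τ x)) := by
  unfold MP_63b90e_lc.cI
  have hu' : PTime (fun y : α × ℕ => u y.1) := hu.comp PTime.fst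
  have hm' : PTime (fun y : α × ℕ => m y.1) := hm.comp PTime.fst
  have hτ' : PTime (fun y : α × ℕ => τ y.1) := hτ.comp PTime.fst
  refine PTime.append (PTime.flatMapRange (PTime.length hu) ?_)
    (PTime.append (PTime.flatMapRange hm ?_) (PTime.append (PTime.flatMapRange (by fun_prop) ?_)
      (PTime.append ?_ (PTime.const _))))
  · have h1 : PTime (fun y : α × ℕ => MP_0532f7_lc.bs i0 i1 ((u y.1).getD y.2 false)) :=
      PTime.bs i0 i1 (PTime.nth hu' PTime.snd (PTime.const _))
    fun_prop
  · fun_prop
  · fun_prop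
  · refine PTime.flatMapConst K fun k => ?_
    refine PTime.flatMapRange (by fun_prop) ?_
    split_ifs
    · fun_prop
    · fun_prop

theorem PTime.cE {τ : α → ℕ} (hτ : PTime τ) : PTime (fun x => MP_63b90e_lc.cE N K (τ x)) := by
  unfold MP_63b90e_lc.cE
  have hτ' : PTime (fun y : α × ℕ => τ y.1) := hτ.comp PTime.fst
  refine PTime.flatMapRange (by fun_prop) (PTime.append (PTime.amo ?_)
    (PTime.flatMapRange (by fun_prop) (PTime.flatMapConst K fun k => PTime.amo ?_)))
  · refine PTime.flatMapConst N fun s => ?_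
    fun_prop
  · refine PTime.flatMapConst (N + 1) fun s => ?_
    fun_prop

theorem PTime.tab {u : α → List Bool} {m τ : α → ℕ} (hu : PTime u) (hm : PTime m)
    (hτ : PTime τ) :
    PTime (fun x => MP_63b90e_lc.tab T N q0 K k0 k1 i0 i1 o1 (u x) (m x) (τ x)) := by
  unfold MP_63b90e_lc.tab
  refine PTime.append (PTime.cA T N hτ) (PTime.append (PTime.cB T N K hτ)
    (PTime.append (PTime.cI q0 K k0 i0 i1 hu hm hτ) (PTime.append (PTime.cE N K hτ) ?_)))
  unfold MP_63b90e_lc.cF
  fun_prop

end

end Pool.Agent.Work.MP_63b90e_lc
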