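import Pool.Agent.Work.MP_63b90e_lc.Compare
import Pool.Agent.Work.MP_63b90e_lc.Gadget
import Pool.Agent.Work.PolyTime.Pairs

/-!
The constructions run in polynomial time.
-/

set_option autoImplicit false
set_option linter.unusedSimpArgs false

namespace Pool.Agent.Work.MP_63b90e_lc

open Pool.Agent.Work.PolyTime

section

variable {α : Type} [Code α]

/-! ### Graphs -/

theorem PTime.shiftE {k : α → ℕ} {E : α → List (ℕ × ℕ)} (hk : PTime k) (hE : PTime E) :
    PTime (fun x => MP_63b90e_lc.shiftE (k x) (E x)) := by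
  unfold MP_63b90e_lc.shiftE
  refine PTime.map (f := fun x (e : ℕ × ℕ) => (e.1 + k x, e.2 + k x)) hE ?_
  have h1 : PTime (fun y : α × (ℕ × ℕ) => k y.1) := hk.comp PTime.fst
  fun_prop

theorem PTime.unionG {G H : α → CG} (hG : PTime G) (hH : PTime H) :
    PTime (fun x => MP_63b90e_lc.unionG (G x) (H x)) := by
  unfold MP_63b90e_lc.unionG
  have h1 : PTime (fun x => (G x).1) := by fun_prop
  have h2 : PTime (fun x => (G x).2) := by fun_prop
  have h3 : PTime (fun x => (H x).1) := by fun_prop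
  have h4 : PTime (fun x => (H x).2) := by fun_prop
  exact PTime.prodMk (PTime.natAdd h1 h3) (PTime.append h2 (PTime.shiftE h1 h4))

theorem PTime.sumG {G H : α → CG} (hG : PTime G) (hH : PTime H) :
    PTime (fun x => MP_63b90e_lc.sumG (G x) (H x)) := by
  unfold MP_63b90e_lc.sumG
  have h1 : PTime (fun x => (G x).1) := by fun_prop
  have h2 : PTime (fun x => (G x).2) := by fun_prop
  have h3 : PTime (fun x => (H x).1) := by fun_prop
  have h4 : PTime (fun x => (H x).2) := by fun_prop
  have h5 : PTime (fun x => (List.range (G x).1).map (fun v => (v, (G x).1))) := by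
    refine PTime.map (f := fun x v => (v, (G x).1)) (PTime.range h1) ?_
    have := h1.comp (PTime.fst (α := α) (β := ℕ))
    fun_prop
  have h6 : PTime (fun x => (List.range (H x).1).map (fun w => ((G x).1, w + ((G x).1 + 1)))) := by
    refine PTime.map (f := fun x w => ((G x).1, w + ((G x).1 + 1))) (PTime.range h3) ?_
    have := h1.comp (PTime.fst (α := α) (β := ℕ))
    fun_prop
  exact PTime.prodMk (by fun_prop) (PTime.append h2 (PTime.append h5 (PTime.append h6
    (PTime.shiftE (PTime.natAdd h1 (PTime.const 1)) h4))))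

theorem PTime.botG {G : α → CG} (hG : PTime G) : PTime (fun x => MP_63b90e_lc.botG (G x)) :=
  PTime.sumG (PTime.const _) hG

theorem PTime.gF {G H : α → CG} (hG : PTime G) (hH : PTime H) :
    PTime (fun x => MP_63b90e_lc.gF (G x) (H x)) := PTime.unionG (PTime.botG hG) (PTime.botG hH)

/-- Offsets. -/
def off (Gs : List CG) (i : ℕ) : ℕ := ((Gs.take i).map fun G => G.1 + 1).sum

theorem PTime.off {Gs : α → List CG} {i : α → ℕ} (hG : PTime Gs) (hi : PTime i) :
    PTime (fun x => MP_63b90e_lc.off (Gs x) (i x)) := by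
  unfold MP_63b90e_lc.off
  exact PTime.listSum (PTime.map (f := fun _ (G : CG) => G.1 + 1) (PTime.take hG hi)
    (by fun_prop))

theorem PTime.sumL {Gs : α → List CG} (hG : PTime Gs) :
    PTime (fun x => MP_63b90e_lc.sumL (Gs x)) := by
  have h1 : PTime (fun x => ((Gs x).map fun G => G.1 + 1).sum) :=
    PTime.listSum (PTime.map (f := fun _ (G : CG) => G.1 + 1) hG (by fun_prop))
  have h2 : PTime (fun y : α × (CG × ℕ) => MP_63b90e_lc.off (Gs y.1) y.2.2) :=
    PTime.off (hG.comp PTime.fst) (by fun_prop)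
  have h3 : PTime (fun x => (Gs x).zipIdx.flatMap fun Gi =>
      (List.range (MP_63b90e_lc.off (Gs x) Gi.2)).map
        (fun v => (v, MP_63b90e_lc.off (Gs x) Gi.2)) ++
      ((List.range Gi.1.1).map (fun w => (MP_63b90e_lc.off (Gs x) Gi.2,
        w + (MP_63b90e_lc.off (Gs x) Gi.2 + 1))) ++
      MP_63b90e_lc.shiftE (MP_63b90e_lc.off (Gs x) Gi.2 + 1) Gi.1.2)) := by
    refine PTime.flatMap (f := fun x (Gi : CG × ℕ) =>
      (List.range (MP_63b90e_lc.off (Gs x) Gi.2)).map
        (fun v => (v, MP_63b90e_lc.off (Gs x) Gi.2)) ++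
      ((List.range Gi.1.1).map (fun w => (MP_63b90e_lc.off (Gs x) Gi.2,
        w + (MP_63b90e_lc.off (Gs x) Gi.2 + 1))) ++
      MP_63b90e_lc.shiftE (MP_63b90e_lc.off (Gs x) Gi.2 + 1) Gi.1.2)) (PTime.zipIdx hG) ?_
    refine PTime.append ?_ (PTime.append ?_ ?_)
    · refine PTime.map (f := fun (y : α × (CG × ℕ)) v => (v, MP_63b90e_lc.off (Gs y.1) y.2.2))
        (PTime.range h2) ?_
      have := h2.comp (PTime.fst (α := α × (CG × ℕ)) (β := ℕ))
      fun_prop
    · refine PTime.map (f := fun (y : α × (CG × ℕ)) w => (MP_63b90e_lc.off (Gs y.1) y.2.2,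
        w + (MP_63b90e_lc.off (Gs y.1) y.2.2 + 1)))
        (PTime.range (by fun_prop)) ?_
      have := h2.comp (PTime.fst (α := α × (CG × ℕ)) (β := ℕ))
      fun_prop
    · exact PTime.shiftE (PTime.natAdd h2 (PTime.const 1)) (by fun_prop)
  unfold MP_63b90e_lc.sumL
  exact PTime.prodMk h1 h3

theorem PTime.twoG {a : α → ℕ} {L : α → List (List ℕ)} (ha : PTime a) (hL : PTime L) :
    PTime (fun x => MP_63b90e_lc.twoG (a x) (L x)) := by
  unfold MP_63b90e_lc.twoG
  refine PTime.prodMk (PTime.natAdd ha (PTime.length hL)) ?_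
  refine PTime.flatMap (f := fun x (s : List ℕ × ℕ) => s.1.map fun b => (b, a x + s.2))
    (PTime.zipIdx hL) ?_
  refine PTime.map (f := fun (y : α × (List ℕ × ℕ)) b => (b, a y.1 + y.2.2)) (by fun_prop) ?_
  have : PTime (fun z : (α × (List ℕ × ℕ)) × ℕ => a z.1.1) :=
    ha.comp (PTime.fst.comp PTime.fst)
  fun_prop

theorem PTime.vtx {b : α → Bool} {i : α → ℕ} (hb : PTime b) (hi : PTime i) :
    PTime (fun x => MP_63b90e_lc.vtx (b x) (i x)) := by
  have h : PTime (fun x => 2 * i x + (bif b x then 1 else 0)) := by fun_prop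
  refine h.code_congr (fun x => ?_)
  rw [MP_63b90e_lc.vtx]
  cases b x <;> rfl

theorem PTime.gam {n : α → ℕ} {C : α → List NClause} (hn : PTime n) (hC : PTime C) :
    PTime (fun x => MP_63b90e_lc.gam (n x) (C x)) := by
  unfold MP_63b90e_lc.gam
  have hw : PTime (fun x => wgt (n x) (C x)) := by unfold wgt; fun_prop
  refine PTime.append ?_ (PTime.append ?_ ?_)
  · refine PTime.flatMap (f := fun x a => List.replicate (wgt (n x) (C x)) [a])
      (PTime.range (by fun_prop)) ?_
    exact PTime.replicate (hw.comp PTime.fst) (by fun_prop)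
  · refine PTime.map (f := fun _ i => [MP_63b90e_lc.vtx false i, MP_63b90e_lc.vtx true i])
      (PTime.range hn) ?_
    have h1 : PTime (fun y : α × ℕ => MP_63b90e_lc.vtx false y.2) :=
      PTime.vtx (PTime.const _) (by fun_prop)
    have h2 : PTime (fun y : α × ℕ => MP_63b90e_lc.vtx true y.2) :=
      PTime.vtx (PTime.const _) (by fun_prop)
    fun_prop
  · refine PTime.map (f := fun _ (c : NClause) => c.map fun l => MP_63b90e_lc.vtx (!l.1) l.2)
      hC ?_
    exact PTime.map (f := fun _ (l : Bool × ℕ) => MP_63b90e_lc.vtx (!l.1) l.2) (by fun_prop)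
      (PTime.vtx (by fun_prop) (by fun_prop))

theorem PTime.blk {a t i : α → ℕ} {L : α → List (List ℕ)} (ha : PTime a) (hL : PTime L)
    (ht : PTime t) (hi : PTime i) :
    PTime (fun x => MP_63b90e_lc.blk (a x) (L x) (t x) (i x)) := by
  unfold MP_63b90e_lc.blk
  refine PTime.twoG ha (PTime.append (PTime.replicate hi (PTime.const _)) ?_)
  exact PTime.flatMap (f := fun x S => List.replicate (t x) S) hL
    (PTime.replicate (ht.comp PTime.fst) (by fun_prop))

theorem PTime.digits {a : α → List Bool} {f : α → ℕ → CG} (ha : PTime a)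
    (hf : PTime (fun y : α × ℕ => f y.1 y.2)) :
    PTime (fun x => MP_63b90e_lc.digits (a x) (f x)) := by
  unfold MP_63b90e_lc.digits
  refine PTime.flatMap (f := fun x (bi : Bool × ℕ) => bif bi.1 then [f x bi.2] else [])
    (PTime.zipIdx ha) ?_
  have h1 : PTime (fun y : α × (Bool × ℕ) => f y.1 y.2.2) :=
    hf.comp (f := fun y : α × (Bool × ℕ) => (y.1, y.2.2)) (by fun_prop)
  fun_prop

theorem PTime.blocks {p : α → List (List Bool)} {a : α → ℕ} {L : α → List (List ℕ)}
    (hp : PTime p) (ha : PTime a) (hL : PTime L) :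
    PTime (fun x => MP_63b90e_lc.blocks (p x) (a x) (L x)) := by
  unfold MP_63b90e_lc.blocks
  refine PTime.flatMap (f := fun x (at' : List Bool × ℕ) =>
    MP_63b90e_lc.digits at'.1 (MP_63b90e_lc.blk (a x) (L x) at'.2)) (PTime.zipIdx hp) ?_
  refine PTime.digits (f := fun (y : α × (List Bool × ℕ)) =>
    MP_63b90e_lc.blk (a y.1) (L y.1) y.2.2) (by fun_prop) ?_
  exact PTime.blk (ha.comp (PTime.fst.comp PTime.fst)) (hL.comp (PTime.fst.comp PTime.fst))
    (by fun_prop) (by fun_prop)

theorem PTime.tblocks {p : α → List (List Bool)} {j k : α → ℕ}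
    (hp : PTime p) (hj : PTime j) (hk : PTime k) :
    PTime (fun x => MP_63b90e_lc.tblocks (p x) (j x) (k x)) := by
  unfold MP_63b90e_lc.tblocks
  refine PTime.flatMap (f := fun x (at' : List Bool × ℕ) =>
    MP_63b90e_lc.digits at'.1 fun i => (j x * at'.2 + k x + i, [])) (PTime.zipIdx hp) ?_
  refine PTime.digits (f := fun (y : α × (List Bool × ℕ)) i =>
    (j y.1 * y.2.2 + k y.1 + i, [])) (by fun_prop) ?_
  have h1 : PTime (fun z : (α × (List Bool × ℕ)) × ℕ => j z.1.1) :=
    hj.comp (PTime.fst.comp PTime.fst)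
  have h2 : PTime (fun z : (α × (List Bool × ℕ)) × ℕ => k z.1.1) :=
    hk.comp (PTime.fst.comp PTime.fst)
  fun_prop

theorem PTime.side {p q : α → List (List Bool)} {n k : α → ℕ} {C : α → List NClause}
    (hp : PTime p) (hq : PTime q) (hn : PTime n) (hC : PTime C) (hk : PTime k) :
    PTime (fun x => MP_63b90e_lc.side (p x) (q x) (n x) (C x) (k x)) := by
  unfold MP_63b90e_lc.side
  have hw : PTime (fun x => wgt (n x) (C x) * n x) := by unfold wgt; fun_prop
  exact PTime.sumL (PTime.append (PTime.blocks hp (by fun_prop) (PTime.gam hn hC))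
    (PTime.tblocks hq hw hk))

theorem PTime.roots {n : α → ℕ} {C : α → List NClause} (hn : PTime n) (hC : PTime C) :
    PTime (fun x => MP_63b90e_lc.roots (n x) (C x)) := by
  unfold MP_63b90e_lc.roots
  have hg := PTime.gam hn hC
  have hw : PTime (fun x => wgt (n x) (C x) * n x) := by unfold wgt; fun_prop
  refine PTime.filter (p := fun x j => !decide (j = wgt (n x) (C x) * n x))
    (PTime.range (PTime.natAdd (PTime.length hg) (PTime.const 1))) ?_
  have h1 : PTime (fun y : α × ℕ => wgt (n y.1) (C y.1) * n y.1) := hw.comp PTime.fst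
  fun_prop

theorem PTime.gQ {n k : α → ℕ} {C : α → List NClause} (hn : PTime n) (hC : PTime C)
    (hk : PTime k) : PTime (fun x => MP_63b90e_lc.gQ (n x) (C x) (k x)) := by
  unfold MP_63b90e_lc.gQ
  have h1 := PTime.coefs (PTime.append (PTime.roots hn hC) (PTime.roots hn hC))
  exact PTime.side (PTime.fst.comp h1) (PTime.snd.comp h1) hn hC hk

theorem PTime.gR {n k : α → ℕ} {C : α → List NClause} (hn : PTime n) (hC : PTime C)
    (hk : PTime k) : PTime (fun x => MP_63b90e_lc.gR (n x) (C x) (k x)) := by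
  unfold MP_63b90e_lc.gR
  have h1 := PTime.coefs (PTime.append (PTime.roots hn hC) (PTime.roots hn hC))
  exact PTime.side (PTime.snd.comp h1) (PTime.fst.comp h1) hn hC hk

/-! ### Preference lists -/

theorem PTime.vt {E : α → List (ℕ × ℕ)} {x : α → ℕ × Bool} (hE : PTime E) (hx : PTime x) :
    PTime (fun a => MP_63b90e_lc.vt (E a) (x a)) := by
  unfold MP_63b90e_lc.vt
  have h : PTime (fun a => ((E a).drop (x a).1).head?.getD (0, 0)) :=
    PTime.getD (PTime.headOpt (PTime.drop hE (by fun_prop))) (PTime.const _)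
  fun_prop

theorem PTime.incs {e : α → ℕ} (he : PTime e) : PTime (fun a => MP_63b90e_lc.incs (e a)) := by
  unfold MP_63b90e_lc.incs
  exact PTime.flatMap (f := fun _ i => [(i, false), (i, true)]) (PTime.range he) (by fun_prop)

theorem PTime.inc {E : α → List (ℕ × ℕ)} {p : α → ℕ} (hE : PTime E) (hp : PTime p) :
    PTime (fun a => MP_63b90e_lc.inc (E a) (p a)) := by
  unfold MP_63b90e_lc.inc
  refine PTime.filter (p := fun a x => decide (MP_63b90e_lc.vt (E a) x = p a))
    (PTime.incs (PTime.length hE)) ?_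
  have h1 : PTime (fun y : α × (ℕ × Bool) => MP_63b90e_lc.vt (E y.1) y.2) :=
    PTime.vt (hE.comp PTime.fst) (by fun_prop)
  have h2 : PTime (fun y : α × (ℕ × Bool) => p y.1) := hp.comp PTime.fst
  fun_prop

end

end Pool.Agent.Work.MP_63b90e_lc
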